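import Mathlib

/-! One variable calculus facts used for the Lindqvist problem. -/

open Filter Topology Set

namespace Pool.Lind

/-- If the second derivative at `0` is negative and the first vanishes there,
the function is strictly below its value at `0` just to the right. -/
lemma lt_right_of_snd_neg {φ φ' : ℝ → ℝ} {a : ℝ}
    (h1 : ∀ᶠ t in 𝓝 (0:ℝ), HasDerivAt φ (φ' t) t) (h0 : φ' 0 = 0)
    (h2 : HasDerivAt φ' a 0) (ha : a < 0) :
    ∀ᶠ t in 𝓝[>] (0:ℝ), φ t < φ 0 := by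
  -- φ' t < 0 for small t > 0
  have hslope : Tendsto (slope φ' 0) (𝓝[≠] 0) (𝓝 a) := hasDerivAt_iff_tendsto_slope.1 h2
  have hneg : ∀ᶠ t in 𝓝[≠] (0:ℝ), slope φ' 0 t < 0 := hslope.eventually (gt_mem_nhds ha)
  have hneg' : ∀ᶠ t in 𝓝[>] (0:ℝ), φ' t < 0 := by
    have : 𝓝[>] (0:ℝ) ≤ 𝓝[≠] 0 := nhdsWithin_mono _ (fun x hx => ne_of_gt hx)
    filter_upwards [this hneg, self_mem_nhdsWithin] with t ht ht0
    rw [slope_def_field, h0] at ht
    have ht0' : (0:ℝ) < t := ht0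
    have : (φ' t - 0) / (t - 0) * t < 0 := mul_neg_of_neg_of_pos ht ht0'
    rw [sub_zero, sub_zero, div_mul_cancel₀ _ (ne_of_gt ht0')] at this
    exact this
  have h1' : ∀ᶠ t in 𝓝[≥] (0:ℝ), HasDerivAt φ (φ' t) t := nhdsWithin_le_nhds h1
  obtain ⟨δ, hδ, H1⟩ := (mem_nhdsGT_iff_exists_Ioo_subset.1 hneg')
  obtain ⟨δ₂, hδ₂, H2⟩ := (mem_nhdsGE_iff_exists_Ico_subset.1 h1')
  have hδ' : (0:ℝ) < δ := hδ
  have hδ₂' : (0:ℝ) < δ₂ := hδ₂
  refine mem_nhdsGT_iff_exists_Ioo_subset.2 ⟨min δ δ₂, lt_min hδ' hδ₂', ?_⟩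
  intro t ht
  have ht0 : 0 < t := ht.1
  have ht1 : t < δ := lt_of_lt_of_le ht.2 (min_le_left _ _)
  have ht2 : t < δ₂ := lt_of_lt_of_le ht.2 (min_le_right _ _)
  have hanti : StrictAntiOn φ (Icc 0 t) := by
    apply strictAntiOn_of_deriv_neg (convex_Icc 0 t)
    · intro s hs
      have : s ∈ Ico (0:ℝ) δ₂ := ⟨hs.1, lt_of_le_of_lt hs.2 ht2⟩
      exact (H2 this).continuousAt.continuousWithinAt
    · intro s hs
      rw [interior_Icc] at hs
      have hs2 : s ∈ Ico (0:ℝ) δ₂ := ⟨hs.1.le, lt_trans hs.2 ht2⟩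
      have hs1 : s ∈ Ioo (0:ℝ) δ := ⟨hs.1, lt_trans hs.2 ht1⟩
      rw [(H2 hs2 : HasDerivAt φ (φ' s) s).deriv]
      exact H1 hs1
  exact hanti (left_mem_Icc.2 ht0.le) (right_mem_Icc.2 ht0.le) ht0

/-- second derivative test, one sided version -/
lemma snd_nonpos_of_right {φ φ' : ℝ → ℝ} {a : ℝ}
    (h1 : ∀ᶠ t in 𝓝 (0:ℝ), HasDerivAt φ (φ' t) t) (h0 : φ' 0 = 0)
    (h2 : HasDerivAt φ' a 0) (hle : ∃ᶠ t in 𝓝[>] (0:ℝ), φ t ≤ φ 0) :
    a ≤ 0 := by
  by_contra ha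
  push Not at ha
  have h1' : ∀ᶠ t in 𝓝 (0:ℝ), HasDerivAt (fun t => - φ t) (- φ' t) t := by
    filter_upwards [h1] with t ht using ht.neg
  have h2' : HasDerivAt (fun t => - φ' t) (-a) 0 := h2.neg
  have := lt_right_of_snd_neg (φ := fun t => - φ t) (φ' := fun t => - φ' t) h1' (by simp [h0]) h2'
    (by linarith)
  obtain ⟨t, ht1, ht2⟩ := (hle.and_eventually this).exists
  linarith

/-- second derivative test at a local maximum -/
lemma snd_nonpos_of_isLocalMax {φ φ' : ℝ → ℝ} {a : ℝ}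
    (h1 : ∀ᶠ t in 𝓝 (0:ℝ), HasDerivAt φ (φ' t) t)
    (h2 : HasDerivAt φ' a 0) (hmax : IsLocalMax φ 0) :
    a ≤ 0 := by
  have h0 : φ' 0 = 0 := hmax.hasDerivAt_eq_zero h1.self_of_nhds
  refine snd_nonpos_of_right h1 h0 h2 ?_
  have : ∀ᶠ t in 𝓝[>] (0:ℝ), φ t ≤ φ 0 := nhdsWithin_le_nhds hmax
  exact this.frequently

/-- quadratic growth to the right bounds the second derivative from below -/
lemma snd_ge_of_right {φ φ' : ℝ → ℝ} {a k : ℝ}
    (h1 : ∀ᶠ t in 𝓝 (0:ℝ), HasDerivAt φ (φ' t) t) (h0 : φ' 0 = 0)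
    (h2 : HasDerivAt φ' a 0) (hge : ∃ᶠ t in 𝓝[>] (0:ℝ), φ 0 + k * t ^ 2 ≤ φ t) :
    2 * k ≤ a := by
  have h1' : ∀ᶠ t in 𝓝 (0:ℝ), HasDerivAt (fun t => k * t ^ 2 - φ t) (2 * k * t - φ' t) t := by
    filter_upwards [h1] with t ht
    have : HasDerivAt (fun t : ℝ => k * t ^ 2) (k * (2 * t)) t := by
      simpa using (hasDerivAt_pow 2 t).const_mul k
    have h3 := this.sub ht
    have e : k * (2 * t) - φ' t = 2 * k * t - φ' t := by ring
    rw [e] at h3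
    exact h3
  have h2' : HasDerivAt (fun t => 2 * k * t - φ' t) (2 * k - a) 0 := by
    have : HasDerivAt (fun t : ℝ => 2 * k * t) (2 * k) 0 := by
      simpa using (hasDerivAt_id (0:ℝ)).const_mul (2 * k)
    exact this.sub h2
  have := snd_nonpos_of_right h1' (by simp [h0]) h2' (by
    refine hge.mono fun t ht => ?_
    linarith)
  linarith

/-- Second derivative of a function that is concave near `0`. -/
lemma snd_nonpos_of_concaveOn {φ φ' : ℝ → ℝ} {a δ : ℝ} (hδ : 0 < δ)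
    (hc : ConcaveOn ℝ (Ioo (-δ) δ) φ)
    (h1 : ∀ᶠ t in 𝓝 (0:ℝ), HasDerivAt φ (φ' t) t)
    (h2 : HasDerivAt φ' a 0) :
    a ≤ 0 := by
  -- subtract the tangent line at 0
  have h0 : HasDerivAt φ (φ' 0) 0 := h1.self_of_nhds
  have h1' : ∀ᶠ t in 𝓝 (0:ℝ), HasDerivAt (fun t => φ t - φ' 0 * t) (φ' t - φ' 0) t := by
    filter_upwards [h1] with t ht
    have : HasDerivAt (fun t : ℝ => φ' 0 * t) (φ' 0) t := by
      simpa using (hasDerivAt_id t).const_mul (φ' 0)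
    exact ht.sub this
  have h2' : HasDerivAt (fun t => φ' t - φ' 0) a 0 := by
    simpa using h2.sub_const (φ' 0)
  refine snd_nonpos_of_right h1' (by simp) h2' ?_
  have hev : ∀ᶠ t in 𝓝[>] (0:ℝ), t ∈ Ioo (0:ℝ) δ := Ioo_mem_nhdsGT hδ
  refine Eventually.frequently ?_
  filter_upwards [hev] with t ht
  have h3 : slope φ 0 t ≤ φ' 0 := by
    have hm0 : (0:ℝ) ∈ Ioo (-δ) δ := by constructor <;> linarith
    have hmt : t ∈ Ioo (-δ) δ := by constructor <;> linarith [ht.1, ht.2]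
    exact hc.slope_le_of_hasDerivAt hm0 hmt ht.1 h0
  rw [slope_def_field, div_le_iff₀ (by linarith [ht.1])] at h3
  simp only [mul_zero, sub_zero] at *
  linarith

end Pool.Lind
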