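import Mathlib
import Pool.Agent.Lib_helper51.Lind.Calc

/-! Difference quotients and coordinate derivatives. -/

open Filter Topology Set

namespace Pool.Lind

variable {n : ℕ}

/-- partial derivative -/
noncomputable def pd (g : EuclideanSpace ℝ (Fin n) → ℝ) (i : Fin n)
    (x : EuclideanSpace ℝ (Fin n)) : ℝ :=
  fderiv ℝ g x (EuclideanSpace.single i (1 : ℝ))

/-- joint limit of difference quotients -/
lemma tendsto_diffquot {g : EuclideanSpace ℝ (Fin n) → ℝ}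
    {g' : EuclideanSpace ℝ (Fin n) →L[ℝ] ℝ} {x₀ : EuclideanSpace ℝ (Fin n)}
    (hg : HasStrictFDerivAt g g' x₀) (e : EuclideanSpace ℝ (Fin n)) :
    Tendsto (fun p : EuclideanSpace ℝ (Fin n) × ℝ => (g (p.1 + p.2 • e) - g p.1) / p.2)
      (𝓝 x₀ ×ˢ 𝓝[≠] (0:ℝ)) (𝓝 (g' e)) := by
  have h1 : Tendsto (fun p : EuclideanSpace ℝ (Fin n) × ℝ => (p.1 + p.2 • e, p.1))
      (𝓝 x₀ ×ˢ 𝓝[≠] (0:ℝ)) (𝓝 (x₀, x₀)) := by
    have hle : 𝓝 x₀ ×ˢ 𝓝[≠] (0:ℝ) ≤ 𝓝 (x₀, (0:ℝ)) := by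
      rw [nhds_prod_eq]
      exact Filter.prod_mono le_rfl nhdsWithin_le_nhds
    have hc : Continuous (fun p : EuclideanSpace ℝ (Fin n) × ℝ => (p.1 + p.2 • e, p.1)) := by
      fun_prop
    have := (hc.tendsto (x₀, (0:ℝ))).mono_left hle
    simpa using this
  have h2 := hg.isLittleO.comp_tendsto h1
  have h3 : (fun p : EuclideanSpace ℝ (Fin n) × ℝ => g (p.1 + p.2 • e) - g p.1 - p.2 * g' e)
      =o[𝓝 x₀ ×ˢ 𝓝[≠] (0:ℝ)] (fun p => p.2) := by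
    have e1 : ∀ p : EuclideanSpace ℝ (Fin n) × ℝ,
        ((fun p : EuclideanSpace ℝ (Fin n) × EuclideanSpace ℝ (Fin n) =>
          g p.1 - g p.2 - g' (p.1 - p.2)) ∘
        (fun p : EuclideanSpace ℝ (Fin n) × ℝ => (p.1 + p.2 • e, p.1))) p
        = g (p.1 + p.2 • e) - g p.1 - p.2 * g' e := by
      intro p
      simp
    have h2' := h2.congr_left e1
    refine h2'.trans_isBigO ?_
    have : ∀ p : EuclideanSpace ℝ (Fin n) × ℝ,
        ‖((fun p : EuclideanSpace ℝ (Fin n) × EuclideanSpace ℝ (Fin n) => p.1 - p.2) ∘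
        (fun p : EuclideanSpace ℝ (Fin n) × ℝ => (p.1 + p.2 • e, p.1))) p‖ ≤ ‖e‖ * ‖p.2‖ := by
      intro p
      simp [norm_smul, mul_comm]
    exact Asymptotics.IsBigO.of_bound ‖e‖ (Eventually.of_forall this)
  have h4 := h3.tendsto_div_nhds_zero
  have h5 : Tendsto (fun p : EuclideanSpace ℝ (Fin n) × ℝ =>
      (g (p.1 + p.2 • e) - g p.1 - p.2 * g' e) / p.2 + g' e) (𝓝 x₀ ×ˢ 𝓝[≠] (0:ℝ))
      (𝓝 (0 + g' e)) := h4.add_const _
  rw [zero_add] at h5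
  refine h5.congr' ?_
  have hne : ∀ᶠ p : EuclideanSpace ℝ (Fin n) × ℝ in 𝓝 x₀ ×ˢ 𝓝[≠] (0:ℝ), p.2 ≠ 0 :=
    (tendsto_snd).eventually self_mem_nhdsWithin
  filter_upwards [hne] with p hp
  field_simp
  ring

section C2

variable {Ω : Set (EuclideanSpace ℝ (Fin n))} {V : EuclideanSpace ℝ (Fin n) → ℝ}

lemma contDiffAt_of (hΩ : IsOpen Ω) (hV : ContDiffOn ℝ 2 V Ω) {x : EuclideanSpace ℝ (Fin n)}
    (hx : x ∈ Ω) : ContDiffAt ℝ 2 V x :=
  hV.contDiffAt (hΩ.mem_nhds hx)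

lemma hasFDerivAt_of (hΩ : IsOpen Ω) (hV : ContDiffOn ℝ 2 V Ω) {x : EuclideanSpace ℝ (Fin n)}
    (hx : x ∈ Ω) : HasFDerivAt V (fderiv ℝ V x) x :=
  ((contDiffAt_of hΩ hV hx).differentiableAt (by norm_num)).hasFDerivAt

lemma contDiffAt_pd (hΩ : IsOpen Ω) (hV : ContDiffOn ℝ 2 V Ω) {x : EuclideanSpace ℝ (Fin n)}
    (hx : x ∈ Ω) (i : Fin n) : ContDiffAt ℝ 1 (pd V i) x := by
  have h := (contDiffAt_of hΩ hV hx).fderiv_right (m := 1) (by norm_num)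
  exact h.clm_apply contDiffAt_const

lemma contDiffAt_fd (hΩ : IsOpen Ω) (hV : ContDiffOn ℝ 2 V Ω) {x : EuclideanSpace ℝ (Fin n)}
    (hx : x ∈ Ω) (e : EuclideanSpace ℝ (Fin n)) : ContDiffAt ℝ 1 (fun y => fderiv ℝ V y e) x := by
  have h := (contDiffAt_of hΩ hV hx).fderiv_right (m := 1) (by norm_num)
  exact h.clm_apply contDiffAt_const

lemma hasFDerivAt_pd (hΩ : IsOpen Ω) (hV : ContDiffOn ℝ 2 V Ω) {x : EuclideanSpace ℝ (Fin n)}
    (hx : x ∈ Ω) (i : Fin n) : HasFDerivAt (pd V i) (fderiv ℝ (pd V i) x) x :=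
  ((contDiffAt_pd hΩ hV hx i).differentiableAt (by norm_num)).hasFDerivAt

lemma hasStrictFDerivAt_pd (hΩ : IsOpen Ω) (hV : ContDiffOn ℝ 2 V Ω)
    {x : EuclideanSpace ℝ (Fin n)}
    (hx : x ∈ Ω) (i : Fin n) : HasStrictFDerivAt (pd V i) (fderiv ℝ (pd V i) x) x :=
  (contDiffAt_pd hΩ hV hx i).hasStrictFDerivAt (by norm_num)

lemma hasStrictFDerivAt_of (hΩ : IsOpen Ω) (hV : ContDiffOn ℝ 2 V Ω)
    {x : EuclideanSpace ℝ (Fin n)}
    (hx : x ∈ Ω) : HasStrictFDerivAt V (fderiv ℝ V x) x :=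
  (contDiffAt_of hΩ hV hx).hasStrictFDerivAt (by norm_num)

lemma continuousAt_pd (hΩ : IsOpen Ω) (hV : ContDiffOn ℝ 2 V Ω) {x : EuclideanSpace ℝ (Fin n)}
    (hx : x ∈ Ω) (i : Fin n) : ContinuousAt (pd V i) x :=
  (contDiffAt_pd hΩ hV hx i).continuousAt

/-- second derivatives as values of the second Frechet derivative -/
lemma fderiv_fd_apply (hΩ : IsOpen Ω) (hV : ContDiffOn ℝ 2 V Ω) {x : EuclideanSpace ℝ (Fin n)}
    (hx : x ∈ Ω) (d e : EuclideanSpace ℝ (Fin n)) :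
    fderiv ℝ (fun y => fderiv ℝ V y d) x e = fderiv ℝ (fderiv ℝ V) x e d := by
  have h : HasFDerivAt (fderiv ℝ V) (fderiv ℝ (fderiv ℝ V) x) x :=
    (((contDiffAt_of hΩ hV hx).fderiv_right (m := 1) (by norm_num)).differentiableAt
      (by norm_num)).hasFDerivAt
  have h2 : HasFDerivAt (fun y => fderiv ℝ V y d)
      ((ContinuousLinearMap.apply ℝ ℝ d).comp (fderiv ℝ (fderiv ℝ V) x)) x :=
    (ContinuousLinearMap.apply ℝ ℝ d).hasFDerivAt.comp x h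
  rw [h2.fderiv]
  simp

lemma fderiv2_symm (hΩ : IsOpen Ω) (hV : ContDiffOn ℝ 2 V Ω) {x : EuclideanSpace ℝ (Fin n)}
    (hx : x ∈ Ω) (d e : EuclideanSpace ℝ (Fin n)) :
    fderiv ℝ (fderiv ℝ V) x e d = fderiv ℝ (fderiv ℝ V) x d e := by
  have := (contDiffAt_of hΩ hV hx).isSymmSndFDerivAt (by simp)
  exact this e d

lemma pd_pd_eq (hΩ : IsOpen Ω) (hV : ContDiffOn ℝ 2 V Ω) {x : EuclideanSpace ℝ (Fin n)}
    (hx : x ∈ Ω) (i j : Fin n) :
    pd (pd V i) j x = fderiv ℝ (fderiv ℝ V) x (EuclideanSpace.single j (1:ℝ))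
      (EuclideanSpace.single i (1:ℝ)) :=
  fderiv_fd_apply hΩ hV hx _ _

lemma pd_symm (hΩ : IsOpen Ω) (hV : ContDiffOn ℝ 2 V Ω) {x : EuclideanSpace ℝ (Fin n)}
    (hx : x ∈ Ω) (i j : Fin n) : pd (pd V i) j x = pd (pd V j) i x := by
  rw [pd_pd_eq hΩ hV hx, pd_pd_eq hΩ hV hx, fderiv2_symm hΩ hV hx]

/-- coordinates of a vector -/
lemma eq_sum_single (d : EuclideanSpace ℝ (Fin n)) :
    d = ∑ i, d i • EuclideanSpace.single i (1:ℝ) := by
  ext j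
  simp [Finset.sum_apply, Pi.single_apply]

lemma clm_apply_eq_sum (L : EuclideanSpace ℝ (Fin n) →L[ℝ] ℝ) (d : EuclideanSpace ℝ (Fin n)) :
    L d = ∑ i, d i * L (EuclideanSpace.single i (1:ℝ)) := by
  conv_lhs => rw [eq_sum_single d]
  rw [map_sum]
  refine Finset.sum_congr rfl fun i _ => ?_
  rw [map_smul, smul_eq_mul]

lemma fderiv_eq_sum (g : EuclideanSpace ℝ (Fin n) → ℝ) (x d : EuclideanSpace ℝ (Fin n)) :
    fderiv ℝ g x d = ∑ i, d i * pd g i x :=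
  clm_apply_eq_sum _ _

lemma fderiv2_eq_sum (hΩ : IsOpen Ω) (hV : ContDiffOn ℝ 2 V Ω) {x : EuclideanSpace ℝ (Fin n)}
    (hx : x ∈ Ω) (d e : EuclideanSpace ℝ (Fin n)) :
    fderiv ℝ (fderiv ℝ V) x e d = ∑ i, ∑ j, d i * e j * pd (pd V i) j x := by
  rw [← fderiv_fd_apply hΩ hV hx d e]
  have h1 : ∀ y, fderiv ℝ V y d = ∑ i, d i * pd V i y := fun y => fderiv_eq_sum V y d
  have h2 : HasFDerivAt (fun y => ∑ i, d i * pd V i y)
      (∑ i, d i • fderiv ℝ (pd V i) x) x := by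
    apply HasFDerivAt.fun_sum
    intro i _
    exact (hasFDerivAt_pd hΩ hV hx i).const_mul (d i)
  have h3 : (fun y => fderiv ℝ V y d) = (fun y => ∑ i, d i * pd V i y) := funext h1
  rw [h3, h2.fderiv, sum_apply]
  refine Finset.sum_congr rfl fun i _ => ?_
  rw [smul_apply, smul_eq_mul, fderiv_eq_sum, Finset.mul_sum]
  exact Finset.sum_congr rfl fun j _ => by ring

/-- derivative along a line -/
lemma hasDerivAt_line {g : EuclideanSpace ℝ (Fin n) → ℝ} {x e : EuclideanSpace ℝ (Fin n)} {t : ℝ}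
    (hg : DifferentiableAt ℝ g (x + t • e)) :
    HasDerivAt (fun s : ℝ => g (x + s • e)) (fderiv ℝ g (x + t • e) e) t := by
  have h1 : HasDerivAt (fun s : ℝ => x + s • e) e t := by
    simpa using ((hasDerivAt_id t).smul_const e).const_add x
  exact hg.hasFDerivAt.comp_hasDerivAt t h1

end C2

end Pool.Lind
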