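import Mathlib
import Pool.Agent.Lib_helper51.Lind.Diff

/-! A maximum principle for `V - Ψ(|∇V|²)` when `V` is only twice differentiable. -/

open Filter Topology Set

namespace Pool.Lind

variable {n : ℕ}

/-- squared norm of the gradient -/
noncomputable def gsq (V : EuclideanSpace ℝ (Fin n) → ℝ) (x : EuclideanSpace ℝ (Fin n)) : ℝ :=
  ∑ i, (pd V i x) ^ 2

/-- difference quotient in the direction of the `i`-th coordinate -/
noncomputable def dq (g : EuclideanSpace ℝ (Fin n) → ℝ) (i : Fin n)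
    (h : ℝ) (x : EuclideanSpace ℝ (Fin n)) : ℝ :=
  (g (x + h • EuclideanSpace.single i (1 : ℝ)) - g x) / h

/-- the discrete squared gradient -/
noncomputable def dgsq (V : EuclideanSpace ℝ (Fin n) → ℝ) (h : ℝ)
    (x : EuclideanSpace ℝ (Fin n)) : ℝ :=
  ∑ i, (dq V i h x) ^ 2

section

variable {Ω : Set (EuclideanSpace ℝ (Fin n))} {V : EuclideanSpace ℝ (Fin n) → ℝ}

lemma hasDerivAt_line_dq {g : EuclideanSpace ℝ (Fin n) → ℝ} {i j : Fin n} {h t : ℝ}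
    {x : EuclideanSpace ℝ (Fin n)}
    (h1 : DifferentiableAt ℝ g (x + t • EuclideanSpace.single j (1 : ℝ)))
    (h2 : DifferentiableAt ℝ g (x + t • EuclideanSpace.single j (1 : ℝ)
      + h • EuclideanSpace.single i (1 : ℝ))) :
    HasDerivAt (fun s : ℝ => dq g i h (x + s • EuclideanSpace.single j (1 : ℝ)))
      (dq (pd g j) i h (x + t • EuclideanSpace.single j (1 : ℝ))) t := by
  have e1 := hasDerivAt_line h1
  have e2 : HasDerivAt (fun s : ℝ => g (x + h • EuclideanSpace.single i (1 : ℝ)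
      + s • EuclideanSpace.single j (1 : ℝ)))
      (fderiv ℝ g (x + h • EuclideanSpace.single i (1 : ℝ) + t • EuclideanSpace.single j (1 : ℝ))
        (EuclideanSpace.single j (1 : ℝ))) t := by
    apply hasDerivAt_line
    rw [add_right_comm]
    exact h2
  have e3 := (e2.sub e1).div_const h
  have ef : (fun s : ℝ => dq g i h (x + s • EuclideanSpace.single j (1 : ℝ)))
      = (fun s => (g (x + h • EuclideanSpace.single i (1 : ℝ)
      + s • EuclideanSpace.single j (1 : ℝ)) - g (x + s • EuclideanSpace.single j (1 : ℝ))) / h) := by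
    funext s
    unfold dq
    rw [add_right_comm]
  rw [ef]
  unfold dq pd
  rw [add_right_comm x (t • _) (h • _)]
  exact e3

lemma hasDerivAt_line_normsq (x x₀ : EuclideanSpace ℝ (Fin n)) (j : Fin n) (t : ℝ) :
    HasDerivAt (fun s : ℝ => ‖x + s • EuclideanSpace.single j (1 : ℝ) - x₀‖ ^ 2)
      (2 * ((x - x₀) j) + 2 * t) t := by
  have e : ∀ s : ℝ, ‖x + s • EuclideanSpace.single j (1 : ℝ) - x₀‖ ^ 2
      = ‖x - x₀‖ ^ 2 + 2 * (s * ((x - x₀) j)) + s ^ 2 := by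
    intro s
    have : x + s • EuclideanSpace.single j (1 : ℝ) - x₀
      = (x - x₀) + s • EuclideanSpace.single j (1 : ℝ) := by abel
    rw [this, norm_add_sq_real, inner_smul_right, norm_smul, EuclideanSpace.inner_single_right]
    simp
  rw [show (fun s : ℝ => ‖x + s • EuclideanSpace.single j (1 : ℝ) - x₀‖ ^ 2)
    = fun s => ‖x - x₀‖ ^ 2 + 2 * (s * ((x - x₀) j)) + s ^ 2 from funext e]
  have h1 : HasDerivAt (fun s : ℝ => 2 * (s * ((x - x₀) j))) (2 * ((x - x₀) j)) t := by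
    simpa using ((hasDerivAt_id t).mul_const ((x - x₀) j)).const_mul 2
  have h2 : HasDerivAt (fun s : ℝ => s ^ 2) (2 * t) t := by
    simpa using hasDerivAt_pow 2 t
  have h3 := (h1.const_add (‖x - x₀‖ ^ 2)).add h2
  exact h3

/-- The second order condition at a local maximum of the discretised function. -/
lemma lap_nonpos (hΩ : IsOpen Ω) (hV : ContDiffOn ℝ 2 V Ω) {μ η h : ℝ}
    (hlap : ∀ x ∈ Ω, ∑ i, pd (pd V i) i x = μ + gsq V x)
    {Ψ Ψ₁ Ψ₂ : ℝ → ℝ} {x x₀ : EuclideanSpace ℝ (Fin n)} (hx : x ∈ Ω)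
    (hxi : ∀ i, x + h • EuclideanSpace.single i (1 : ℝ) ∈ Ω)
    (h1 : ∀ᶠ q in 𝓝 (dgsq V h x), HasDerivAt Ψ (Ψ₁ q) q)
    (h2 : HasDerivAt Ψ₁ (Ψ₂ (dgsq V h x)) (dgsq V h x))
    (hmax : IsLocalMax (fun y => V y - Ψ (dgsq V h y) - η * ‖y - x₀‖ ^ 2) x) :
    μ + gsq V x - Ψ₂ (dgsq V h x) * ∑ j, (2 * ∑ i, dq V i h x * dq (pd V j) i h x) ^ 2
      - Ψ₁ (dgsq V h x) * (2 * (∑ i, ∑ j, (dq (pd V j) i h x) ^ 2
        + ∑ i, dq V i h x * dq (gsq V) i h x)) - 2 * n * η ≤ 0 := by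
  -- derivative of dgsq along the line
  have hd1 : ∀ j : Fin n, ∀ t : ℝ, x + t • EuclideanSpace.single j (1 : ℝ) ∈ Ω →
      (∀ i, x + t • EuclideanSpace.single j (1 : ℝ) + h • EuclideanSpace.single i (1 : ℝ) ∈ Ω) →
      HasDerivAt (fun s : ℝ => dgsq V h (x + s • EuclideanSpace.single j (1 : ℝ)))
        (2 * ∑ i, dq V i h (x + t • EuclideanSpace.single j (1 : ℝ))
          * dq (pd V j) i h (x + t • EuclideanSpace.single j (1 : ℝ))) t := by
    intro j t ht hti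
    have : HasDerivAt (fun s : ℝ => ∑ i, (dq V i h (x + s • EuclideanSpace.single j (1 : ℝ))) ^ 2)
        (∑ i, (2 : ℕ) * (dq V i h (x + t • EuclideanSpace.single j (1 : ℝ))) ^ (2 - 1)
          * dq (pd V j) i h (x + t • EuclideanSpace.single j (1 : ℝ))) t := by
      apply HasDerivAt.fun_sum
      intro i _
      apply HasDerivAt.fun_pow
      exact hasDerivAt_line_dq (hasFDerivAt_of hΩ hV ht).differentiableAt
        (hasFDerivAt_of hΩ hV (hti i)).differentiableAt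
    have e : ∑ i, (2 : ℕ) * (dq V i h (x + t • EuclideanSpace.single j (1 : ℝ))) ^ (2 - 1)
          * dq (pd V j) i h (x + t • EuclideanSpace.single j (1 : ℝ))
        = 2 * ∑ i, dq V i h (x + t • EuclideanSpace.single j (1 : ℝ))
          * dq (pd V j) i h (x + t • EuclideanSpace.single j (1 : ℝ)) := by
      rw [Finset.mul_sum]
      refine Finset.sum_congr rfl fun i _ => ?_
      simp only [Nat.add_one_sub_one, pow_one, Nat.cast_ofNat]
      ring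
    rw [e] at this
    exact this
  have hd2 : ∀ j i : Fin n,
      HasDerivAt (fun s : ℝ => dq (pd V j) i h (x + s • EuclideanSpace.single j (1 : ℝ)))
        (dq (pd (pd V j) j) i h x) 0 := by
    intro j i
    have := hasDerivAt_line_dq (g := pd V j) (i := i) (j := j) (h := h) (t := 0) (x := x)
      (by simpa using (hasFDerivAt_pd hΩ hV hx j).differentiableAt)
      (by simpa using (hasFDerivAt_pd hΩ hV (hxi i) j).differentiableAt)
    simpa using this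
  have hd2' : ∀ j i : Fin n,
      HasDerivAt (fun s : ℝ => dq V i h (x + s • EuclideanSpace.single j (1 : ℝ)))
        (dq (pd V j) i h x) 0 := by
    intro j i
    have := hasDerivAt_line_dq (g := V) (i := i) (j := j) (h := h) (t := 0) (x := x)
      (by simpa using (hasFDerivAt_of hΩ hV hx).differentiableAt)
      (by simpa using (hasFDerivAt_of hΩ hV (hxi i)).differentiableAt)
    simpa using this
  have hev : ∀ j : Fin n, ∀ᶠ t in 𝓝 (0:ℝ), x + t • EuclideanSpace.single j (1 : ℝ) ∈ Ω ∧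
      ∀ i, x + t • EuclideanSpace.single j (1 : ℝ) + h • EuclideanSpace.single i (1 : ℝ) ∈ Ω := by
    intro j
    have c0 : ContinuousAt (fun t : ℝ => x + t • EuclideanSpace.single j (1 : ℝ)) 0 := by
      fun_prop
    have e0 : ∀ᶠ t in 𝓝 (0:ℝ), x + t • EuclideanSpace.single j (1 : ℝ) ∈ Ω :=
      c0.eventually (by simpa using hΩ.mem_nhds hx)
    have ei : ∀ i : Fin n, ∀ᶠ t in 𝓝 (0:ℝ), x + t • EuclideanSpace.single j (1 : ℝ)
        + h • EuclideanSpace.single i (1 : ℝ) ∈ Ω := by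
      intro i
      have ci : ContinuousAt (fun t : ℝ => x + t • EuclideanSpace.single j (1 : ℝ)
        + h • EuclideanSpace.single i (1 : ℝ)) 0 := by fun_prop
      exact ci.eventually (by simpa using hΩ.mem_nhds (hxi i))
    exact e0.and (eventually_all.2 ei)
  have key : ∀ j : Fin n, pd (pd V j) j x
      - (Ψ₂ (dgsq V h x) * (2 * ∑ i, dq V i h x * dq (pd V j) i h x) ^ 2
        + Ψ₁ (dgsq V h x) * (2 * ∑ i, ((dq (pd V j) i h x) ^ 2
          + dq V i h x * dq (pd (pd V j) j) i h x))) - 2 * η ≤ 0 := by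
    intro j
    set φ : ℝ → ℝ := fun t => V (x + t • EuclideanSpace.single j (1 : ℝ))
      - Ψ (dgsq V h (x + t • EuclideanSpace.single j (1 : ℝ)))
      - η * ‖x + t • EuclideanSpace.single j (1 : ℝ) - x₀‖ ^ 2 with hφ
    set φ' : ℝ → ℝ := fun t => pd V j (x + t • EuclideanSpace.single j (1 : ℝ))
      - Ψ₁ (dgsq V h (x + t • EuclideanSpace.single j (1 : ℝ)))
        * (2 * ∑ i, dq V i h (x + t • EuclideanSpace.single j (1 : ℝ))
          * dq (pd V j) i h (x + t • EuclideanSpace.single j (1 : ℝ)))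
      - η * (2 * ((x - x₀) j) + 2 * t) with hφ'
    have hcont : ContinuousAt (fun s : ℝ => dgsq V h (x + s • EuclideanSpace.single j (1 : ℝ))) 0 :=
      (hd1 j 0 (by simpa using hx) (by simpa using hxi)).continuousAt
    have hev2 : ∀ᶠ t in 𝓝 (0:ℝ), HasDerivAt Ψ
        (Ψ₁ (dgsq V h (x + t • EuclideanSpace.single j (1 : ℝ))))
        (dgsq V h (x + t • EuclideanSpace.single j (1 : ℝ))) :=
      hcont.eventually (by simpa using h1)
    have H1 : ∀ᶠ t in 𝓝 (0:ℝ), HasDerivAt φ (φ' t) t := by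
      filter_upwards [hev j, hev2] with t ht ht2
      have a1 := hasDerivAt_line (g := V) (x := x) (e := EuclideanSpace.single j (1 : ℝ)) (t := t)
        (hasFDerivAt_of hΩ hV ht.1).differentiableAt
      have a2 := ht2.comp t (hd1 j t ht.1 ht.2)
      have a3 := (hasDerivAt_line_normsq x x₀ j t).const_mul η
      exact (a1.sub a2).sub a3
    have H2 : HasDerivAt φ' (pd (pd V j) j x
      - (Ψ₂ (dgsq V h x) * (2 * ∑ i, dq V i h x * dq (pd V j) i h x) ^ 2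
        + Ψ₁ (dgsq V h x) * (2 * ∑ i, ((dq (pd V j) i h x) ^ 2
          + dq V i h x * dq (pd (pd V j) j) i h x))) - 2 * η) 0 := by
      have b1 : HasDerivAt (fun t : ℝ => pd V j (x + t • EuclideanSpace.single j (1 : ℝ)))
          (pd (pd V j) j x) 0 := by
        have := hasDerivAt_line (g := pd V j) (x := x) (e := EuclideanSpace.single j (1 : ℝ))
          (t := 0) (by simpa using (hasFDerivAt_pd hΩ hV hx j).differentiableAt)
        simpa [pd] using this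
      have b2 : HasDerivAt (fun t : ℝ => Ψ₁ (dgsq V h (x + t • EuclideanSpace.single j (1 : ℝ))))
          (Ψ₂ (dgsq V h x) * (2 * ∑ i, dq V i h x * dq (pd V j) i h x)) 0 := by
        have hd0 := hd1 j 0 (by simpa using hx) (by simpa using hxi)
        have h2' : HasDerivAt Ψ₁ (Ψ₂ (dgsq V h x))
            (dgsq V h (x + (0:ℝ) • EuclideanSpace.single j (1 : ℝ))) := by simpa using h2
        have h5 := h2'.comp (0:ℝ) hd0
        simp only [zero_smul, add_zero] at h5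
        exact h5
      have b3 : HasDerivAt (fun t : ℝ => 2 * ∑ i, dq V i h (x + t • EuclideanSpace.single j (1 : ℝ))
          * dq (pd V j) i h (x + t • EuclideanSpace.single j (1 : ℝ)))
          (2 * ∑ i, ((dq (pd V j) i h x) ^ 2 + dq V i h x * dq (pd (pd V j) j) i h x)) 0 := by
        apply HasDerivAt.const_mul
        apply HasDerivAt.fun_sum
        intro i _
        have h5 := (hd2' j i).mul (hd2 j i)
        simp only [zero_smul, add_zero] at h5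
        have e : dq (pd V j) i h x * dq (pd V j) i h x + dq V i h x * dq (pd (pd V j) j) i h x
          = (dq (pd V j) i h x) ^ 2 + dq V i h x * dq (pd (pd V j) j) i h x := by ring
        rw [e] at h5
        exact h5
      have b4 : HasDerivAt (fun t : ℝ => η * (2 * ((x - x₀) j) + 2 * t)) (2 * η) 0 := by
        have := (((hasDerivAt_id (0:ℝ)).const_mul 2).const_add (2 * ((x - x₀) j))).const_mul η
        simp only [id, mul_one] at this
        rw [mul_comm 2 η]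
        exact this
      have b5 := (b1.sub (b2.mul b3)).sub b4
      simp only [zero_smul, add_zero] at b5
      have e : pd (pd V j) j x
        - (Ψ₂ (dgsq V h x) * (2 * ∑ i, dq V i h x * dq (pd V j) i h x) ^ 2
        + Ψ₁ (dgsq V h x) * (2 * ∑ i, ((dq (pd V j) i h x) ^ 2
          + dq V i h x * dq (pd (pd V j) j) i h x))) - 2 * η
        = pd (pd V j) j x
        - (Ψ₂ (dgsq V h x) * (2 * ∑ i, dq V i h x * dq (pd V j) i h x)
            * (2 * ∑ i, dq V i h x * dq (pd V j) i h x)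
        + Ψ₁ (dgsq V h x) * (2 * ∑ i, ((dq (pd V j) i h x) ^ 2
          + dq V i h x * dq (pd (pd V j) j) i h x))) - 2 * η := by ring
      rw [e]
      exact b5
    have H3 : IsLocalMax φ 0 := by
      have c0 : ContinuousAt (fun t : ℝ => x + t • EuclideanSpace.single j (1 : ℝ)) 0 := by
        fun_prop
      have hm : IsLocalMax (fun y => V y - Ψ (dgsq V h y) - η * ‖y - x₀‖ ^ 2)
          (x + (0:ℝ) • EuclideanSpace.single j (1 : ℝ)) := by simpa using hmax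
      exact c0.eventually hm
    exact snd_nonpos_of_isLocalMax H1 H2 H3
  have hsum := Finset.sum_nonpos (s := Finset.univ) (fun j _ => key j)
  have hlx := hlap x hx
  have e1 : ∀ i : Fin n, ∑ j, dq (pd (pd V j) j) i h x = dq (gsq V) i h x := by
    intro i
    unfold dq
    rw [← Finset.sum_div, Finset.sum_sub_distrib, hlap x hx, hlap _ (hxi i)]
    congr 1
    ring
  have e2 : ∑ j, (pd (pd V j) j x
      - (Ψ₂ (dgsq V h x) * (2 * ∑ i, dq V i h x * dq (pd V j) i h x) ^ 2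
        + Ψ₁ (dgsq V h x) * (2 * ∑ i, ((dq (pd V j) i h x) ^ 2
          + dq V i h x * dq (pd (pd V j) j) i h x))) - 2 * η)
      = μ + gsq V x - Ψ₂ (dgsq V h x) * ∑ j, (2 * ∑ i, dq V i h x * dq (pd V j) i h x) ^ 2
      - Ψ₁ (dgsq V h x) * (2 * (∑ i, ∑ j, (dq (pd V j) i h x) ^ 2
        + ∑ i, dq V i h x * dq (gsq V) i h x)) - 2 * n * η := by
    simp only [Finset.sum_sub_distrib, Finset.sum_add_distrib, ← Finset.mul_sum, hlx]
    have e3 : ∑ j, ∑ i, dq V i h x * dq (pd (pd V j) j) i h x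
        = ∑ i, dq V i h x * dq (gsq V) i h x := by
      rw [Finset.sum_comm]
      refine Finset.sum_congr rfl fun i _ => ?_
      rw [← Finset.mul_sum, e1 i]
    rw [e3, Finset.sum_comm]
    simp only [Finset.sum_const, Finset.card_univ, Fintype.card_fin, nsmul_eq_mul]
    ring
  rw [← e2]
  exact hsum

lemma tendsto_dq {g : EuclideanSpace ℝ (Fin n) → ℝ}
    {g' : EuclideanSpace ℝ (Fin n) →L[ℝ] ℝ} {x₀ : EuclideanSpace ℝ (Fin n)}
    (hg : HasStrictFDerivAt g g' x₀) (i : Fin n) :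
    Tendsto (fun p : EuclideanSpace ℝ (Fin n) × ℝ => dq g i p.2 p.1)
      (𝓝 x₀ ×ˢ 𝓝[≠] (0:ℝ)) (𝓝 (g' (EuclideanSpace.single i (1 : ℝ)))) :=
  tendsto_diffquot hg _

lemma tendsto_dgsq (hΩ : IsOpen Ω) (hV : ContDiffOn ℝ 2 V Ω) {x₀ : EuclideanSpace ℝ (Fin n)}
    (hx₀ : x₀ ∈ Ω) :
    Tendsto (fun p : EuclideanSpace ℝ (Fin n) × ℝ => dgsq V p.2 p.1)
      (𝓝 x₀ ×ˢ 𝓝[≠] (0:ℝ)) (𝓝 (gsq V x₀)) := by
  unfold dgsq gsq
  apply tendsto_finsetSum
  intro i _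
  exact (tendsto_dq (hasStrictFDerivAt_of hΩ hV hx₀) i).pow 2

lemma hasStrictFDerivAt_gsq (hΩ : IsOpen Ω) (hV : ContDiffOn ℝ 2 V Ω)
    {x₀ : EuclideanSpace ℝ (Fin n)} (hx₀ : x₀ ∈ Ω) :
    HasStrictFDerivAt (gsq V) (∑ k, (2 * pd V k x₀) • fderiv ℝ (pd V k) x₀) x₀ := by
  unfold gsq
  apply HasStrictFDerivAt.fun_sum
  intro k _
  have := (hasStrictFDerivAt_pd hΩ hV hx₀ k).pow 2
  simpa using this

lemma continuousAt_gsq (hΩ : IsOpen Ω) (hV : ContDiffOn ℝ 2 V Ω)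
    {x₀ : EuclideanSpace ℝ (Fin n)} (hx₀ : x₀ ∈ Ω) : ContinuousAt (gsq V) x₀ :=
  (hasStrictFDerivAt_gsq hΩ hV hx₀).hasFDerivAt.continuousAt

lemma fderiv_gsq_apply (V : EuclideanSpace ℝ (Fin n) → ℝ)
    {x₀ : EuclideanSpace ℝ (Fin n)} (i : Fin n) :
    (∑ k, (2 * pd V k x₀) • fderiv ℝ (pd V k) x₀ : EuclideanSpace ℝ (Fin n) →L[ℝ] ℝ)
      (EuclideanSpace.single i (1 : ℝ)) = 2 * ∑ k, pd V k x₀ * pd (pd V k) i x₀ := by
  rw [sum_apply, Finset.mul_sum]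
  refine Finset.sum_congr rfl fun k _ => ?_
  rw [smul_apply, smul_eq_mul]
  unfold pd
  ring

/-- The second order necessary condition at a local maximum of `V - Ψ(|∇V|²)`; only two
derivatives of `V` are assumed to exist. -/
theorem bochner_max (hΩ : IsOpen Ω) (hV : ContDiffOn ℝ 2 V Ω) {μ : ℝ}
    (hlap : ∀ x ∈ Ω, ∑ i, pd (pd V i) i x = μ + gsq V x)
    {Ψ Ψ₁ Ψ₂ : ℝ → ℝ} {x₀ : EuclideanSpace ℝ (Fin n)} (hx₀ : x₀ ∈ Ω)
    (h1 : ∀ᶠ q in 𝓝 (gsq V x₀), HasDerivAt Ψ (Ψ₁ q) q)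
    (h2 : ∀ᶠ q in 𝓝 (gsq V x₀), HasDerivAt Ψ₁ (Ψ₂ q) q)
    (h3 : ContinuousAt Ψ₂ (gsq V x₀))
    (hmax : IsLocalMax (fun x => V x - Ψ (gsq V x)) x₀) :
    μ + gsq V x₀ - Ψ₂ (gsq V x₀) * ∑ j, (2 * ∑ i, pd V i x₀ * pd (pd V j) i x₀) ^ 2
      - Ψ₁ (gsq V x₀) * (2 * (∑ i, ∑ j, (pd (pd V j) i x₀) ^ 2
        + ∑ i, pd V i x₀ * (2 * ∑ k, pd V k x₀ * pd (pd V k) i x₀))) ≤ 0 := by
  by_contra hcon
  push Not at hcon
  set L₀ := μ + gsq V x₀ - Ψ₂ (gsq V x₀) * ∑ j, (2 * ∑ i, pd V i x₀ * pd (pd V j) i x₀) ^ 2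
      - Ψ₁ (gsq V x₀) * (2 * (∑ i, ∑ j, (pd (pd V j) i x₀) ^ 2
        + ∑ i, pd V i x₀ * (2 * ∑ k, pd V k x₀ * pd (pd V k) i x₀))) with hL₀
  obtain ⟨η, hη, hη2⟩ : ∃ η : ℝ, 0 < η ∧ 0 < L₀ - 2 * n * η := by
    refine ⟨L₀ / (2 * n + 1), by positivity, ?_⟩
    have : 2 * (n:ℝ) * (L₀ / (2 * n + 1)) < L₀ := by
      rw [mul_div_assoc', div_lt_iff₀ (by positivity)]
      nlinarith
    linarith
  -- the joint limit of the second order expression
  have tQ := tendsto_dgsq hΩ hV hx₀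
  have t1 : Tendsto (fun p : EuclideanSpace ℝ (Fin n) × ℝ =>
      μ + gsq V p.1 - Ψ₂ (dgsq V p.2 p.1)
        * ∑ j, (2 * ∑ i, dq V i p.2 p.1 * dq (pd V j) i p.2 p.1) ^ 2
      - Ψ₁ (dgsq V p.2 p.1) * (2 * (∑ i, ∑ j, (dq (pd V j) i p.2 p.1) ^ 2
        + ∑ i, dq V i p.2 p.1 * dq (gsq V) i p.2 p.1)) - 2 * n * η)
      (𝓝 x₀ ×ˢ 𝓝[≠] (0:ℝ)) (𝓝 (L₀ - 2 * n * η)) := by
    have a1 : Tendsto (fun p : EuclideanSpace ℝ (Fin n) × ℝ => gsq V p.1)
        (𝓝 x₀ ×ˢ 𝓝[≠] (0:ℝ)) (𝓝 (gsq V x₀)) :=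
      (continuousAt_gsq hΩ hV hx₀).tendsto.comp tendsto_fst
    have a2 : Tendsto (fun p : EuclideanSpace ℝ (Fin n) × ℝ => Ψ₂ (dgsq V p.2 p.1))
        (𝓝 x₀ ×ˢ 𝓝[≠] (0:ℝ)) (𝓝 (Ψ₂ (gsq V x₀))) := h3.tendsto.comp tQ
    have a3 : Tendsto (fun p : EuclideanSpace ℝ (Fin n) × ℝ => Ψ₁ (dgsq V p.2 p.1))
        (𝓝 x₀ ×ˢ 𝓝[≠] (0:ℝ)) (𝓝 (Ψ₁ (gsq V x₀))) :=
      h2.self_of_nhds.continuousAt.tendsto.comp tQ
    have a4 : ∀ i, Tendsto (fun p : EuclideanSpace ℝ (Fin n) × ℝ => dq V i p.2 p.1)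
        (𝓝 x₀ ×ˢ 𝓝[≠] (0:ℝ)) (𝓝 (pd V i x₀)) := fun i =>
      tendsto_dq (hasStrictFDerivAt_of hΩ hV hx₀) i
    have a5 : ∀ i j, Tendsto (fun p : EuclideanSpace ℝ (Fin n) × ℝ => dq (pd V j) i p.2 p.1)
        (𝓝 x₀ ×ˢ 𝓝[≠] (0:ℝ)) (𝓝 (pd (pd V j) i x₀)) := fun i j =>
      tendsto_dq (hasStrictFDerivAt_pd hΩ hV hx₀ j) i
    have a6 : ∀ i, Tendsto (fun p : EuclideanSpace ℝ (Fin n) × ℝ => dq (gsq V) i p.2 p.1)
        (𝓝 x₀ ×ˢ 𝓝[≠] (0:ℝ)) (𝓝 (2 * ∑ k, pd V k x₀ * pd (pd V k) i x₀)) := by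
      intro i
      have := tendsto_dq (hasStrictFDerivAt_gsq hΩ hV hx₀) i
      rwa [fderiv_gsq_apply V i] at this
    refine Tendsto.sub ?_ tendsto_const_nhds
    refine Tendsto.sub (Tendsto.sub (a1.const_add μ) ?_) ?_
    · refine a2.mul ?_
      refine tendsto_finsetSum _ fun j _ => ?_
      refine Tendsto.pow ?_ 2
      refine Tendsto.const_mul 2 ?_
      exact tendsto_finsetSum _ fun i _ => (a4 i).mul (a5 i j)
    · refine a3.mul ?_
      refine Tendsto.const_mul 2 ?_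
      refine Tendsto.add ?_ ?_
      · exact tendsto_finsetSum _ fun i _ => tendsto_finsetSum _ fun j _ => (a5 i j).pow 2
      · exact tendsto_finsetSum _ fun i _ => (a4 i).mul (a6 i)
  have ev1 := t1.eventually (lt_mem_nhds hη2)
  have ev2 : ∀ᶠ p : EuclideanSpace ℝ (Fin n) × ℝ in 𝓝 x₀ ×ˢ 𝓝[≠] (0:ℝ), p.1 ∈ Ω :=
    tendsto_fst.eventually (hΩ.mem_nhds hx₀)
  have ev3 : ∀ᶠ p : EuclideanSpace ℝ (Fin n) × ℝ in 𝓝 x₀ ×ˢ 𝓝[≠] (0:ℝ),
      ∀ i, p.1 + p.2 • EuclideanSpace.single i (1 : ℝ) ∈ Ω := by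
    refine eventually_all.2 fun i => ?_
    have hle : 𝓝 x₀ ×ˢ 𝓝[≠] (0:ℝ) ≤ 𝓝 (x₀, (0:ℝ)) := by
      rw [nhds_prod_eq]
      exact Filter.prod_mono le_rfl nhdsWithin_le_nhds
    have hc : Continuous (fun p : EuclideanSpace ℝ (Fin n) × ℝ =>
      p.1 + p.2 • EuclideanSpace.single i (1 : ℝ)) := by fun_prop
    have := (hc.tendsto (x₀, (0:ℝ))).mono_left hle
    exact this.eventually (by simpa using hΩ.mem_nhds hx₀)
  have ev4 : ∀ᶠ p : EuclideanSpace ℝ (Fin n) × ℝ in 𝓝 x₀ ×ˢ 𝓝[≠] (0:ℝ),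
      ∀ᶠ q in 𝓝 (dgsq V p.2 p.1), HasDerivAt Ψ (Ψ₁ q) q :=
    tQ.eventually (eventually_eventually_nhds.2 h1)
  have ev5 : ∀ᶠ p : EuclideanSpace ℝ (Fin n) × ℝ in 𝓝 x₀ ×ˢ 𝓝[≠] (0:ℝ),
      HasDerivAt Ψ₁ (Ψ₂ (dgsq V p.2 p.1)) (dgsq V p.2 p.1) :=
    tQ.eventually h2
  have evall : ∀ᶠ p : EuclideanSpace ℝ (Fin n) × ℝ in 𝓝 x₀ ×ˢ 𝓝[≠] (0:ℝ),
      p.1 ∈ Ω ∧ (∀ i, p.1 + p.2 • EuclideanSpace.single i (1 : ℝ) ∈ Ω) ∧
      HasDerivAt Ψ (Ψ₁ (dgsq V p.2 p.1)) (dgsq V p.2 p.1) ∧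
      ¬ IsLocalMax (fun y => V y - Ψ (dgsq V p.2 y) - η * ‖y - x₀‖ ^ 2) p.1 := by
    filter_upwards [ev1, ev2, ev3, ev4, ev5] with p p1 p2 p3 p4 p5
    refine ⟨p2, p3, p4.self_of_nhds, fun hm => ?_⟩
    have := lap_nonpos hΩ hV hlap p2 p3 p4 p5 hm
    linarith
  obtain ⟨P, hP, R, hR, hPR⟩ := Filter.eventually_prod_iff.1 evall
  have evx : ∀ᶠ x in 𝓝 x₀, P x ∧ x ∈ Ω ∧ V x - Ψ (gsq V x) ≤ V x₀ - Ψ (gsq V x₀) ∧
      HasDerivAt Ψ (Ψ₁ (gsq V x)) (gsq V x) := by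
    have := (continuousAt_gsq hΩ hV hx₀).eventually h1
    filter_upwards [hP, hΩ.mem_nhds hx₀, hmax, this] with x x1 x2 x3 x4
    exact ⟨x1, x2, x3, x4⟩
  obtain ⟨δ, hδ, hδs⟩ := Metric.nhds_basis_closedBall.eventually_iff.1 evx
  -- maximum points on the closed ball
  have evh : ∀ᶠ h in 𝓝[≠] (0:ℝ), ∃ x ∈ Metric.sphere x₀ δ,
      V x₀ - Ψ (dgsq V h x₀) - η * ‖x₀ - x₀‖ ^ 2 ≤ V x - Ψ (dgsq V h x) - η * ‖x - x₀‖ ^ 2 := by
    filter_upwards [hR] with h hh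
    have hcont : ContinuousOn (fun y => V y - Ψ (dgsq V h y) - η * ‖y - x₀‖ ^ 2)
        (Metric.closedBall x₀ δ) := by
      intro y hy
      obtain ⟨y1, y2, y3, _⟩ := hPR (hδs hy).1 hh
      simp only at y1 y2 y3
      have c1 : ContinuousAt V y := (hasFDerivAt_of hΩ hV y1).continuousAt
      have c2 : ContinuousAt (dgsq V h) y := by
        unfold dgsq
        apply tendsto_finsetSum
        intro i _
        refine Tendsto.pow ?_ 2
        unfold dq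
        refine Tendsto.div_const (Tendsto.sub ?_ c1) h
        have c3 : ContinuousAt V (y + h • EuclideanSpace.single i (1 : ℝ)) :=
          (hasFDerivAt_of hΩ hV (y2 i)).continuousAt
        have c4 : ContinuousAt (fun z : EuclideanSpace ℝ (Fin n) =>
          z + h • EuclideanSpace.single i (1 : ℝ)) y := by fun_prop
        exact ContinuousAt.comp (g := V) c3 c4
      have c5 : ContinuousAt (fun y => Ψ (dgsq V h y)) y :=
        ContinuousAt.comp (g := Ψ) y3.continuousAt c2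
      have c6 : ContinuousAt (fun y : EuclideanSpace ℝ (Fin n) => η * ‖y - x₀‖ ^ 2) y := by
        fun_prop
      exact ((c1.sub c5).sub c6).continuousWithinAt
    obtain ⟨x, hx, hxmax⟩ := (isCompact_closedBall x₀ δ).exists_isMaxOn
      (Metric.nonempty_closedBall.2 hδ.le) hcont
    refine ⟨x, ?_, hxmax (Metric.mem_closedBall_self hδ.le)⟩
    by_contra hxs
    have hxb : x ∈ Metric.ball x₀ δ := by
      rw [Metric.mem_ball]
      rw [Metric.mem_closedBall] at hx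
      rw [Metric.mem_sphere] at hxs
      exact lt_of_le_of_ne hx hxs
    obtain ⟨_, _, _, hnot⟩ := hPR (hδs hx).1 hh
    apply hnot
    have : Metric.closedBall x₀ δ ∈ 𝓝 x :=
      Filter.mem_of_superset (Metric.isOpen_ball.mem_nhds hxb) Metric.ball_subset_closedBall
    exact Filter.mem_of_superset this hxmax
  -- a sequence of such points
  obtain ⟨hs, hs0⟩ : ∃ hs : ℕ → ℝ, Tendsto hs atTop (𝓝[≠] (0:ℝ)) := exists_seq_tendsto _
  have evm := hs0.eventually evh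
  obtain ⟨N, hN⟩ := eventually_atTop.1 evm
  have hN' : ∀ m : ℕ, ∃ x ∈ Metric.sphere x₀ δ,
      V x₀ - Ψ (dgsq V (hs (m + N)) x₀) - η * ‖x₀ - x₀‖ ^ 2
        ≤ V x - Ψ (dgsq V (hs (m + N)) x) - η * ‖x - x₀‖ ^ 2 := fun m =>
    hN (m + N) (Nat.le_add_left _ _)
  choose xs hxs hxs2 using hN'
  obtain ⟨x₁, hx₁, φ, hφ, hlim⟩ := (isCompact_sphere x₀ δ).tendsto_subseq hxs
  have hx₁c : x₁ ∈ Metric.closedBall x₀ δ := Metric.sphere_subset_closedBall hx₁
  obtain ⟨_, hx₁Ω, hx₁le, hx₁d⟩ := hδs hx₁c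
  have hshift : Tendsto (fun m => hs (φ m + N)) atTop (𝓝[≠] (0:ℝ)) :=
    (hs0.comp (tendsto_add_atTop_nat N)).comp hφ.tendsto_atTop
  have l1 : Tendsto (fun m => V (xs (φ m)) - Ψ (dgsq V (hs (φ m + N)) (xs (φ m)))
      - η * ‖xs (φ m) - x₀‖ ^ 2) atTop (𝓝 (V x₁ - Ψ (gsq V x₁) - η * ‖x₁ - x₀‖ ^ 2)) := by
    have p1 : Tendsto (fun m => (xs (φ m), hs (φ m + N))) atTop (𝓝 x₁ ×ˢ 𝓝[≠] (0:ℝ)) :=
      hlim.prodMk hshift
    have p2 := (tendsto_dgsq hΩ hV hx₁Ω).comp p1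
    have p3 : Tendsto (fun m => Ψ (dgsq V (hs (φ m + N)) (xs (φ m)))) atTop
        (𝓝 (Ψ (gsq V x₁))) := hx₁d.continuousAt.tendsto.comp p2
    have p4 : Tendsto (fun m => V (xs (φ m))) atTop (𝓝 (V x₁)) :=
      (hasFDerivAt_of hΩ hV hx₁Ω).continuousAt.tendsto.comp hlim
    have c6 : ContinuousAt (fun y : EuclideanSpace ℝ (Fin n) => η * ‖y - x₀‖ ^ 2) x₁ := by
      fun_prop
    exact (p4.sub p3).sub (c6.tendsto.comp hlim)
  have l2 : Tendsto (fun m => V x₀ - Ψ (dgsq V (hs (φ m + N)) x₀)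
      - η * ‖x₀ - x₀‖ ^ 2) atTop (𝓝 (V x₀ - Ψ (gsq V x₀) - η * ‖x₀ - x₀‖ ^ 2)) := by
    have p1 : Tendsto (fun m => (x₀, hs (φ m + N))) atTop (𝓝 x₀ ×ˢ 𝓝[≠] (0:ℝ)) :=
      tendsto_const_nhds.prodMk hshift
    have p2 := (tendsto_dgsq hΩ hV hx₀).comp p1
    have p3 : Tendsto (fun m => Ψ (dgsq V (hs (φ m + N)) x₀)) atTop
        (𝓝 (Ψ (gsq V x₀))) := h1.self_of_nhds.continuousAt.tendsto.comp p2
    exact (tendsto_const_nhds.sub p3).sub tendsto_const_nhds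
  have hfin := le_of_tendsto_of_tendsto' l2 l1 (fun m => hxs2 (φ m))
  have hd : ‖x₁ - x₀‖ = δ := by
    rw [← dist_eq_norm]
    exact hx₁
  rw [hd, sub_self, norm_zero] at hfin
  have : 0 < η * δ ^ 2 := by positivity
  nlinarith

end

end Pool.Lind
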