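import Mathlib
import Pool.Agent.Lib_helper51.Lind.Diff

/-! Polar coordinates in the plane and parametric integrals over the circle. -/

open Filter Topology Set MeasureTheory

namespace Pool.Lind

/-- the radial unit vector -/
noncomputable def er (θ : ℝ) : EuclideanSpace ℝ (Fin 2) := WithLp.toLp 2 ![Real.cos θ, Real.sin θ]

/-- the tangential unit vector -/
noncomputable def et (θ : ℝ) : EuclideanSpace ℝ (Fin 2) :=
  WithLp.toLp 2 ![-Real.sin θ, Real.cos θ]

lemma norm_er (θ : ℝ) : ‖er θ‖ = 1 := by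
  rw [EuclideanSpace.norm_eq]
  simp [er, Fin.sum_univ_two]

lemma hasDerivAt_er (θ : ℝ) : HasDerivAt er (et θ) θ := by
  have h1 : HasDerivAt (fun θ : ℝ => (![Real.cos θ, Real.sin θ] : Fin 2 → ℝ))
      ![-Real.sin θ, Real.cos θ] θ := by
    rw [hasDerivAt_pi]
    intro i
    fin_cases i
    · simpa using Real.hasDerivAt_cos θ
    · simpa using Real.hasDerivAt_sin θ
  exact (PiLp.hasFDerivAt_toLp 2 (𝕜 := ℝ) _).comp_hasDerivAt θ h1

lemma hasDerivAt_et (θ : ℝ) : HasDerivAt et (- er θ) θ := by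
  have h1 : HasDerivAt (fun θ : ℝ => (![-Real.sin θ, Real.cos θ] : Fin 2 → ℝ))
      (-![Real.cos θ, Real.sin θ]) θ := by
    rw [hasDerivAt_pi]
    intro i
    fin_cases i
    · simpa using (Real.hasDerivAt_sin θ).fun_neg
    · simpa using Real.hasDerivAt_cos θ
  exact (PiLp.hasFDerivAt_toLp 2 (𝕜 := ℝ) _).comp_hasDerivAt θ h1

lemma continuous_er : Continuous er := continuous_iff_continuousAt.2 fun θ =>
  (hasDerivAt_er θ).continuousAt

lemma continuous_et : Continuous et := continuous_iff_continuousAt.2 fun θ =>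
  (hasDerivAt_et θ).continuousAt

lemma er_two_pi : er (2 * Real.pi) = er 0 := by
  simp [er]

lemma et_two_pi : et (2 * Real.pi) = et 0 := by
  simp [et]

lemma exists_polar (x : EuclideanSpace ℝ (Fin 2)) :
    ∃ θ ∈ Icc (0:ℝ) (2 * Real.pi), x = ‖x‖ • er θ := by
  set z : ℂ := ⟨x 0, x 1⟩ with hz
  have hnorm : ‖z‖ = ‖x‖ := by
    rw [EuclideanSpace.norm_eq, Fin.sum_univ_two, Complex.norm_eq_sqrt_sq_add_sq]
    simp [hz]
  have hre : ‖x‖ * Real.cos z.arg = x 0 := by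
    rw [← hnorm, Complex.norm_mul_cos_arg]
  have him : ‖x‖ * Real.sin z.arg = x 1 := by
    rw [← hnorm, Complex.norm_mul_sin_arg]
  rcases le_or_gt 0 z.arg with h | h
  · refine ⟨z.arg, ⟨h, by linarith [Complex.arg_le_pi z, Real.pi_pos]⟩, ?_⟩
    ext i
    fin_cases i
    · simp [er, hre]
    · simp [er, him]
  · refine ⟨z.arg + 2 * Real.pi, ⟨by linarith [Complex.neg_pi_lt_arg z, Real.pi_pos],
      by linarith⟩, ?_⟩
    ext i
    fin_cases i
    · simp [er, hre]
    · simp [er, him]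

/-- differentiation under the integral sign -/
lemma hasDerivAt_param {f f' : ℝ → ℝ → ℝ} {a b : ℝ}
    (hf : ContinuousOn (fun p : ℝ × ℝ => f p.1 p.2) (Ioo a b ×ˢ univ))
    (hf' : ContinuousOn (fun p : ℝ × ℝ => f' p.1 p.2) (Ioo a b ×ˢ univ))
    (hd : ∀ r ∈ Ioo a b, ∀ θ, HasDerivAt (fun s => f s θ) (f' r θ) r)
    {r : ℝ} (hr : r ∈ Ioo a b) :
    HasDerivAt (fun s => ∫ θ in (0:ℝ)..(2 * Real.pi), f s θ)
      (∫ θ in (0:ℝ)..(2 * Real.pi), f' r θ) r := by
  have hsec : ∀ s ∈ Ioo a b, Continuous (fun θ => f s θ) := by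
    intro s hs
    have : Continuous ((fun p : ℝ × ℝ => f p.1 p.2) ∘ (fun θ : ℝ => (s, θ))) :=
      hf.comp_continuous (by fun_prop) (fun θ => ⟨hs, mem_univ _⟩)
    exact this
  have hsec' : ∀ s ∈ Ioo a b, Continuous (fun θ => f' s θ) := by
    intro s hs
    have : Continuous ((fun p : ℝ × ℝ => f' p.1 p.2) ∘ (fun θ : ℝ => (s, θ))) :=
      hf'.comp_continuous (by fun_prop) (fun θ => ⟨hs, mem_univ _⟩)
    exact this
  obtain ⟨δ, hδ, hδs⟩ := Metric.nhds_basis_closedBall.mem_iff.1 (isOpen_Ioo.mem_nhds hr)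
  have hcomp : IsCompact (Metric.closedBall r δ ×ˢ Icc (0:ℝ) (2 * Real.pi)) :=
    (isCompact_closedBall r δ).prod isCompact_Icc
  have hsub : Metric.closedBall r δ ×ˢ Icc (0:ℝ) (2 * Real.pi) ⊆ Ioo a b ×ˢ univ :=
    prod_mono hδs (subset_univ _)
  obtain ⟨C, hC⟩ := hcomp.exists_bound_of_continuousOn (hf'.mono hsub)
  have hpi : (0:ℝ) ≤ 2 * Real.pi := by positivity
  refine (intervalIntegral.hasDerivAt_integral_of_dominated_loc_of_deriv_le
    (F := f) (F' := f') (bound := fun _ => C) (s := Metric.closedBall r δ)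
    (Metric.closedBall_mem_nhds r hδ) ?_ ?_ ?_ ?_ ?_ ?_).2
  · filter_upwards [isOpen_Ioo.mem_nhds hr] with s hs
    exact (hsec s hs).aestronglyMeasurable
  · exact (hsec r hr).intervalIntegrable _ _
  · exact (hsec' r hr).aestronglyMeasurable
  · refine Eventually.of_forall fun θ hθ s hs => ?_
    rw [uIoc_of_le hpi] at hθ
    exact hC (s, θ) ⟨hs, hθ.1.le, hθ.2⟩
  · exact intervalIntegrable_const
  · exact Eventually.of_forall fun θ _ s hs => hd s (hδs hs) θ

/-- continuity of a parametric integral -/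
lemma continuousAt_param {f : ℝ → ℝ → ℝ} {a b : ℝ}
    (hf : ContinuousOn (fun p : ℝ × ℝ => f p.1 p.2) (Ioo a b ×ˢ univ))
    {r : ℝ} (hr : r ∈ Ioo a b) :
    ContinuousAt (fun s => ∫ θ in (0:ℝ)..(2 * Real.pi), f s θ) r := by
  have hsec : ∀ s ∈ Ioo a b, Continuous (fun θ => f s θ) := by
    intro s hs
    have : Continuous ((fun p : ℝ × ℝ => f p.1 p.2) ∘ (fun θ : ℝ => (s, θ))) :=
      hf.comp_continuous (by fun_prop) (fun θ => ⟨hs, mem_univ _⟩)
    exact this
  obtain ⟨δ, hδ, hδs⟩ := Metric.nhds_basis_closedBall.mem_iff.1 (isOpen_Ioo.mem_nhds hr)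
  have hcomp : IsCompact (Metric.closedBall r δ ×ˢ Icc (0:ℝ) (2 * Real.pi)) :=
    (isCompact_closedBall r δ).prod isCompact_Icc
  have hsub : Metric.closedBall r δ ×ˢ Icc (0:ℝ) (2 * Real.pi) ⊆ Ioo a b ×ˢ univ :=
    prod_mono hδs (subset_univ _)
  obtain ⟨C, hC⟩ := hcomp.exists_bound_of_continuousOn (hf.mono hsub)
  have hpi : (0:ℝ) ≤ 2 * Real.pi := by positivity
  refine intervalIntegral.continuousAt_of_dominated_interval (bound := fun _ => C) ?_ ?_ ?_ ?_
  · filter_upwards [isOpen_Ioo.mem_nhds hr] with s hs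
    exact (hsec s hs).aestronglyMeasurable
  · filter_upwards [Metric.closedBall_mem_nhds r hδ] with s hs
    refine Eventually.of_forall fun θ hθ => ?_
    rw [uIoc_of_le hpi] at hθ
    exact hC (s, θ) ⟨hs, hθ.1.le, hθ.2⟩
  · exact intervalIntegrable_const
  · refine Eventually.of_forall fun θ _ => ?_
    have h1 : ContinuousAt (fun p : ℝ × ℝ => f p.1 p.2) (r, θ) :=
      hf.continuousAt ((isOpen_Ioo.prod isOpen_univ).mem_nhds ⟨hr, mem_univ _⟩)
    exact ContinuousAt.comp (g := fun p : ℝ × ℝ => f p.1 p.2) (f := fun s : ℝ => (s, θ)) h1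
      (by fun_prop)

end Pool.Lind
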