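import Mathlib

/-! A positive semidefinite matrix with a known eigenpair. -/

open Finset

namespace Pool.Lind

variable {n : ℕ}

lemma psd_entry_sq {B : Fin n → Fin n → ℝ} (hsymm : ∀ i j, B i j = B j i)
    (hpsd : ∀ d : Fin n → ℝ, 0 ≤ ∑ i, ∑ j, d i * d j * B i j) (i j : Fin n) :
    B i j ^ 2 ≤ B i i * B j j := by
  have hB : ∀ x : ℝ, 0 ≤ B i i * (x * x) + (2 * B i j) * x + B j j := by
    intro x
    have h := hpsd (fun k => x * (if k = i then 1 else 0) + (if k = j then 1 else 0))
    have e : ∑ k, ∑ l, (x * (if k = i then 1 else 0) + (if k = j then 1 else 0)) *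
        (x * (if l = i then 1 else 0) + (if l = j then 1 else 0)) * B k l
        = B i i * (x * x) + (2 * B i j) * x + B j j := by
      have e1 : ∀ k, ∑ l, (x * (if k = i then 1 else 0) + (if k = j then 1 else 0)) *
          (x * (if l = i then 1 else 0) + (if l = j then 1 else 0)) * B k l
          = (x * (if k = i then 1 else 0) + (if k = j then 1 else 0)) *
            (x * B k i + B k j) := by
        intro k
        have : ∀ l, (x * (if k = i then 1 else 0) + (if k = j then 1 else 0)) *
            (x * (if l = i then (1:ℝ) else 0) + (if l = j then 1 else 0)) * B k l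
            = (x * (if k = i then 1 else 0) + (if k = j then 1 else 0)) *
              ((if l = i then x * B k l else 0) + (if l = j then B k l else 0)) := by
          intro l
          split_ifs <;> ring
        simp only [this, ← Finset.mul_sum, Finset.sum_add_distrib, Finset.sum_ite_eq',
          Finset.mem_univ, if_true]
      simp only [e1]
      have : ∀ k, (x * (if k = i then (1:ℝ) else 0) + (if k = j then 1 else 0)) *
            (x * B k i + B k j)
          = (if k = i then x * (x * B k i + B k j) else 0) +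
            (if k = j then (x * B k i + B k j) else 0) := by
        intro k
        split_ifs <;> ring
      simp only [this, Finset.sum_add_distrib, Finset.sum_ite_eq', Finset.mem_univ, if_true]
      rw [hsymm j i]
      ring
    rw [e] at h
    exact h
  have := discrim_le_zero hB
  unfold discrim at this
  nlinarith

lemma sum_sq_le_of_eig {A : Fin n → Fin n → ℝ} (hsymm : ∀ i j, A i j = A j i)
    (hpsd : ∀ d : Fin n → ℝ, 0 ≤ ∑ i, ∑ j, d i * d j * A i j)
    {ξ : Fin n → ℝ} {c s : ℝ} (hξ : 0 < ∑ i, ξ i ^ 2)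
    (heig : ∀ i, ∑ j, A i j * ξ j = c * ξ i) (htr : ∑ i, A i i = s) :
    ∑ i, ∑ j, A i j ^ 2 ≤ c ^ 2 + (s - c) ^ 2 := by
  set Q := ∑ i, ξ i ^ 2 with hQ
  have hQ0 : Q ≠ 0 := ne_of_gt hξ
  set B : Fin n → Fin n → ℝ := fun i j => A i j - c / Q * (ξ i * ξ j) with hB
  have hBsymm : ∀ i j, B i j = B j i := by
    intro i j
    simp only [hB]
    rw [hsymm i j]; ring
  -- quadratic form identities
  have hAd : ∀ d : Fin n → ℝ, ∑ i, ∑ j, d i * ξ j * A i j = c * ∑ i, d i * ξ i := by
    intro d
    rw [Finset.mul_sum]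
    refine Finset.sum_congr rfl fun i _ => ?_
    have : ∑ j, d i * ξ j * A i j = d i * ∑ j, A i j * ξ j := by
      rw [Finset.mul_sum]
      exact Finset.sum_congr rfl fun j _ => by ring
    rw [this, heig i]; ring
  have hAd' : ∀ d : Fin n → ℝ, ∑ i, ∑ j, ξ i * d j * A i j = c * ∑ i, d i * ξ i := by
    intro d
    rw [Finset.sum_comm, ← hAd d]
    refine Finset.sum_congr rfl fun i _ => Finset.sum_congr rfl fun j _ => ?_
    rw [hsymm i j]; ring
  have hprod : ∀ a b : Fin n → ℝ, ∑ i, ∑ j, a i * b j = (∑ i, a i) * (∑ j, b j) := by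
    intro a b
    rw [Finset.sum_mul_sum]
  have hBpsd : ∀ d : Fin n → ℝ, 0 ≤ ∑ i, ∑ j, d i * d j * B i j := by
    intro d
    set m := ∑ i, d i * ξ i with hm
    have h := hpsd (fun i => d i - m / Q * ξ i)
    have e1 : ∑ i, ∑ j, (d i - m / Q * ξ i) * (d j - m / Q * ξ j) * A i j
        = ∑ i, ∑ j, d i * d j * A i j - c * m ^ 2 / Q := by
      have : ∀ i j, (d i - m / Q * ξ i) * (d j - m / Q * ξ j) * A i j
          = d i * d j * A i j - m / Q * (d i * ξ j * A i j) - m / Q * (ξ i * d j * A i j)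
            + (m / Q) ^ 2 * (ξ i * ξ j * A i j) := by
        intro i j; ring
      simp only [this, Finset.sum_add_distrib, Finset.sum_sub_distrib, ← Finset.mul_sum]
      rw [hAd d, hAd' d, hAd ξ]
      have hξξ : ∑ i, ξ i * ξ i = Q := by
        rw [hQ]; exact Finset.sum_congr rfl fun i _ => by ring
      rw [hξξ, ← hm]
      field_simp
      ring
    have e2 : ∑ i, ∑ j, d i * d j * B i j = ∑ i, ∑ j, d i * d j * A i j - c * m ^ 2 / Q := by
      have : ∀ i j, d i * d j * B i j = d i * d j * A i j - c / Q * ((d i * ξ i) * (d j * ξ j)) := by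
        intro i j; simp only [hB]; ring
      simp only [this, Finset.sum_sub_distrib, ← Finset.mul_sum]
      have h2 : ∑ i, (d i * ξ i) * ∑ j, d j * ξ j = m * m := by
        rw [← Finset.sum_mul, ← hm]
      rw [h2]
      field_simp
    rw [e2, ← e1]
    exact h
  have hBent := psd_entry_sq hBsymm hBpsd
  have hBtr : ∑ i, B i i = s - c := by
    simp only [hB, Finset.sum_sub_distrib, ← Finset.mul_sum, htr]
    have : ∑ i, ξ i * ξ i = Q := by
      rw [hQ]; exact Finset.sum_congr rfl fun i _ => by ring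
    rw [this]
    field_simp
  have hBsq : ∑ i, ∑ j, B i j ^ 2 ≤ (s - c) ^ 2 := by
    calc ∑ i, ∑ j, B i j ^ 2 ≤ ∑ i, ∑ j, B i i * B j j :=
          Finset.sum_le_sum fun i _ => Finset.sum_le_sum fun j _ => hBent i j
      _ = (∑ i, B i i) * (∑ j, B j j) := hprod _ _
      _ = (s - c) ^ 2 := by rw [hBtr]; ring
  have hAB : ∑ i, ∑ j, A i j ^ 2 = ∑ i, ∑ j, B i j ^ 2 + c ^ 2 := by
    have : ∀ i j, B i j ^ 2 = A i j ^ 2 - 2 * (c / Q) * (ξ i * ξ j * A i j)
        + (c / Q) ^ 2 * (ξ i ^ 2 * ξ j ^ 2) := by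
      intro i j; simp only [hB]; ring
    simp only [this, Finset.sum_add_distrib, Finset.sum_sub_distrib]
    have h1 : ∑ i, ∑ j, 2 * (c / Q) * (ξ i * ξ j * A i j) = 2 * (c / Q) * (c * Q) := by
      simp only [← Finset.mul_sum]
      rw [hAd ξ]
      congr 2
      rw [hQ]; exact Finset.sum_congr rfl fun i _ => by ring
    have h2 : ∑ i, ∑ j, (c / Q) ^ 2 * (ξ i ^ 2 * ξ j ^ 2) = (c / Q) ^ 2 * (Q * Q) := by
      simp only [← Finset.mul_sum]
      rw [← Finset.sum_mul, ← hQ]
    rw [h1, h2]
    field_simp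
    ring
  rw [hAB]
  linarith

end Pool.Lind
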