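import Mathlib
import Pool.Agent.Lib_helper51.Lind.Bochner

/-! The case where the maximum of `V - Ψ(|∇V|²)` sits at the minimum point of `V`. -/

open Filter Topology Set

namespace Pool.Lind

variable {n : ℕ} {Ω : Set (EuclideanSpace ℝ (Fin n))} {V : EuclideanSpace ℝ (Fin n) → ℝ}

lemma deriv_nonneg_of_right {χ : ℝ → ℝ} {a : ℝ} (h : HasDerivAt χ a 0)
    (hge : ∀ᶠ t in 𝓝[>] (0:ℝ), χ 0 ≤ χ t) : 0 ≤ a := by
  have hslope : Tendsto (slope χ 0) (𝓝[≠] 0) (𝓝 a) := hasDerivAt_iff_tendsto_slope.1 h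
  have hsub : 𝓝[>] (0:ℝ) ≤ 𝓝[≠] 0 := nhdsWithin_mono _ (fun x hx => ne_of_gt hx)
  refine ge_of_tendsto (hslope.mono_left hsub) ?_
  filter_upwards [hge, self_mem_nhdsWithin] with t ht ht0
  have ht0' : (0:ℝ) < t := ht0
  rw [slope_def_field]
  apply div_nonneg <;> linarith

lemma ball_ge_of_convexOn (hΩ : IsOpen Ω) (hV : ContDiffOn ℝ 2 V Ω) (hcvx : ConvexOn ℝ Ω V)
    {x₀ : EuclideanSpace ℝ (Fin n)} (hx₀ : x₀ ∈ Ω) (hgrad : fderiv ℝ V x₀ = 0) :
    ∀ y ∈ Ω, V x₀ ≤ V y := by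
  intro y hy
  set φ : ℝ → ℝ := fun t => V (x₀ + t • (y - x₀)) with hφ
  have hc : ConvexOn ℝ (Icc (0:ℝ) 1) φ := by
    have h1 := hcvx.comp_affineMap (AffineMap.lineMap x₀ y : ℝ →ᵃ[ℝ] EuclideanSpace ℝ (Fin n))
    have h2 : ConvexOn ℝ (Icc (0:ℝ) 1) (V ∘ (AffineMap.lineMap x₀ y)) := by
      refine h1.subset ?_ (convex_Icc 0 1)
      intro t ht
      simp only [mem_preimage]
      rw [AffineMap.lineMap_apply_module]
      exact hcvx.1 hx₀ hy (by linarith [ht.2]) ht.1 (by ring)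
    have e : (V ∘ (AffineMap.lineMap x₀ y)) = φ := by
      funext t
      simp only [hφ, Function.comp, AffineMap.lineMap_apply, vsub_eq_sub, vadd_eq_add]
      rw [add_comm]
    rw [← e]
    exact h2
  have hd : HasDerivAt φ 0 0 := by
    have := hasDerivAt_line (g := V) (x := x₀) (e := y - x₀) (t := 0)
      (by simpa using (hasFDerivAt_of hΩ hV hx₀).differentiableAt)
    simpa [hgrad] using this
  have := hc.le_slope_of_hasDerivAt (left_mem_Icc.2 zero_le_one) (right_mem_Icc.2 zero_le_one)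
    zero_lt_one hd
  rw [slope_def_field] at this
  simp only [hφ, sub_zero, div_one, one_smul, zero_smul, add_zero] at this
  rw [show x₀ + (y - x₀) = y by abel] at this
  linarith

lemma fderiv_eq_zero_of_gsq {x₀ : EuclideanSpace ℝ (Fin n)} (h : gsq V x₀ = 0) :
    fderiv ℝ V x₀ = 0 := by
  have h1 : ∀ i, pd V i x₀ = 0 := by
    intro i
    have := (Finset.sum_eq_zero_iff_of_nonneg (fun i _ => sq_nonneg (pd V i x₀))).1 h i
      (Finset.mem_univ i)
    exact pow_eq_zero_iff (two_ne_zero) |>.1 this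
  ext d
  rw [fderiv_eq_sum]
  simp [h1]

/-- Ekeland type step -/
lemma gsq_le_of_min (hΩ : IsOpen Ω) (hV : ContDiffOn ℝ 2 V Ω) {m κ : ℝ}
    (hκ : 0 < κ) {y x₁ : EuclideanSpace ℝ (Fin n)} (hy : y ∈ Ω) (hym : m < V y)
    (hmin : ∀ z ∈ Ω, √(V y - m) + κ * ‖y - x₁‖ ≤ √(V z - m) + κ * ‖z - x₁‖) :
    gsq V y ≤ 4 * κ ^ 2 * (V y - m) := by
  by_cases hg0 : gsq V y = 0
  · rw [hg0]
    have : 0 < V y - m := by linarith
    positivity
  have hg : 0 < gsq V y := lt_of_le_of_ne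
    (Finset.sum_nonneg fun i _ => sq_nonneg _) (Ne.symm hg0)
  set d : EuclideanSpace ℝ (Fin n) := WithLp.toLp 2 (fun i => - pd V i y) with hd
  have hdn : ‖d‖ = √(gsq V y) := by
    rw [EuclideanSpace.norm_eq]
    congr 1
    unfold gsq
    refine Finset.sum_congr rfl fun i _ => ?_
    simp [hd]
  have hdV : fderiv ℝ V y d = - gsq V y := by
    rw [fderiv_eq_sum]
    unfold gsq
    rw [← Finset.sum_neg_distrib]
    refine Finset.sum_congr rfl fun i _ => ?_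
    simp only [hd]
    ring
  set g := √(V y - m) with hgdef
  have hgpos : 0 < g := Real.sqrt_pos.2 (by linarith)
  have hder : HasDerivAt (fun t : ℝ => √(V (y + t • d) - m) + κ * (t * ‖d‖))
      (- gsq V y / (2 * g) + κ * ‖d‖) 0 := by
    have h1 := hasDerivAt_line (g := V) (x := y) (e := d) (t := 0)
      (by simpa using (hasFDerivAt_of hΩ hV hy).differentiableAt)
    simp only [zero_smul, add_zero] at h1
    rw [hdV] at h1
    have h2 : HasDerivAt (fun t : ℝ => V (y + t • d) - m) (- gsq V y) 0 := h1.sub_const m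
    have h3 := h2.sqrt (by simp only [zero_smul, add_zero]; linarith)
    simp only [zero_smul, add_zero] at h3
    have h4 : HasDerivAt (fun t : ℝ => κ * (t * ‖d‖)) (κ * ‖d‖) 0 := by
      simpa using ((hasDerivAt_id (0:ℝ)).mul_const ‖d‖).const_mul κ
    exact h3.add h4
  have hev : ∀ᶠ t in 𝓝[>] (0:ℝ), (fun t : ℝ => √(V (y + t • d) - m) + κ * (t * ‖d‖)) 0
      ≤ (fun t : ℝ => √(V (y + t • d) - m) + κ * (t * ‖d‖)) t := by
    have c0 : ContinuousAt (fun t : ℝ => y + t • d) 0 := by fun_prop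
    have e0 : ∀ᶠ t in 𝓝 (0:ℝ), y + t • d ∈ Ω := c0.eventually (by simpa using hΩ.mem_nhds hy)
    filter_upwards [nhdsWithin_le_nhds e0, self_mem_nhdsWithin] with t ht ht0
    have ht0' : (0:ℝ) < t := ht0
    have h5 := hmin _ ht
    have h6 : ‖y + t • d - x₁‖ ≤ ‖y - x₁‖ + t * ‖d‖ := by
      calc ‖y + t • d - x₁‖ = ‖(y - x₁) + t • d‖ := by congr 1; abel
        _ ≤ ‖y - x₁‖ + ‖t • d‖ := norm_add_le _ _
        _ = ‖y - x₁‖ + t * ‖d‖ := by rw [norm_smul, Real.norm_of_nonneg ht0'.le]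
    simp only [zero_smul, add_zero, zero_mul, mul_zero]
    nlinarith [mul_le_mul_of_nonneg_left h6 hκ.le]
  have := deriv_nonneg_of_right hder hev
  rw [hdn] at this
  have hs : 0 < √(gsq V y) := Real.sqrt_pos.2 hg
  have hsq : √(gsq V y) ^ 2 = gsq V y := Real.sq_sqrt hg.le
  have hgsq : g ^ 2 = V y - m := Real.sq_sqrt (by linarith)
  have h7 : gsq V y / (2 * g) ≤ κ * √(gsq V y) := by
    have : - gsq V y / (2 * g) = - (gsq V y / (2 * g)) := by ring
    linarith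
  rw [div_le_iff₀ (by positivity)] at h7
  have h8 : √(gsq V y) ≤ 2 * κ * g := by
    have : √(gsq V y) * √(gsq V y) ≤ (2 * κ * g) * √(gsq V y) := by nlinarith
    exact le_of_mul_le_mul_right this hs
  calc gsq V y = √(gsq V y) ^ 2 := hsq.symm
    _ ≤ (2 * κ * g) ^ 2 := by gcongr
    _ = 4 * κ ^ 2 * (V y - m) := by rw [mul_pow, mul_pow, hgsq]; ring

/-- quadratic growth from the gradient inequality -/
lemma quad_growth (hΩ : IsOpen Ω) (hV : ContDiffOn ℝ 2 V Ω) {m κ δ : ℝ}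
    (hκ : 0 < κ) (hcpt : ∀ K, IsCompact {x | x ∈ Ω ∧ V x ≤ K})
    (hm : ∀ x ∈ Ω, m ≤ V x)
    (hPL : ∀ x ∈ Ω, m < V x → V x ≤ m + δ → 4 * κ ^ 2 * (V x - m) < gsq V x)
    {x₁ : EuclideanSpace ℝ (Fin n)} (hx₁ : x₁ ∈ Ω) (hx₁δ : V x₁ ≤ m + δ) :
    ∃ y ∈ Ω, V y = m ∧ κ * ‖y - x₁‖ ≤ √(V x₁ - m) := by
  by_contra hcon
  push Not at hcon
  have hcont : ContinuousOn (fun y => √(V y - m) + κ * ‖y - x₁‖) {x | x ∈ Ω ∧ V x ≤ m + δ} := by
    intro y hy
    have c1 : ContinuousAt V y := (hasFDerivAt_of hΩ hV hy.1).continuousAt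
    have c2 : ContinuousAt (fun y => √(V y - m)) y := (c1.sub continuousAt_const).sqrt
    have c3 : ContinuousAt (fun y : EuclideanSpace ℝ (Fin n) => κ * ‖y - x₁‖) y := by fun_prop
    exact (c2.add c3).continuousWithinAt
  obtain ⟨y, hy, hymin⟩ := (hcpt (m + δ)).exists_isMinOn ⟨x₁, hx₁, hx₁δ⟩ hcont
  have hymin' : ∀ z ∈ Ω, V z ≤ m + δ →
      √(V y - m) + κ * ‖y - x₁‖ ≤ √(V z - m) + κ * ‖z - x₁‖ := fun z hz hz2 => hymin ⟨hz, hz2⟩
  have h1 : √(V y - m) + κ * ‖y - x₁‖ ≤ √(V x₁ - m) := by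
    have := hymin' x₁ hx₁ hx₁δ
    simpa using this
  have hym : m < V y := by
    rcases lt_or_eq_of_le (hm y hy.1) with h | h
    · exact h
    · exfalso
      have := hcon y hy.1 h.symm
      have h2 : 0 ≤ √(V y - m) := Real.sqrt_nonneg _
      linarith
  have hall : ∀ z ∈ Ω, √(V y - m) + κ * ‖y - x₁‖ ≤ √(V z - m) + κ * ‖z - x₁‖ := by
    intro z hz
    by_cases hz2 : V z ≤ m + δ
    · exact hymin' z hz hz2
    · push Not at hz2
      have h3 : √(V x₁ - m) ≤ √(V z - m) := Real.sqrt_le_sqrt (by linarith)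
      have h4 : 0 ≤ κ * ‖z - x₁‖ := by positivity
      linarith
  have h5 := gsq_le_of_min hΩ hV hκ hy.1 hym hall
  have h6 := hPL y hy.1 hym hy.2
  linarith

/-- second derivative at a minimum point in a direction of quadratic growth -/
lemma snd_ge_of_growth (hΩ : IsOpen Ω) (hV : ContDiffOn ℝ 2 V Ω) {κ : ℝ}
    {x₀ : EuclideanSpace ℝ (Fin n)} (hx₀ : x₀ ∈ Ω) (hgrad : fderiv ℝ V x₀ = 0)
    (e : EuclideanSpace ℝ (Fin n))
    (hgr : ∀ᶠ t in 𝓝[>] (0:ℝ), V x₀ + κ * t ^ 2 ≤ V (x₀ + t • e)) :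
    2 * κ ≤ fderiv ℝ (fun y => fderiv ℝ V y e) x₀ e := by
  have hev : ∀ᶠ t in 𝓝 (0:ℝ), HasDerivAt (fun t : ℝ => V (x₀ + t • e))
      (fderiv ℝ V (x₀ + t • e) e) t := by
    have c0 : ContinuousAt (fun t : ℝ => x₀ + t • e) 0 := by fun_prop
    have e0 : ∀ᶠ t in 𝓝 (0:ℝ), x₀ + t • e ∈ Ω := c0.eventually (by simpa using hΩ.mem_nhds hx₀)
    filter_upwards [e0] with t ht
    exact hasDerivAt_line (hasFDerivAt_of hΩ hV ht).differentiableAt
  have h2 : HasDerivAt (fun t : ℝ => fderiv ℝ V (x₀ + t • e) e)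
      (fderiv ℝ (fun y => fderiv ℝ V y e) x₀ e) 0 := by
    have := hasDerivAt_line (g := fun y => fderiv ℝ V y e) (x := x₀) (e := e) (t := 0)
      (by simpa using (contDiffAt_fd hΩ hV hx₀ e).differentiableAt (by norm_num))
    simpa using this
  refine snd_ge_of_right hev (by simp [hgrad]) h2 ?_
  simpa using hgr.frequently

lemma snd_nonpos_of_const (hΩ : IsOpen Ω) (hV : ContDiffOn ℝ 2 V Ω)
    {x₀ : EuclideanSpace ℝ (Fin n)} (hx₀ : x₀ ∈ Ω) (hgrad : fderiv ℝ V x₀ = 0)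
    (e : EuclideanSpace ℝ (Fin n))
    (hgr : ∀ᶠ t in 𝓝[>] (0:ℝ), V (x₀ - t • e) ≤ V x₀) :
    fderiv ℝ (fun y => fderiv ℝ V y e) x₀ e ≤ 0 := by
  have hev : ∀ᶠ t in 𝓝 (0:ℝ), HasDerivAt (fun t : ℝ => V (x₀ + t • (-e)))
      (fderiv ℝ V (x₀ + t • (-e)) (-e)) t := by
    have c0 : ContinuousAt (fun t : ℝ => x₀ + t • (-e)) 0 := by fun_prop
    have e0 : ∀ᶠ t in 𝓝 (0:ℝ), x₀ + t • (-e) ∈ Ω :=
      c0.eventually (by simpa using hΩ.mem_nhds hx₀)
    filter_upwards [e0] with t ht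
    exact hasDerivAt_line (hasFDerivAt_of hΩ hV ht).differentiableAt
  have h2 : HasDerivAt (fun t : ℝ => fderiv ℝ V (x₀ + t • (-e)) (-e))
      (fderiv ℝ (fun y => fderiv ℝ V y (-e)) x₀ (-e)) 0 := by
    have := hasDerivAt_line (g := fun y => fderiv ℝ V y (-e)) (x := x₀) (e := -e) (t := 0)
      (by simpa using (contDiffAt_fd hΩ hV hx₀ (-e)).differentiableAt (by norm_num))
    simpa using this
  have h3 := snd_nonpos_of_right hev (by simp [hgrad]) h2 (by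
    refine (hgr.mono fun t ht => ?_).frequently
    simpa [sub_eq_add_neg] using ht)
  rw [fderiv_fd_apply hΩ hV hx₀] at h3 ⊢
  simpa using h3

lemma exists_diam_points {K : Set (EuclideanSpace ℝ (Fin n))} (hK : IsCompact K)
    (hne : K.Nonempty) :
    ∃ y₀ ∈ K, ∃ y₁ ∈ K, ∀ a ∈ K, ∀ b ∈ K, ‖a - b‖ ≤ ‖y₀ - y₁‖ := by
  have hc : ContinuousOn (fun p : EuclideanSpace ℝ (Fin n) × EuclideanSpace ℝ (Fin n) =>
      ‖p.1 - p.2‖) (K ×ˢ K) := by fun_prop
  obtain ⟨p, hp, hpmax⟩ := (hK.prod hK).exists_isMaxOn (hne.prod hne) hc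
  obtain ⟨hp1, hp2⟩ := Set.mem_prod.1 hp
  refine ⟨p.1, hp1, p.2, hp2, fun a ha b hb => ?_⟩
  exact isMaxOn_iff.1 hpmax (a, b) (Set.mem_prod.2 ⟨ha, hb⟩)

/-- The maximum of `V - Ψ(|∇V|²)` cannot be at the minimum point of `V`. -/
theorem pl_contra (hΩ : IsOpen Ω) (hV : ContDiffOn ℝ 2 V Ω) (hcvx : ConvexOn ℝ Ω V)
    (hn : 2 ≤ n) {μ c₀ : ℝ} (hμ : 0 < μ) (hc₀ : μ / 2 < c₀)
    (hlap : ∀ x ∈ Ω, ∑ i, pd (pd V i) i x = μ + gsq V x)
    (hcpt : ∀ K, IsCompact {x | x ∈ Ω ∧ V x ≤ K})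
    {x₀ : EuclideanSpace ℝ (Fin n)} (hx₀ : x₀ ∈ Ω) (hgrad : gsq V x₀ = 0)
    {Ψ : ℝ → ℝ} (hΨ0 : Ψ 0 = 0) (hΨ : HasDerivAt Ψ (1 / (2 * c₀)) 0)
    (hPL : ∀ x ∈ Ω, V x - Ψ (gsq V x) ≤ V x₀) : False := by
  set m := V x₀ with hm
  have hmin : ∀ x ∈ Ω, m ≤ V x :=
    ball_ge_of_convexOn hΩ hV hcvx hx₀ (fderiv_eq_zero_of_gsq hgrad)
  set k4 := (μ + 2 * c₀) / 2 with hk4
  have hk4μ : μ < k4 := by rw [hk4]; linarith
  have hk4c : k4 < 2 * c₀ := by rw [hk4]; linarith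
  have hk4pos : 0 < k4 := lt_trans hμ hk4μ
  set κ := √k4 / 2 with hκdef
  have hκ : 0 < κ := by
    have := Real.sqrt_pos.2 hk4pos
    positivity
  have hκ2 : 4 * κ ^ 2 = k4 := by
    rw [hκdef, div_pow, Real.sq_sqrt hk4pos.le]; ring
  -- the function Ψ near 0
  have hslope : Tendsto (slope Ψ 0) (𝓝[≠] 0) (𝓝 (1 / (2 * c₀))) :=
    hasDerivAt_iff_tendsto_slope.1 hΨ
  have hlt : 1 / (2 * c₀) < 1 / k4 := one_div_lt_one_div_of_lt hk4pos hk4c
  have hev := hslope.eventually (gt_mem_nhds hlt)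
  have hsub : 𝓝[>] (0:ℝ) ≤ 𝓝[≠] 0 := nhdsWithin_mono _ (fun x hx => ne_of_gt hx)
  obtain ⟨Q₁, hQ₁, hQ₁s⟩ := mem_nhdsGT_iff_exists_Ioc_subset.1 (hsub hev)
  have hQ₁' : (0:ℝ) < Q₁ := hQ₁
  have hΨlt : ∀ q, 0 < q → q ≤ Q₁ → Ψ q < q / k4 := by
    intro q hq hq1
    have : slope Ψ 0 q < 1 / k4 := hQ₁s ⟨hq, hq1⟩
    rw [slope_def_field, hΨ0, sub_zero, sub_zero, div_lt_iff₀ hq] at this
    calc Ψ q < 1 / k4 * q := this
      _ = q / k4 := by ring
  set δ := Q₁ / k4 with hδ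
  have hδpos : 0 < δ := by positivity
  have hPL' : ∀ x ∈ Ω, m < V x → V x ≤ m + δ → 4 * κ ^ 2 * (V x - m) < gsq V x := by
    intro x hx hx1 hx2
    rw [hκ2]
    have h0 : 0 ≤ gsq V x := Finset.sum_nonneg fun i _ => sq_nonneg _
    have h1 := hPL x hx
    by_cases hq : gsq V x ≤ Q₁
    · have hq0 : 0 < gsq V x := by
        rcases lt_or_eq_of_le h0 with h | h
        · exact h
        · exfalso
          rw [← h, hΨ0] at h1
          linarith
      have h2 := hΨlt _ hq0 hq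
      have h3 : V x - m < gsq V x / k4 := by linarith
      rw [lt_div_iff₀ hk4pos] at h3
      linarith
    · push Not at hq
      have h3 : V x - m < gsq V x / k4 := by
        calc V x - m ≤ δ := by linarith
          _ < gsq V x / k4 := by rw [hδ]; gcongr
      rw [lt_div_iff₀ hk4pos] at h3
      linarith
  -- points near a minimum point in a given direction
  have hnear : ∀ y ∈ Ω, V y = m → ∀ e : EuclideanSpace ℝ (Fin n),
      ∀ᶠ t in 𝓝[>] (0:ℝ), y + t • e ∈ Ω ∧ V (y + t • e) ≤ m + δ := by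
    intro y hy hym e
    have c0 : ContinuousAt (fun t : ℝ => y + t • e) 0 := by fun_prop
    have e0 : ∀ᶠ t in 𝓝 (0:ℝ), y + t • e ∈ Ω := c0.eventually (by simpa using hΩ.mem_nhds hy)
    have c1 : ContinuousAt (fun t : ℝ => V (y + t • e)) 0 := by
      apply ContinuousAt.comp (g := V) _ c0
      simpa using (hasFDerivAt_of hΩ hV hy).continuousAt
    have e1 : ∀ᶠ t in 𝓝 (0:ℝ), V (y + t • e) < m + δ := by
      apply c1.eventually (gt_mem_nhds _)
      simp only [zero_smul, add_zero]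
      linarith
    filter_upwards [nhdsWithin_le_nhds e0, nhdsWithin_le_nhds e1] with t ht1 ht2
    exact ⟨ht1, ht2.le⟩
  -- the set of minimum points
  obtain ⟨K, hK⟩ : ∃ K : Set (EuclideanSpace ℝ (Fin n)), K = {x | x ∈ Ω ∧ V x ≤ m} := ⟨_, rfl⟩
  have hKc : IsCompact K := by rw [hK]; exact hcpt m
  have hKm : ∀ x, x ∈ K ↔ x ∈ Ω ∧ V x = m := by
    intro x
    rw [hK]
    constructor
    · intro h
      exact ⟨h.1, le_antisymm h.2 (hmin x h.1)⟩
    · intro h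
      exact ⟨h.1, h.2.le⟩
  have hKne : K.Nonempty := ⟨x₀, (hKm x₀).2 ⟨hx₀, rfl⟩⟩
  have hgr0 : ∀ x ∈ K, fderiv ℝ V x = 0 := by
    intro x hx
    have : IsLocalMin V x := by
      have h1 := ((hKm x).1 hx)
      filter_upwards [hΩ.mem_nhds h1.1] with y hy
      rw [h1.2]
      exact hmin y hy
    exact this.fderiv_eq_zero
  obtain ⟨y₀, hy₀, y₁, hy₁, hdiam⟩ := exists_diam_points hKc hKne
  by_cases hD : ‖y₀ - y₁‖ = 0
  · -- a single minimum point
    have huniq : ∀ a ∈ K, a = x₀ := by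
      intro a ha
      have h1 := hdiam a ha x₀ ((hKm x₀).2 ⟨hx₀, rfl⟩)
      rw [hD] at h1
      have h2 : ‖a - x₀‖ = 0 := le_antisymm h1 (norm_nonneg _)
      exact sub_eq_zero.1 (norm_eq_zero.1 h2)
    have hii : ∀ i, 2 * κ ^ 2 ≤ pd (pd V i) i x₀ := by
      intro i
      refine snd_ge_of_growth hΩ hV hx₀ (fderiv_eq_zero_of_gsq hgrad)
        (EuclideanSpace.single i (1:ℝ)) ?_
      filter_upwards [hnear x₀ hx₀ rfl (EuclideanSpace.single i (1:ℝ)), self_mem_nhdsWithin]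
        with t ht ht0
      have ht0' : (0:ℝ) < t := ht0
      obtain ⟨y, hy, hym, hyk⟩ := quad_growth hΩ hV hκ hcpt hmin hPL' ht.1 ht.2
      have hyx := huniq y ((hKm y).2 ⟨hy, hym⟩)
      rw [hyx] at hyk
      have e1 : ‖x₀ - (x₀ + t • EuclideanSpace.single i (1:ℝ))‖ = t := by
        rw [sub_add_cancel_left, norm_neg, norm_smul, Real.norm_of_nonneg ht0'.le]
        simp
      rw [e1] at hyk
      have h3 : (κ * t) ^ 2 ≤ √(V (x₀ + t • EuclideanSpace.single i (1:ℝ)) - m) ^ 2 := by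
        gcongr
      rw [Real.sq_sqrt (by linarith [hmin _ ht.1])] at h3
      rw [mul_pow] at h3
      linarith
    have hs : ∑ _i : Fin n, 2 * κ ^ 2 ≤ ∑ i, pd (pd V i) i x₀ :=
      Finset.sum_le_sum fun i _ => hii i
    rw [hlap x₀ hx₀, hgrad, Finset.sum_const, Finset.card_univ, Fintype.card_fin,
      nsmul_eq_mul] at hs
    have hn' : (2:ℝ) ≤ n := by exact_mod_cast hn
    have hkk : 0 < κ ^ 2 := by positivity
    nlinarith
  · -- at least two minimum points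
    have hDpos : 0 < ‖y₀ - y₁‖ := lt_of_le_of_ne (norm_nonneg _) (Ne.symm hD)
    set D := ‖y₀ - y₁‖ with hDdef
    set e : EuclideanSpace ℝ (Fin n) := (1 / D) • (y₀ - y₁) with he
    have hDe : y₀ - y₁ = D • e := by
      rw [he, smul_smul, mul_one_div_cancel (ne_of_gt hDpos), one_smul]
    have hen : ‖e‖ = 1 := by
      rw [he, norm_smul, ← hDdef, Real.norm_of_nonneg (by positivity)]
      field_simp
    have hy₀' := (hKm y₀).1 hy₀
    have hy₁' := (hKm y₁).1 hy₁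
    have hlow : 2 * κ ^ 2 ≤ fderiv ℝ (fun y => fderiv ℝ V y e) y₀ e := by
      refine snd_ge_of_growth hΩ hV hy₀'.1 (hgr0 y₀ hy₀) e ?_
      filter_upwards [hnear y₀ hy₀'.1 hy₀'.2 e, self_mem_nhdsWithin] with t ht ht0
      have ht0' : (0:ℝ) < t := ht0
      obtain ⟨y, hy, hym, hyk⟩ := quad_growth hΩ hV hκ hcpt hmin hPL' ht.1 ht.2
      have hyK := (hKm y).2 ⟨hy, hym⟩
      have h1 : t ≤ ‖y - (y₀ + t • e)‖ := by
        have h2 : ‖y - y₁‖ ≤ D := hdiam y hyK y₁ hy₁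
        have h3 : ‖(y₀ + t • e) - y₁‖ = D + t := by
          have : (y₀ + t • e) - y₁ = (D + t) • e := by
            rw [add_smul, ← hDe]; abel
          rw [this, norm_smul, hen, mul_one, Real.norm_of_nonneg (by positivity)]
        have h4 : ‖(y₀ + t • e) - y₁‖ ≤ ‖y - (y₀ + t • e)‖ + ‖y - y₁‖ := by
          have : (y₀ + t • e) - y₁ = -(y - (y₀ + t • e)) + (y - y₁) := by abel
          rw [this]
          calc ‖-(y - (y₀ + t • e)) + (y - y₁)‖ ≤ ‖-(y - (y₀ + t • e))‖ + ‖y - y₁‖ :=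
                norm_add_le _ _
            _ = _ := by rw [norm_neg]
        linarith
      have h5 : κ * t ≤ √(V (y₀ + t • e) - m) :=
        le_trans (mul_le_mul_of_nonneg_left h1 hκ.le) hyk
      have h3 : (κ * t) ^ 2 ≤ √(V (y₀ + t • e) - m) ^ 2 := by
        gcongr
      rw [Real.sq_sqrt (by linarith [hmin _ ht.1])] at h3
      rw [mul_pow] at h3
      linarith [hy₀'.2]
    have hup : fderiv ℝ (fun y => fderiv ℝ V y e) y₀ e ≤ 0 := by
      refine snd_nonpos_of_const hΩ hV hy₀'.1 (hgr0 y₀ hy₀) e ?_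
      filter_upwards [Ioo_mem_nhdsGT hDpos] with t ht
      have e1 : y₀ - t • e = (1 - t / D) • y₀ + (t / D) • y₁ := by
        rw [he, smul_smul, smul_sub, sub_smul, one_smul]
        have : t * (1 / D) = t / D := by ring
        rw [this]
        abel
      rw [e1]
      have ht1 : 0 ≤ t / D := by have := ht.1; positivity
      have ht2 : t / D ≤ 1 := by rw [div_le_one hDpos]; exact ht.2.le
      have h1 := hcvx.2 hy₀'.1 hy₁'.1 (by linarith : 0 ≤ 1 - t / D) ht1 (by ring)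
      rw [hy₀'.2, hy₁'.2] at h1
      rw [hy₀'.2]
      calc V ((1 - t / D) • y₀ + (t / D) • y₁) ≤ (1 - t / D) • m + (t / D) • m := h1
        _ = m := by simp only [smul_eq_mul]; ring
    have : 0 < κ ^ 2 := by positivity
    linarith

end Pool.Lind
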