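import Mathlib
import Pool.Agent.Lib_helper51.Lind.Bochner
import Pool.Agent.Lib_helper51.Lind.LinAlg
import Pool.Agent.Lib_helper51.Lind.PL

/-! The function `V - Ψ(|∇V|²)` cannot have a maximum. -/

open Filter Topology Set

namespace Pool.Lind

section Psi

variable {c c' : ℝ → ℝ} {α' ρ : ℝ}

/-- the primitive of `1 / (2 c(√t))` -/
noncomputable def PsiF (c : ℝ → ℝ) (Q : ℝ) : ℝ := ∫ t in (0:ℝ)..Q, 1 / (2 * c (√t))

lemma continuous_c_sqrt (hccont : ContinuousOn c (Ici 0)) : Continuous (fun t : ℝ => c (√t)) := by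
  exact hccont.comp_continuous Real.continuous_sqrt (fun t => Real.sqrt_nonneg t)

lemma continuous_integrand (hccont : ContinuousOn c (Ici 0)) (hcpos : ∀ q, 0 ≤ q → 0 < c q) :
    Continuous (fun t : ℝ => 1 / (2 * c (√t))) := by
  have h := continuous_c_sqrt hccont
  apply Continuous.div continuous_const (h.const_mul 2 |> fun h => by simpa using h)
  intro t
  have := hcpos (√t) (Real.sqrt_nonneg t)
  positivity

lemma hasDerivAt_PsiF (hccont : ContinuousOn c (Ici 0)) (hcpos : ∀ q, 0 ≤ q → 0 < c q) (Q : ℝ) :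
    HasDerivAt (PsiF c) (1 / (2 * c (√Q))) Q :=
  intervalIntegral.integral_hasDerivAt_right
    ((continuous_integrand hccont hcpos).intervalIntegrable _ _)
    ((continuous_integrand hccont hcpos).stronglyMeasurableAtFilter _ _)
    (continuous_integrand hccont hcpos).continuousAt

lemma PsiF_zero : PsiF c 0 = 0 := by simp [PsiF]

lemma PsiF_large (hccont : ContinuousOn c (Ici 0)) (hcpos : ∀ q, 0 ≤ q → 0 < c q)
    (hα' : 0 < α') (hρ : 0 < ρ) (hcρ : ∀ q, ρ ≤ q → c q = α' * q ^ 2) {Q : ℝ} (hQ : ρ ^ 2 ≤ Q) :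
    PsiF c Q = PsiF c (ρ ^ 2) + 1 / (2 * α') * (Real.log Q - Real.log (ρ ^ 2)) := by
  have hi := continuous_integrand hccont hcpos
  have h1 : PsiF c Q = PsiF c (ρ ^ 2) + ∫ t in (ρ ^ 2)..Q, 1 / (2 * c (√t)) := by
    unfold PsiF
    rw [intervalIntegral.integral_add_adjacent_intervals] <;> exact hi.intervalIntegrable _ _
  have h2 : ∫ t in (ρ ^ 2)..Q, 1 / (2 * c (√t)) = ∫ t in (ρ ^ 2)..Q, 1 / (2 * α') * (1 / t) := by
    apply intervalIntegral.integral_congr
    intro t ht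
    rw [uIcc_of_le hQ] at ht
    have ht0 : 0 < t := lt_of_lt_of_le (by positivity) ht.1
    have h3 : ρ ≤ √t := by
      rw [← Real.sqrt_sq hρ.le]
      exact Real.sqrt_le_sqrt ht.1
    simp only
    rw [hcρ _ h3, Real.sq_sqrt ht0.le]
    field_simp
  have hρ2 : 0 < ρ ^ 2 := by positivity
  have hQ0 : Q ≠ 0 := ne_of_gt (lt_of_lt_of_le hρ2 hQ)
  rw [h1, h2, intervalIntegral.integral_const_mul, integral_one_div_of_pos hρ2
    (lt_of_lt_of_le hρ2 hQ), Real.log_div hQ0 (ne_of_gt hρ2)]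

end Psi

variable {n : ℕ} {Ω : Set (EuclideanSpace ℝ (Fin n))} {V : EuclideanSpace ℝ (Fin n) → ℝ}

lemma gsq_nonneg (V : EuclideanSpace ℝ (Fin n) → ℝ) (x : EuclideanSpace ℝ (Fin n)) :
    0 ≤ gsq V x := Finset.sum_nonneg fun _ _ => sq_nonneg _

/-- `V - Ψ(|∇V|²)` attains its maximum. -/
lemma exists_max (hΩ : IsOpen Ω) (hV : ContDiffOn ℝ 2 V Ω) (hne : Ω.Nonempty)
    (hcpt : ∀ K, IsCompact {x | x ∈ Ω ∧ V x ≤ K}) {α : ℝ}
    {κ K₀ : ℝ} (hκ : 0 < κ)
    (hgrow : ∀ x ∈ Ω, K₀ ≤ V x → κ * Real.exp (α * V x) ≤ √(gsq V x))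
    {c : ℝ → ℝ} {ρ α' : ℝ} (hα' : 0 < α') (hαα' : α' < α) (hρ : 0 < ρ)
    (hcpos : ∀ q, 0 ≤ q → 0 < c q) (hccont : ContinuousOn c (Ici 0))
    (hcρ : ∀ q, ρ ≤ q → c q = α' * q ^ 2) :
    ∃ x₀ ∈ Ω, ∀ x ∈ Ω, V x - PsiF c (gsq V x) ≤ V x₀ - PsiF c (gsq V x₀) := by
  obtain ⟨z, hz⟩ := hne
  have hα : 0 < α := lt_trans hα' hαα'
  -- far out the function is small
  obtain ⟨K₁, hK₁⟩ : ∃ K₁, ∀ x ∈ Ω, K₁ ≤ V x →
      V x - PsiF c (gsq V x) ≤ V z - PsiF c (gsq V z) := by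
    -- linear function with negative slope
    have hs : 0 < α / α' - 1 := by
      rw [sub_pos, one_lt_div hα']; exact hαα'
    set C := V z - PsiF c (gsq V z) + PsiF c (ρ ^ 2)
      + 1 / α' * (Real.log κ - Real.log ρ) with hC
    set K₁ := max K₀ (max ((Real.log ρ - Real.log κ) / α) (- C / (α / α' - 1))) with hK₁
    refine ⟨K₁, fun x hx hVx => ?_⟩
    have h0 : K₀ ≤ V x := le_trans (le_max_left _ _) hVx
    have h1 : (Real.log ρ - Real.log κ) / α ≤ V x :=
      le_trans (le_trans (le_max_left _ _) (le_max_right _ _)) hVx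
    have h2 : - C / (α / α' - 1) ≤ V x :=
      le_trans (le_trans (le_max_right _ _) (le_max_right _ _)) hVx
    have hg := hgrow x hx h0
    have hρle : ρ ≤ κ * Real.exp (α * V x) := by
      rw [div_le_iff₀ hα] at h1
      have h3 : Real.log ρ ≤ Real.log (κ * Real.exp (α * V x)) := by
        rw [Real.log_mul (ne_of_gt hκ) (Real.exp_ne_zero _), Real.log_exp]
        linarith
      exact (Real.log_le_log_iff hρ (by positivity)).1 h3
    have hρ2 : ρ ≤ √(gsq V x) := le_trans hρle hg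
    have hQ : ρ ^ 2 ≤ gsq V x := by
      have := pow_le_pow_left₀ hρ.le hρ2 2
      rwa [Real.sq_sqrt (gsq_nonneg V x)] at this
    have hQpos : 0 < gsq V x := lt_of_lt_of_le (by positivity) hQ
    rw [PsiF_large hccont hcpos hα' hρ hcρ hQ]
    have h4 : 2 * (Real.log κ + α * V x) ≤ Real.log (gsq V x) := by
      have h5 : Real.log (κ * Real.exp (α * V x)) ≤ Real.log (√(gsq V x)) :=
        Real.log_le_log (by positivity) hg
      rw [Real.log_mul (ne_of_gt hκ) (Real.exp_ne_zero _), Real.log_exp,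
        Real.log_sqrt hQpos.le] at h5
      linarith
    rw [Real.log_pow]
    have h6 : 1 / (2 * α') * (2 * (Real.log κ + α * V x) - 2 * Real.log ρ)
        ≤ 1 / (2 * α') * (Real.log (gsq V x) - (2:ℕ) * Real.log ρ) := by
      apply mul_le_mul_of_nonneg_left _ (by positivity)
      push_cast
      linarith
    have h7 : 1 / (2 * α') * (2 * (Real.log κ + α * V x) - 2 * Real.log ρ)
        = 1 / α' * (Real.log κ - Real.log ρ) + α / α' * V x := by
      field_simp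
      ring
    rw [div_le_iff₀ hs] at h2
    rw [h7] at h6
    nlinarith
  set K₂ := max K₁ (V z) with hK₂
  have hcont : ContinuousOn (fun x => V x - PsiF c (gsq V x)) {x | x ∈ Ω ∧ V x ≤ K₂} := by
    intro y hy
    have c1 : ContinuousAt V y := (hasFDerivAt_of hΩ hV hy.1).continuousAt
    have c2 : ContinuousAt (fun y => PsiF c (gsq V y)) y :=
      ContinuousAt.comp (g := PsiF c) (hasDerivAt_PsiF hccont hcpos _).continuousAt
        (continuousAt_gsq hΩ hV hy.1)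
    exact (c1.sub c2).continuousWithinAt
  obtain ⟨x₀, hx₀, hmax⟩ := (hcpt K₂).exists_isMaxOn ⟨z, hz, le_max_right _ _⟩ hcont
  refine ⟨x₀, hx₀.1, fun x hx => ?_⟩
  by_cases hVx : V x ≤ K₂
  · exact hmax ⟨hx, hVx⟩
  · push Not at hVx
    have h1 := hK₁ x hx (le_trans (le_max_left _ _) hVx.le)
    have h2 : V z - PsiF c (gsq V z) ≤ V x₀ - PsiF c (gsq V x₀) :=
      hmax ⟨hz, le_max_right _ _⟩
    exact le_trans h1 h2

/-- first order condition -/
lemma first_order (hΩ : IsOpen Ω) (hV : ContDiffOn ℝ 2 V Ω)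
    {c : ℝ → ℝ} (hcpos : ∀ q, 0 ≤ q → 0 < c q) (hccont : ContinuousOn c (Ici 0))
    {x₀ : EuclideanSpace ℝ (Fin n)} (hx₀ : x₀ ∈ Ω)
    (hmax : IsLocalMax (fun x => V x - PsiF c (gsq V x)) x₀) (j : Fin n) :
    ∑ k, pd (pd V j) k x₀ * pd V k x₀ = c (√(gsq V x₀)) * pd V j x₀ := by
  have h1 := hasFDerivAt_of hΩ hV hx₀
  have h2 : HasFDerivAt (fun x => PsiF c (gsq V x))
      ((1 / (2 * c (√(gsq V x₀)))) • (∑ k, (2 * pd V k x₀) • fderiv ℝ (pd V k) x₀)) x₀ :=
    (hasDerivAt_PsiF hccont hcpos _).comp_hasFDerivAt x₀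
      (hasStrictFDerivAt_gsq hΩ hV hx₀).hasFDerivAt
  have h3 := hmax.hasFDerivAt_eq_zero (h1.sub h2)
  have h4 := congrArg (fun L : EuclideanSpace ℝ (Fin n) →L[ℝ] ℝ =>
    L (EuclideanSpace.single j (1:ℝ))) h3
  simp only [sub_apply, smul_apply, smul_eq_mul, zero_apply] at h4
  rw [fderiv_gsq_apply] at h4
  have hcp := hcpos (√(gsq V x₀)) (Real.sqrt_nonneg _)
  have h5 : fderiv ℝ V x₀ (EuclideanSpace.single j (1:ℝ)) = pd V j x₀ := rfl
  rw [h5] at h4
  have h6 : ∑ k, pd (pd V j) k x₀ * pd V k x₀ = ∑ k, pd V k x₀ * pd (pd V k) j x₀ := by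
    refine Finset.sum_congr rfl fun k _ => ?_
    rw [pd_symm hΩ hV hx₀ j k]; ring
  rw [h6]
  field_simp at h4
  linarith

theorem dom_contra (hn : 2 ≤ n) (hΩ : IsOpen Ω) (hV : ContDiffOn ℝ 2 V Ω)
    (hcvx : ConvexOn ℝ Ω V) (hne : Ω.Nonempty) {μ α : ℝ} (hμ : 0 < μ)
    (hlap : ∀ x ∈ Ω, ∑ i, pd (pd V i) i x = μ + gsq V x)
    (hcpt : ∀ K, IsCompact {x | x ∈ Ω ∧ V x ≤ K})
    (hA : ∀ x ∈ Ω, ∀ d : Fin n → ℝ,
      α * (∑ i, d i * pd V i x) ^ 2 ≤ ∑ i, ∑ j, d i * d j * pd (pd V i) j x)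
    {κ K₀ : ℝ} (hκ : 0 < κ)
    (hgrow : ∀ x ∈ Ω, K₀ ≤ V x → κ * Real.exp (α * V x) ≤ √(gsq V x))
    {c c' : ℝ → ℝ} {ρ α' : ℝ} (hα' : 0 < α') (hαα' : α' < α) (hρ : 0 < ρ)
    (hc0 : μ / 2 < c 0)
    (hcpos : ∀ q, 0 ≤ q → 0 < c q) (hccont : ContinuousOn c (Ici 0))
    (hcρ : ∀ q, ρ ≤ q → c q = α' * q ^ 2)
    (hcd : ∀ q ∈ Ioo 0 ρ, HasDerivAt c (c' q) q) (hc'cont : ContinuousOn c' (Ioo 0 ρ))
    (hstrict : ∀ q ∈ Ioo 0 ρ,
      0 < μ - q ^ 2 - (c q ^ 2 + (μ + q ^ 2 - c q) ^ 2) / c q + q * c' q) : False := by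
  have hα : 0 < α := lt_trans hα' hαα'
  obtain ⟨x₀, hx₀, hmax⟩ := exists_max hΩ hV hne hcpt hκ hgrow hα' hαα' hρ hcpos hccont hcρ
  have hloc : IsLocalMax (fun x => V x - PsiF c (gsq V x)) x₀ := by
    filter_upwards [hΩ.mem_nhds hx₀] with x hx using hmax x hx
  have hfo := first_order hΩ hV hcpos hccont hx₀ hloc
  set Q := gsq V x₀ with hQ
  set q := √Q with hq
  have hq0 : 0 ≤ q := Real.sqrt_nonneg _
  have hQ0 : 0 ≤ Q := gsq_nonneg V x₀
  have hq2 : q ^ 2 = Q := Real.sq_sqrt hQ0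
  have hcq := hcpos q hq0
  rcases lt_or_eq_of_le hQ0 with hQpos | hQz
  · have hqpos : 0 < q := Real.sqrt_pos.2 hQpos
    rcases lt_or_ge q ρ with hqρ | hqρ
    · -- 0 < q < ρ
      have hqm : q ∈ Ioo 0 ρ := ⟨hqpos, hqρ⟩
      set Ψ₂ : ℝ → ℝ := fun t => - c' (√t) / (4 * √t * c (√t) ^ 2) with hΨ₂
      have hcs : ContinuousAt (fun t : ℝ => √t) Q := Real.continuous_sqrt.continuousAt
      have hevq : ∀ᶠ t in 𝓝 Q, √t ∈ Ioo 0 ρ := hcs.eventually (isOpen_Ioo.mem_nhds hqm)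
      have hevQ : ∀ᶠ t in 𝓝 Q, 0 < t := lt_mem_nhds hQpos
      have hΨ1 : ∀ᶠ t in 𝓝 Q, HasDerivAt (PsiF c) ((fun t => 1 / (2 * c (√t))) t) t :=
        Eventually.of_forall fun t => hasDerivAt_PsiF hccont hcpos t
      have hΨ2 : ∀ᶠ t in 𝓝 Q, HasDerivAt (fun t => 1 / (2 * c (√t))) (Ψ₂ t) t := by
        filter_upwards [hevq, hevQ] with t ht htp
        have d1 : HasDerivAt (fun t => c (√t)) (c' (√t) * (1 / (2 * √t))) t :=
          (hcd _ ht).comp t (Real.hasDerivAt_sqrt (ne_of_gt htp))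
        have hct := hcpos (√t) (Real.sqrt_nonneg _)
        have d2 := (d1.const_mul 2).fun_inv (by positivity : (2 * c (√t)) ≠ 0)
        have e1 : (fun t => 1 / (2 * c (√t))) = fun t => (2 * c (√t))⁻¹ := by
          funext t; rw [one_div]
        rw [e1]
        have hst : 0 < √t := Real.sqrt_pos.2 htp
        have e2 : Ψ₂ t = - (2 * (c' (√t) * (1 / (2 * √t)))) / (2 * c (√t)) ^ 2 := by
          simp only [hΨ₂]
          field_simp
          ring
        rw [e2]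
        exact d2
      have hΨ3 : ContinuousAt Ψ₂ Q := by
        have k1 : ContinuousAt (fun t => c' (√t)) Q :=
          ContinuousAt.comp (g := c') (hc'cont.continuousAt (isOpen_Ioo.mem_nhds hqm)) hcs
        have k2 : ContinuousAt (fun t => c (√t)) Q := (continuous_c_sqrt hccont).continuousAt
        refine ContinuousAt.div k1.neg ((continuousAt_const.mul hcs).mul (k2.pow 2)) ?_
        positivity
      have hB := bochner_max hΩ hV hlap hx₀ hΨ1 hΨ2 hΨ3 hloc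
      -- the terms
      have e1 : ∀ j, ∑ i, pd V i x₀ * pd (pd V j) i x₀ = c q * pd V j x₀ := by
        intro j
        rw [← hfo j]
        exact Finset.sum_congr rfl fun k _ => by ring
      have e2 : ∑ j, (2 * ∑ i, pd V i x₀ * pd (pd V j) i x₀) ^ 2 = 4 * c q ^ 2 * Q := by
        simp only [e1]
        rw [hQ, gsq, Finset.mul_sum]
        exact Finset.sum_congr rfl fun k _ => by ring
      have e3 : ∀ i, ∑ k, pd V k x₀ * pd (pd V k) i x₀ = c q * pd V i x₀ := by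
        intro i
        rw [← e1 i]
        refine Finset.sum_congr rfl fun k _ => ?_
        rw [pd_symm hΩ hV hx₀ k i]
      have e4 : ∑ i, pd V i x₀ * (2 * ∑ k, pd V k x₀ * pd (pd V k) i x₀) = 2 * c q * Q := by
        simp only [e3]
        rw [hQ, gsq, Finset.mul_sum]
        exact Finset.sum_congr rfl fun k _ => by ring
      have e5 : ∑ i, ∑ j, (pd (pd V j) i x₀) ^ 2 ≤ c q ^ 2 + (μ + q ^ 2 - c q) ^ 2 := by
        refine sum_sq_le_of_eig (A := fun i j => pd (pd V j) i x₀) (ξ := fun i => pd V i x₀)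
          ?_ ?_ hQpos ?_ ?_
        · intro i j
          exact pd_symm hΩ hV hx₀ j i
        · intro d
          have h1 := hA x₀ hx₀ d
          have h2 : 0 ≤ α * (∑ i, d i * pd V i x₀) ^ 2 := by positivity
          have h3 : ∑ i, ∑ j, d i * d j * pd (pd V j) i x₀
              = ∑ i, ∑ j, d i * d j * pd (pd V i) j x₀ := by
            refine Finset.sum_congr rfl fun i _ => Finset.sum_congr rfl fun j _ => ?_
            rw [pd_symm hΩ hV hx₀ j i]
          rw [h3]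
          linarith
        · intro i
          rw [← hfo i]
          refine Finset.sum_congr rfl fun k _ => ?_
          rw [pd_symm hΩ hV hx₀ k i]
        · rw [hlap x₀ hx₀, hq2]
      have hs := hstrict q hqm
      rw [e2, e4] at hB
      have e6 : Ψ₂ Q * (4 * c q ^ 2 * Q) = - (q * c' q) := by
        have : Ψ₂ Q = - c' q / (4 * q * c q ^ 2) := rfl
        rw [this, ← hq2]
        field_simp
      have e7 : (fun t => 1 / (2 * c (√t))) Q = 1 / (2 * c q) := rfl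
      rw [← hQ, e6, ← hq] at hB
      have e8 : 1 / (2 * c q) * (2 * (∑ i, ∑ j, (pd (pd V j) i x₀) ^ 2 + 2 * c q * Q))
          = (∑ i, ∑ j, (pd (pd V j) i x₀) ^ 2) / c q + 2 * Q := by
        field_simp
      rw [e8] at hB
      have e9 : (∑ i, ∑ j, (pd (pd V j) i x₀) ^ 2) / c q
          ≤ (c q ^ 2 + (μ + q ^ 2 - c q) ^ 2) / c q := by
        gcongr
      rw [hq2] at hs e9
      linarith
    · -- q ≥ ρ
      have h1 := hA x₀ hx₀ (fun i => pd V i x₀)
      have e1 : ∑ i, pd V i x₀ * pd V i x₀ = Q := by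
        rw [hQ, gsq]
        exact Finset.sum_congr rfl fun k _ => by ring
      have e2 : ∑ i, ∑ j, pd V i x₀ * pd V j x₀ * pd (pd V i) j x₀ = c q * Q := by
        have : ∀ i, ∑ j, pd V i x₀ * pd V j x₀ * pd (pd V i) j x₀
            = c q * (pd V i x₀ * pd V i x₀) := by
          intro i
          have h2 : ∑ j, pd V i x₀ * pd V j x₀ * pd (pd V i) j x₀
            = pd V i x₀ * ∑ j, pd (pd V i) j x₀ * pd V j x₀ := by
            rw [Finset.mul_sum]
            exact Finset.sum_congr rfl fun k _ => by ring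
          rw [h2, hfo i]
          ring
        simp only [this, ← Finset.mul_sum, e1]
      rw [e1, e2, hcρ q hqρ, hq2] at h1
      have h3 : 0 < Q ^ 2 := by positivity
      nlinarith
  · -- gradient zero
    have hqz : q = 0 := by rw [hq, ← hQz, Real.sqrt_zero]
    have hΨd : HasDerivAt (PsiF c) (1 / (2 * c 0)) 0 := by
      have := hasDerivAt_PsiF hccont hcpos 0
      simpa using this
    refine pl_contra hΩ hV hcvx hn hμ hc0 hlap hcpt hx₀ hQz.symm PsiF_zero hΨd ?_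
    intro x hx
    have h1 := hmax x hx
    rw [← hQz, PsiF_zero] at h1
    linarith

end Pool.Lind
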