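import Mathlib
import Pool.Agent.Lib_helper51.Lind.Dom

/-! From the eigenfunction to `V = -log u`. -/

open Filter Topology Set

namespace Pool.Lind

variable {n : ℕ} {Ω : Set (EuclideanSpace ℝ (Fin n))} {u : EuclideanSpace ℝ (Fin n) → ℝ}

/-- second derivative along a line at a local maximum -/
lemma pd_pd_nonpos_of_max (hΩ : IsOpen Ω) (hu : ContDiffOn ℝ 2 u Ω) {δ : ℝ}
    {x : EuclideanSpace ℝ (Fin n)} (hx : x ∈ Ω)
    (hmax : IsLocalMax (fun y => u y + δ * ‖y‖ ^ 2) x) (i : Fin n) :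
    pd (pd u i) i x + 2 * δ ≤ 0 := by
  have hev : ∀ᶠ t in 𝓝 (0:ℝ), HasDerivAt (fun t : ℝ => u (x + t • EuclideanSpace.single i (1:ℝ))
      + δ * ‖x + t • EuclideanSpace.single i (1 : ℝ) - 0‖ ^ 2)
      (pd u i (x + t • EuclideanSpace.single i (1:ℝ)) + δ * (2 * ((x - 0) i) + 2 * t)) t := by
    have c0 : ContinuousAt (fun t : ℝ => x + t • EuclideanSpace.single i (1:ℝ)) 0 := by fun_prop
    have e0 : ∀ᶠ t in 𝓝 (0:ℝ), x + t • EuclideanSpace.single i (1:ℝ) ∈ Ω :=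
      c0.eventually (by simpa using hΩ.mem_nhds hx)
    filter_upwards [e0] with t ht
    exact (hasDerivAt_line (hasFDerivAt_of hΩ hu ht).differentiableAt).add
      ((hasDerivAt_line_normsq x 0 i t).const_mul δ)
  have h2 : HasDerivAt (fun t : ℝ => pd u i (x + t • EuclideanSpace.single i (1:ℝ))
      + δ * (2 * ((x - 0) i) + 2 * t)) (pd (pd u i) i x + 2 * δ) 0 := by
    have h3 := hasDerivAt_line (g := pd u i) (x := x) (e := EuclideanSpace.single i (1:ℝ)) (t := 0)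
      (by simpa using (hasFDerivAt_pd hΩ hu hx i).differentiableAt)
    simp only [zero_smul, add_zero] at h3
    have b4 : HasDerivAt (fun t : ℝ => δ * (2 * ((x - 0) i) + 2 * t)) (2 * δ) 0 := by
      have := (((hasDerivAt_id (0:ℝ)).const_mul 2).const_add (2 * ((x - 0) i))).const_mul δ
      simp only [id, mul_one] at this
      rw [mul_comm 2 δ]
      exact this
    exact h3.add b4
  refine snd_nonpos_of_isLocalMax hev h2 ?_
  have c0 : ContinuousAt (fun t : ℝ => x + t • EuclideanSpace.single i (1 : ℝ)) 0 := by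
    fun_prop
  have hm : IsLocalMax (fun y => u y + δ * ‖y - 0‖ ^ 2)
      (x + (0:ℝ) • EuclideanSpace.single i (1 : ℝ)) := by simpa using hmax
  exact c0.eventually hm

/-- the eigenvalue is positive -/
lemma eigenvalue_pos (hn : 1 ≤ n) (hΩ : IsOpen Ω) (hb : Bornology.IsBounded Ω)
    (hne : Ω.Nonempty) {μ : ℝ}
    (huc : ContinuousOn u (closure Ω)) (hu : ContDiffOn ℝ 2 u Ω)
    (hpos : ∀ x ∈ Ω, 0 < u x) (hbd : ∀ x ∈ frontier Ω, u x = 0)
    (heq : ∀ x ∈ Ω, (∑ i, pd (pd u i) i x) + μ * u x = 0) : 0 < μ := by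
  obtain ⟨x₀, hx₀⟩ := hne
  have hcb : Bornology.IsBounded (closure Ω) := hb.closure
  obtain ⟨R, hR⟩ := hcb.exists_norm_le
  have hcc : IsCompact (closure Ω) := Metric.isCompact_of_isClosed_isBounded isClosed_closure hcb
  have hu0 := hpos x₀ hx₀
  set δ := u x₀ / (2 * (R ^ 2 + 1)) with hδ
  have hδpos : 0 < δ := by positivity
  have hcont : ContinuousOn (fun y => u y + δ * ‖y‖ ^ 2) (closure Ω) := by
    apply huc.add
    fun_prop
  obtain ⟨x₁, hx₁, hmax⟩ := hcc.exists_isMaxOn ⟨x₀, subset_closure hx₀⟩ hcont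
  have hx₁Ω : x₁ ∈ Ω := by
    by_contra hnot
    have hfr : x₁ ∈ frontier Ω := by
      rw [hΩ.frontier_eq]
      exact ⟨hx₁, hnot⟩
    have h1 : u x₀ + δ * ‖x₀‖ ^ 2 ≤ u x₁ + δ * ‖x₁‖ ^ 2 := hmax (subset_closure hx₀)
    rw [hbd x₁ hfr] at h1
    have h2 : ‖x₁‖ ^ 2 ≤ R ^ 2 := by
      have := hR x₁ hx₁
      gcongr
    have h3 : δ * ‖x₁‖ ^ 2 ≤ δ * R ^ 2 := by gcongr
    have h4 : 0 ≤ δ * ‖x₀‖ ^ 2 := by positivity
    have h5 : δ * (2 * (R ^ 2 + 1)) = u x₀ := by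
      rw [hδ]; field_simp
    nlinarith
  have hloc : IsLocalMax (fun y => u y + δ * ‖y‖ ^ 2) x₁ := by
    filter_upwards [hΩ.mem_nhds hx₁Ω] with y hy using hmax (subset_closure hy)
  have hi : ∀ i, pd (pd u i) i x₁ + 2 * δ ≤ 0 := pd_pd_nonpos_of_max hΩ hu hx₁Ω hloc
  have hs := Finset.sum_nonpos (s := Finset.univ) (fun i _ => hi i)
  rw [Finset.sum_add_distrib, Finset.sum_const, Finset.card_univ, Fintype.card_fin,
    nsmul_eq_mul] at hs
  have h6 := heq x₁ hx₁Ω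
  have hn' : (1:ℝ) ≤ n := by exact_mod_cast hn
  have h7 : 0 < (n:ℝ) * (2 * δ) := by positivity
  have h8 : 0 < μ * u x₁ := by linarith
  exact (pos_iff_pos_of_mul_pos h8).2 (hpos x₁ hx₁Ω)

/-- the potential -/
noncomputable def Vf (u : EuclideanSpace ℝ (Fin n) → ℝ) (x : EuclideanSpace ℝ (Fin n)) : ℝ :=
  - Real.log (u x)

lemma contDiffOn_Vf (hu : ContDiffOn ℝ 2 u Ω) (hpos : ∀ x ∈ Ω, 0 < u x) :
    ContDiffOn ℝ 2 (Vf u) Ω := by
  unfold Vf
  exact (hu.log (fun x hx => ne_of_gt (hpos x hx))).neg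

lemma fderiv_Vf (hΩ : IsOpen Ω) (hu : ContDiffOn ℝ 2 u Ω) (hpos : ∀ x ∈ Ω, 0 < u x)
    {x : EuclideanSpace ℝ (Fin n)} (hx : x ∈ Ω) :
    HasFDerivAt (Vf u) (-((u x)⁻¹ • fderiv ℝ u x)) x := by
  unfold Vf
  exact ((hasFDerivAt_of hΩ hu hx).log (ne_of_gt (hpos x hx))).neg

lemma pd_Vf (hΩ : IsOpen Ω) (hu : ContDiffOn ℝ 2 u Ω) (hpos : ∀ x ∈ Ω, 0 < u x)
    {x : EuclideanSpace ℝ (Fin n)} (hx : x ∈ Ω) (i : Fin n) :
    pd (Vf u) i x = - ((u x)⁻¹ * pd u i x) := by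
  unfold pd
  rw [(fderiv_Vf hΩ hu hpos hx).fderiv]
  rfl

lemma pd_pd_Vf (hΩ : IsOpen Ω) (hu : ContDiffOn ℝ 2 u Ω) (hpos : ∀ x ∈ Ω, 0 < u x)
    {x : EuclideanSpace ℝ (Fin n)} (hx : x ∈ Ω) (i : Fin n) :
    pd (pd (Vf u) i) i x = - ((u x)⁻¹ * pd (pd u i) i x) + (pd (Vf u) i x) ^ 2 := by
  have hev : pd (Vf u) i =ᶠ[𝓝 x] fun y => - ((u y)⁻¹ * pd u i y) := by
    filter_upwards [hΩ.mem_nhds hx] with y hy using pd_Vf hΩ hu hpos hy i
  have hux := hpos x hx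
  have h1 : HasFDerivAt (fun y => (u y)⁻¹) (-((u x) ^ 2)⁻¹ • fderiv ℝ u x) x :=
    (hasDerivAt_inv (ne_of_gt hux)).comp_hasFDerivAt x (hasFDerivAt_of hΩ hu hx)
  have h2 := (h1.mul (hasFDerivAt_pd hΩ hu hx i)).neg
  have h3 : pd (pd (Vf u) i) i x = (-((u x)⁻¹ • fderiv ℝ (pd u i) x
      + pd u i x • (-((u x) ^ 2)⁻¹ • fderiv ℝ u x))) (EuclideanSpace.single i (1:ℝ)) := by
    have h4 := h2.congr_of_eventuallyEq hev
    rw [pd, h4.fderiv]
  rw [h3, pd_Vf hΩ hu hpos hx i]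
  simp only [neg_apply, add_apply, smul_apply, smul_eq_mul]
  have e1 : fderiv ℝ (pd u i) x (EuclideanSpace.single i (1:ℝ)) = pd (pd u i) i x := rfl
  have e2 : fderiv ℝ u x (EuclideanSpace.single i (1:ℝ)) = pd u i x := rfl
  rw [e1, e2]
  field_simp
  ring

lemma lap_Vf (hΩ : IsOpen Ω) (hu : ContDiffOn ℝ 2 u Ω) (hpos : ∀ x ∈ Ω, 0 < u x) {μ : ℝ}
    (heq : ∀ x ∈ Ω, (∑ i, pd (pd u i) i x) + μ * u x = 0) :
    ∀ x ∈ Ω, ∑ i, pd (pd (Vf u) i) i x = μ + gsq (Vf u) x := by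
  intro x hx
  have hux := hpos x hx
  simp only [pd_pd_Vf hΩ hu hpos hx, Finset.sum_add_distrib, Finset.sum_neg_distrib,
    ← Finset.mul_sum]
  have : ∑ i, pd (pd u i) i x = - (μ * u x) := by linarith [heq x hx]
  rw [this, gsq]
  field_simp

lemma compact_sublevel (hΩ : IsOpen Ω) (hb : Bornology.IsBounded Ω)
    (huc : ContinuousOn u (closure Ω))
    (hpos : ∀ x ∈ Ω, 0 < u x) (hbd : ∀ x ∈ frontier Ω, u x = 0) (K : ℝ) :
    IsCompact {x | x ∈ Ω ∧ Vf u x ≤ K} := by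
  have hcb : Bornology.IsBounded (closure Ω) := hb.closure
  have hcc : IsCompact (closure Ω) := Metric.isCompact_of_isClosed_isBounded isClosed_closure hcb
  have hset : {x | x ∈ Ω ∧ Vf u x ≤ K} = closure Ω ∩ u ⁻¹' (Ici (Real.exp (-K))) := by
    ext x
    simp only [mem_setOf_eq, mem_inter_iff, mem_preimage, mem_Ici]
    constructor
    · rintro ⟨hx, hK⟩
      refine ⟨subset_closure hx, ?_⟩
      unfold Vf at hK
      rw [← Real.exp_log (hpos x hx)]
      exact Real.exp_le_exp.2 (by linarith)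
    · rintro ⟨hx, hK⟩
      have hux : 0 < u x := lt_of_lt_of_le (Real.exp_pos _) hK
      have hxΩ : x ∈ Ω := by
        by_contra hnot
        have hfr : x ∈ frontier Ω := by
          rw [hΩ.frontier_eq]
          exact ⟨hx, hnot⟩
        rw [hbd x hfr] at hux
        exact lt_irrefl _ hux
      refine ⟨hxΩ, ?_⟩
      unfold Vf
      have := Real.log_le_log (Real.exp_pos _) hK
      rw [Real.log_exp] at this
      linarith
  rw [hset]
  exact hcc.of_isClosed_subset (huc.preimage_isClosed_of_isClosed isClosed_closure isClosed_Ici)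
    inter_subset_left

lemma rpow_eq_exp_Vf (hpos : ∀ x ∈ Ω, 0 < u x) {α : ℝ} {x : EuclideanSpace ℝ (Fin n)}
    (hx : x ∈ Ω) : u x ^ α = Real.exp (- α * Vf u x) := by
  rw [Real.rpow_def_of_pos (hpos x hx)]
  unfold Vf
  congr 1
  ring

lemma convexOn_Vf (hpos : ∀ x ∈ Ω, 0 < u x) {α : ℝ} (hα : 0 < α)
    (hcon : ConcaveOn ℝ Ω (fun x => u x ^ α)) : ConvexOn ℝ Ω (Vf u) := by
  refine ⟨hcon.1, ?_⟩
  intro x hx y hy a b ha hb hab
  have hz : a • x + b • y ∈ Ω := hcon.1 hx hy ha hb hab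
  have h1 := hcon.2 hx hy ha hb hab
  simp only [smul_eq_mul] at h1
  have px : 0 < u x ^ α := Real.rpow_pos_of_pos (hpos x hx) α
  have py : 0 < u y ^ α := Real.rpow_pos_of_pos (hpos y hy) α
  have h2 := strictConcaveOn_log_Ioi.concaveOn.2 (mem_Ioi.2 px) (mem_Ioi.2 py) ha hb hab
  simp only [smul_eq_mul] at h2
  have hp : 0 < a * u x ^ α + b * u y ^ α := by
    rcases eq_or_lt_of_le ha with h | h
    · have : b = 1 := by linarith
      rw [← h, this]; linarith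
    · have : 0 ≤ b * u y ^ α := by positivity
      have : 0 < a * u x ^ α := by positivity
      linarith
  have h3 := Real.log_le_log hp h1
  rw [Real.log_rpow (hpos _ hz)] at h3
  rw [Real.log_rpow (hpos _ hx), Real.log_rpow (hpos _ hy)] at h2
  unfold Vf
  simp only [smul_eq_mul]
  have h4 : α * (a * Real.log (u x) + b * Real.log (u y)) ≤ α * Real.log (u (a • x + b • y)) := by
    linarith
  have h5 := le_of_mul_le_mul_left h4 hα
  linarith

lemma hasFDerivAt_rpow (hΩ : IsOpen Ω) (hu : ContDiffOn ℝ 2 u Ω) (hpos : ∀ x ∈ Ω, 0 < u x)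
    {α : ℝ} {x : EuclideanSpace ℝ (Fin n)} (hx : x ∈ Ω) :
    HasFDerivAt (fun y => u y ^ α) ((- α * u x ^ α) • fderiv ℝ (Vf u) x) x := by
  have h1 := hasFDerivAt_of hΩ (contDiffOn_Vf hu hpos) hx
  have h2 : HasFDerivAt (fun y => Real.exp (- α * Vf u y))
      (Real.exp (- α * Vf u x) • ((- α) • fderiv ℝ (Vf u) x)) x := (h1.const_mul (-α)).exp
  have hev : (fun y => u y ^ α) =ᶠ[𝓝 x] fun y => Real.exp (- α * Vf u y) := by
    filter_upwards [hΩ.mem_nhds hx] with y hy using rpow_eq_exp_Vf hpos hy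
  have h3 := h2.congr_of_eventuallyEq hev
  rw [← rpow_eq_exp_Vf hpos hx, smul_smul] at h3
  rw [mul_comm (- α) (u x ^ α)]
  exact h3

lemma hess_ge (hΩ : IsOpen Ω) (hu : ContDiffOn ℝ 2 u Ω) (hpos : ∀ x ∈ Ω, 0 < u x)
    {α : ℝ} (hα : 0 < α) (hcon : ConcaveOn ℝ Ω (fun x => u x ^ α))
    {x : EuclideanSpace ℝ (Fin n)} (hx : x ∈ Ω) (e : EuclideanSpace ℝ (Fin n)) :
    α * (fderiv ℝ (Vf u) x e) ^ 2 ≤ fderiv ℝ (fun y => fderiv ℝ (Vf u) y e) x e := by
  have hV := contDiffOn_Vf hu hpos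
  have c0 : ContinuousAt (fun t : ℝ => x + t • e) 0 := by fun_prop
  have e0 : ∀ᶠ t in 𝓝 (0:ℝ), x + t • e ∈ Ω := c0.eventually (by simpa using hΩ.mem_nhds hx)
  obtain ⟨δ, hδ, hδs⟩ := Metric.eventually_nhds_iff.1 e0
  have hmem : ∀ t ∈ Ioo (-δ) δ, x + t • e ∈ Ω := by
    intro t ht
    apply hδs
    rw [Real.dist_eq, sub_zero, abs_lt]
    exact ht
  set φ : ℝ → ℝ := fun t => u (x + t • e) ^ α with hφ
  set g : ℝ → ℝ := fun t => fderiv ℝ (Vf u) (x + t • e) e with hg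
  have hφc : ConcaveOn ℝ (Ioo (-δ) δ) φ := by
    refine ⟨convex_Ioo _ _, ?_⟩
    intro s hs t ht a b ha hb hab
    have h1 := hcon.2 (hmem s hs) (hmem t ht) ha hb hab
    have h2 : a • (x + s • e) + b • (x + t • e) = x + (a • s + b • t) • e := by
      simp only [smul_add, smul_eq_mul, add_smul, mul_smul]
      have : a • x + b • x = x := by rw [← add_smul, hab, one_smul]
      calc a • x + a • s • e + (b • x + b • t • e)
          = (a • x + b • x) + (a • s • e + b • t • e) := by abel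
        _ = _ := by rw [this]
    simp only [hφ]
    rw [← h2]
    exact h1
  have hder : ∀ t ∈ Ioo (-δ) δ, HasDerivAt φ (- α * φ t * g t) t := by
    intro t ht
    have h1 := hasFDerivAt_rpow (α := α) hΩ hu hpos (hmem t ht)
    have h2 : HasDerivAt (fun s : ℝ => x + s • e) e t := by
      simpa using ((hasDerivAt_id t).smul_const e).const_add x
    have h3 := h1.comp_hasDerivAt t h2
    simp only [smul_apply, smul_eq_mul] at h3
    exact h3
  have hmem0 : (0:ℝ) ∈ Ioo (-δ) δ := ⟨by linarith, hδ⟩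
  have hev : ∀ᶠ t in 𝓝 (0:ℝ), HasDerivAt φ ((fun t => - α * φ t * g t) t) t := by
    filter_upwards [isOpen_Ioo.mem_nhds hmem0] with t ht using hder t ht
  have hg1 : HasDerivAt g (fderiv ℝ (fun y => fderiv ℝ (Vf u) y e) x e) 0 := by
    have := hasDerivAt_line (g := fun y => fderiv ℝ (Vf u) y e) (x := x) (e := e) (t := 0)
      (by simpa using (contDiffAt_fd hΩ hV hx e).differentiableAt (by norm_num))
    simpa using this
  have h2 : HasDerivAt (fun t => - α * φ t * g t)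
      (- α * (- α * φ 0 * g 0) * g 0
        + - α * φ 0 * fderiv ℝ (fun y => fderiv ℝ (Vf u) y e) x e) 0 :=
    ((hder 0 hmem0).const_mul (- α)).mul hg1
  have h3 := snd_nonpos_of_concaveOn hδ hφc hev h2
  have e1 : φ 0 = u x ^ α := by simp [hφ]
  have e2 : g 0 = fderiv ℝ (Vf u) x e := by simp [hg]
  rw [e1, e2] at h3
  have hp : 0 < u x ^ α := Real.rpow_pos_of_pos (hpos x hx) α
  have h4 : α * u x ^ α * (α * (fderiv ℝ (Vf u) x e) ^ 2
      - fderiv ℝ (fun y => fderiv ℝ (Vf u) y e) x e) ≤ 0 := by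
    nlinarith
  have h5 : 0 < α * u x ^ α := by positivity
  by_contra hcon2
  push Not at hcon2
  have : 0 < α * u x ^ α * (α * (fderiv ℝ (Vf u) x e) ^ 2
      - fderiv ℝ (fun y => fderiv ℝ (Vf u) y e) x e) := by
    apply mul_pos h5; linarith
  linarith

lemma hess_ge' (hΩ : IsOpen Ω) (hu : ContDiffOn ℝ 2 u Ω) (hpos : ∀ x ∈ Ω, 0 < u x)
    {α : ℝ} (hα : 0 < α) (hcon : ConcaveOn ℝ Ω (fun x => u x ^ α)) :
    ∀ x ∈ Ω, ∀ d : Fin n → ℝ,
      α * (∑ i, d i * pd (Vf u) i x) ^ 2 ≤ ∑ i, ∑ j, d i * d j * pd (pd (Vf u) i) j x := by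
  intro x hx d
  have h := hess_ge hΩ hu hpos hα hcon hx (WithLp.toLp 2 d)
  have hV := contDiffOn_Vf hu hpos
  rw [fderiv_fd_apply hΩ hV hx, fderiv2_eq_sum hΩ hV hx, fderiv_eq_sum] at h
  exact h

lemma abs_fderiv_le (V : EuclideanSpace ℝ (Fin n) → ℝ) (x w : EuclideanSpace ℝ (Fin n)) :
    |fderiv ℝ V x w| ≤ √(gsq V x) * ‖w‖ := by
  rw [fderiv_eq_sum, EuclideanSpace.norm_eq, ← Real.sqrt_mul (gsq_nonneg V x)]
  apply Real.abs_le_sqrt
  have h1 := Finset.sum_mul_sq_le_sq_mul_sq Finset.univ (fun i => w i) (fun i => pd V i x)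
  rw [gsq, mul_comm (∑ i, pd V i x ^ 2)]
  simpa using h1

lemma tangent_ineq (hΩ : IsOpen Ω) (hu : ContDiffOn ℝ 2 u Ω) (hpos : ∀ x ∈ Ω, 0 < u x)
    {α : ℝ} (hcon : ConcaveOn ℝ Ω (fun x => u x ^ α))
    {x y : EuclideanSpace ℝ (Fin n)} (hx : x ∈ Ω) (hy : y ∈ Ω) :
    u y ^ α - u x ^ α ≤ (- α * u x ^ α) * fderiv ℝ (Vf u) x (y - x) := by
  set φ : ℝ → ℝ := fun t => u (x + t • (y - x)) ^ α with hφ
  have hmem : ∀ t ∈ Icc (0:ℝ) 1, x + t • (y - x) ∈ Ω := by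
    intro t ht
    have := hcon.1 hx hy (by linarith [ht.2] : 0 ≤ 1 - t) ht.1 (by ring)
    have e : x + t • (y - x) = (1 - t) • x + t • y := by
      rw [smul_sub, sub_smul, one_smul]; abel
    rw [e]; exact this
  have hφc : ConcaveOn ℝ (Icc (0:ℝ) 1) φ := by
    refine ⟨convex_Icc _ _, ?_⟩
    intro s hs t ht a b ha hb hab
    have h1 := hcon.2 (hmem s hs) (hmem t ht) ha hb hab
    have h2 : a • (x + s • (y - x)) + b • (x + t • (y - x)) = x + (a • s + b • t) • (y - x) := by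
      simp only [smul_add, smul_eq_mul, add_smul, mul_smul]
      have : a • x + b • x = x := by rw [← add_smul, hab, one_smul]
      calc a • x + a • s • (y - x) + (b • x + b • t • (y - x))
          = (a • x + b • x) + (a • s • (y - x) + b • t • (y - x)) := by abel
        _ = _ := by rw [this]
    simp only [hφ]
    rw [← h2]
    exact h1
  have hd : HasDerivAt φ ((- α * u x ^ α) * fderiv ℝ (Vf u) x (y - x)) 0 := by
    have h1 := hasFDerivAt_rpow (α := α) hΩ hu hpos hx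
    have h2 : HasDerivAt (fun s : ℝ => x + s • (y - x)) (y - x) 0 := by
      simpa using ((hasDerivAt_id (0:ℝ)).smul_const (y - x)).const_add x
    have h1' : HasFDerivAt (fun y => u y ^ α) ((- α * u x ^ α) • fderiv ℝ (Vf u) x)
        (x + (0:ℝ) • (y - x)) := by simpa using h1
    have h3 := h1'.comp_hasDerivAt (0:ℝ) h2
    simp only [smul_apply, smul_eq_mul] at h3
    exact h3
  have h4 := hφc.slope_le_of_hasDerivAt (left_mem_Icc.2 zero_le_one)
    (right_mem_Icc.2 zero_le_one) zero_lt_one hd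
  rw [slope_def_field] at h4
  simp only [hφ, sub_zero, div_one, one_smul, zero_smul, add_zero] at h4
  rw [show x + (y - x) = y by abel] at h4
  exact h4

lemma growth (hΩ : IsOpen Ω) (hb : Bornology.IsBounded Ω) (hne : Ω.Nonempty)
    (hu : ContDiffOn ℝ 2 u Ω) (hpos : ∀ x ∈ Ω, 0 < u x)
    {α : ℝ} (hα : 0 < α) (hcon : ConcaveOn ℝ Ω (fun x => u x ^ α)) :
    ∃ κ K₀ : ℝ, 0 < κ ∧ ∀ x ∈ Ω, K₀ ≤ Vf u x →
      κ * Real.exp (α * Vf u x) ≤ √(gsq (Vf u) x) := by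
  obtain ⟨y, hy⟩ := hne
  obtain ⟨R, hR⟩ := hb.exists_norm_le
  have hRn : 0 ≤ R := le_trans (norm_nonneg y) (hR y hy)
  set D := 2 * R + 1 with hD
  have hDpos : 0 < D := by positivity
  have hfy : 0 < u y ^ α := Real.rpow_pos_of_pos (hpos y hy) α
  refine ⟨u y ^ α / (2 * α * D), - Real.log (u y ^ α / 2) / α, by positivity, ?_⟩
  intro x hx hK
  have hfx : 0 < u x ^ α := Real.rpow_pos_of_pos (hpos x hx) α
  have hfx2 : u x ^ α ≤ u y ^ α / 2 := by
    rw [rpow_eq_exp_Vf hpos hx]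
    rw [div_le_iff₀ hα] at hK
    have h1 : - α * Vf u x ≤ Real.log (u y ^ α / 2) := by linarith
    calc Real.exp (- α * Vf u x) ≤ Real.exp (Real.log (u y ^ α / 2)) := Real.exp_le_exp.2 h1
      _ = u y ^ α / 2 := Real.exp_log (by positivity)
  have ht := tangent_ineq hΩ hu hpos hcon hx hy
  have habs := abs_fderiv_le (Vf u) x (y - x)
  have hnorm : ‖y - x‖ ≤ D := by
    calc ‖y - x‖ ≤ ‖y‖ + ‖x‖ := norm_sub_le _ _
      _ ≤ R + R := add_le_add (hR y hy) (hR x hx)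
      _ ≤ D := by rw [hD]; linarith
  have h1 : (- α * u x ^ α) * fderiv ℝ (Vf u) x (y - x) ≤ α * u x ^ α * (√(gsq (Vf u) x) * D) := by
    have h2 : - fderiv ℝ (Vf u) x (y - x) ≤ √(gsq (Vf u) x) * D := by
      calc - fderiv ℝ (Vf u) x (y - x) ≤ |fderiv ℝ (Vf u) x (y - x)| := neg_le_abs _
        _ ≤ √(gsq (Vf u) x) * ‖y - x‖ := habs
        _ ≤ √(gsq (Vf u) x) * D := by gcongr
    have h3 : 0 < α * u x ^ α := by positivity
    have h4 := mul_le_mul_of_nonneg_left h2 h3.le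
    linarith
  have h5 : u y ^ α / 2 ≤ α * u x ^ α * (√(gsq (Vf u) x) * D) := by linarith
  have h6 : Real.exp (α * Vf u x) * u x ^ α = 1 := by
    rw [rpow_eq_exp_Vf hpos hx, ← Real.exp_add]
    simp
  have hE : 0 < Real.exp (α * Vf u x) := Real.exp_pos _
  rw [div_mul_eq_mul_div, div_le_iff₀ (by positivity)]
  have h7 : Real.exp (α * Vf u x) * (u y ^ α / 2)
      ≤ Real.exp (α * Vf u x) * (α * u x ^ α * (√(gsq (Vf u) x) * D)) :=
    mul_le_mul_of_nonneg_left h5 hE.le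
  have h8 : Real.exp (α * Vf u x) * (α * u x ^ α * (√(gsq (Vf u) x) * D))
      = (Real.exp (α * Vf u x) * u x ^ α) * (α * (√(gsq (Vf u) x) * D)) := by ring
  rw [h8, h6] at h7
  linarith

end Pool.Lind
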