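import Mathlib
import Pool.Agent.Lib_helper51.Lind.Polar
import Pool.Agent.Lib_helper51.Lind.Reduce

/-! The circle means of a solution on the unit disc. -/

open Filter Topology Set MeasureTheory

namespace Pool.Lind

variable {v : EuclideanSpace ℝ (Fin 2) → ℝ} {ν : ℝ}

/-- hypotheses on the disc -/
structure DiscData (v : EuclideanSpace ℝ (Fin 2) → ℝ) (ν : ℝ) : Prop where
  cont : ContinuousOn v (closure (Metric.ball (0 : EuclideanSpace ℝ (Fin 2)) 1))
  c2 : ContDiffOn ℝ 2 v (Metric.ball (0 : EuclideanSpace ℝ (Fin 2)) 1)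
  pos : ∀ x ∈ Metric.ball (0 : EuclideanSpace ℝ (Fin 2)) 1, 0 < v x
  bd : ∀ x ∈ frontier (Metric.ball (0 : EuclideanSpace ℝ (Fin 2)) 1), v x = 0
  eq : ∀ x ∈ Metric.ball (0 : EuclideanSpace ℝ (Fin 2)) 1, (∑ i, pd (pd v i) i x) + ν * v x = 0

noncomputable def FF (v : EuclideanSpace ℝ (Fin 2) → ℝ) (r θ : ℝ) : ℝ := v (r • er θ)
noncomputable def G1 (v : EuclideanSpace ℝ (Fin 2) → ℝ) (r θ : ℝ) : ℝ :=
  fderiv ℝ v (r • er θ) (er θ)
noncomputable def T1 (v : EuclideanSpace ℝ (Fin 2) → ℝ) (r θ : ℝ) : ℝ :=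
  fderiv ℝ v (r • er θ) (et θ)
noncomputable def G2 (v : EuclideanSpace ℝ (Fin 2) → ℝ) (r θ : ℝ) : ℝ :=
  fderiv ℝ (fderiv ℝ v) (r • er θ) (er θ) (er θ)
noncomputable def T2 (v : EuclideanSpace ℝ (Fin 2) → ℝ) (r θ : ℝ) : ℝ :=
  fderiv ℝ (fderiv ℝ v) (r • er θ) (et θ) (et θ)

lemma mem_ball_polar {r : ℝ} (hr : r ∈ Ioo (-1:ℝ) 1) (θ : ℝ) :
    r • er θ ∈ Metric.ball (0 : EuclideanSpace ℝ (Fin 2)) 1 := by
  rw [mem_ball_zero_iff, norm_smul, norm_er, mul_one, Real.norm_eq_abs, abs_lt]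
  exact hr

section

variable (D : DiscData v ν)
include D

lemma hasDerivAt_FF_r {r : ℝ} (hr : r ∈ Ioo (-1:ℝ) 1) (θ : ℝ) :
    HasDerivAt (fun s => FF v s θ) (G1 v r θ) r := by
  have h1 : HasDerivAt (fun s : ℝ => s • er θ) (er θ) r := by
    simpa using (hasDerivAt_id r).smul_const (er θ)
  exact (hasFDerivAt_of Metric.isOpen_ball D.c2 (mem_ball_polar hr θ)).comp_hasDerivAt r h1

lemma hasFDerivAt_fderiv {x : EuclideanSpace ℝ (Fin 2)}
    (hx : x ∈ Metric.ball (0 : EuclideanSpace ℝ (Fin 2)) 1) :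
    HasFDerivAt (fderiv ℝ v) (fderiv ℝ (fderiv ℝ v) x) x :=
  (((contDiffAt_of Metric.isOpen_ball D.c2 hx).fderiv_right (m := 1)
    (by norm_num)).differentiableAt (by norm_num)).hasFDerivAt

lemma hasDerivAt_G1_r {r : ℝ} (hr : r ∈ Ioo (-1:ℝ) 1) (θ : ℝ) :
    HasDerivAt (fun s => G1 v s θ) (G2 v r θ) r := by
  have h1 : HasDerivAt (fun s : ℝ => s • er θ) (er θ) r := by
    simpa using (hasDerivAt_id r).smul_const (er θ)
  have h2 := (hasFDerivAt_fderiv D (mem_ball_polar hr θ)).comp_hasDerivAt r h1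
  have h3 := h2.clm_apply (hasDerivAt_const r (er θ))
  simp only [map_zero, add_zero] at h3
  exact h3

lemma hasDerivAt_FF_θ {r : ℝ} (hr : r ∈ Ioo (-1:ℝ) 1) (θ : ℝ) :
    HasDerivAt (fun s => FF v r s) (r * T1 v r θ) θ := by
  have h1 : HasDerivAt (fun s : ℝ => r • er s) (r • et θ) θ := (hasDerivAt_er θ).const_smul r
  have h2 := (hasFDerivAt_of Metric.isOpen_ball D.c2 (mem_ball_polar hr θ)).comp_hasDerivAt θ h1
  rw [map_smul, smul_eq_mul] at h2
  exact h2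

lemma hasDerivAt_T1_θ {r : ℝ} (hr : r ∈ Ioo (-1:ℝ) 1) (θ : ℝ) :
    HasDerivAt (fun s => T1 v r s) (r * T2 v r θ - G1 v r θ) θ := by
  have h1 : HasDerivAt (fun s : ℝ => r • er s) (r • et θ) θ := (hasDerivAt_er θ).const_smul r
  have h2 := (hasFDerivAt_fderiv D (mem_ball_polar hr θ)).comp_hasDerivAt θ h1
  have h3 := h2.clm_apply (hasDerivAt_et θ)
  simp only [map_neg, map_smul, smul_apply, smul_eq_mul] at h3
  exact h3

lemma polar_lap {r : ℝ} (hr : r ∈ Ioo (-1:ℝ) 1) (θ : ℝ) :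
    G2 v r θ + T2 v r θ = - ν * FF v r θ := by
  have hx := mem_ball_polar hr θ
  have h := D.eq _ hx
  unfold G2 T2 FF
  rw [fderiv2_eq_sum Metric.isOpen_ball D.c2 hx, fderiv2_eq_sum Metric.isOpen_ball D.c2 hx]
  simp only [Fin.sum_univ_two] at h ⊢
  have hs : pd (pd v 1) 0 (r • er θ) = pd (pd v 0) 1 (r • er θ) :=
    pd_symm Metric.isOpen_ball D.c2 hx 1 0
  have e0 : (er θ) 0 = Real.cos θ := by simp [er]
  have e1 : (er θ) 1 = Real.sin θ := by simp [er]
  have f0 : (et θ) 0 = - Real.sin θ := by simp [et]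
  have f1 : (et θ) 1 = Real.cos θ := by simp [et]
  rw [e0, e1, f0, f1, hs]
  have hcs := Real.sin_sq_add_cos_sq θ
  have : Real.cos θ * Real.cos θ * pd (pd v 0) 0 (r • er θ)
      + Real.cos θ * Real.sin θ * pd (pd v 0) 1 (r • er θ)
      + (Real.sin θ * Real.cos θ * pd (pd v 0) 1 (r • er θ)
      + Real.sin θ * Real.sin θ * pd (pd v 1) 1 (r • er θ))
      + (-Real.sin θ * -Real.sin θ * pd (pd v 0) 0 (r • er θ)
      + -Real.sin θ * Real.cos θ * pd (pd v 0) 1 (r • er θ)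
      + (Real.cos θ * -Real.sin θ * pd (pd v 0) 1 (r • er θ)
      + Real.cos θ * Real.cos θ * pd (pd v 1) 1 (r • er θ)))
      = (Real.sin θ ^ 2 + Real.cos θ ^ 2) * (pd (pd v 0) 0 (r • er θ)
        + pd (pd v 1) 1 (r • er θ)) := by ring
  rw [this, hcs]
  linarith

omit D in
lemma cont_polar : Continuous (fun p : ℝ × ℝ => p.1 • er p.2) :=
  continuous_fst.smul (continuous_er.comp continuous_snd)

lemma contOn_FF : ContinuousOn (fun p : ℝ × ℝ => FF v p.1 p.2) (Ioo (-1:ℝ) 1 ×ˢ univ) := by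
  unfold FF
  exact D.c2.continuousOn.comp cont_polar.continuousOn
    (fun p hp => mem_ball_polar hp.1 p.2)

lemma contOn_fderiv : ContinuousOn (fun p : ℝ × ℝ => fderiv ℝ v (p.1 • er p.2))
    (Ioo (-1:ℝ) 1 ×ˢ univ) := by
  intro p hp
  have h1 : ContinuousAt (fderiv ℝ v) (p.1 • er p.2) :=
    (hasFDerivAt_fderiv D (mem_ball_polar hp.1 p.2)).continuousAt
  exact (ContinuousAt.comp (g := fderiv ℝ v) (f := fun p : ℝ × ℝ => p.1 • er p.2) h1
    cont_polar.continuousAt).continuousWithinAt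

lemma contOn_fderiv2 : ContinuousOn (fun p : ℝ × ℝ => fderiv ℝ (fderiv ℝ v) (p.1 • er p.2))
    (Ioo (-1:ℝ) 1 ×ˢ univ) := by
  intro p hp
  have h0 := contDiffAt_of Metric.isOpen_ball D.c2 (mem_ball_polar hp.1 p.2)
  have h1 : ContinuousAt (fderiv ℝ (fderiv ℝ v)) (p.1 • er p.2) :=
    ((h0.fderiv_right (m := 1) (by norm_num)).fderiv_right (m := 0) (by norm_num)).continuousAt
  exact (ContinuousAt.comp (g := fderiv ℝ (fderiv ℝ v)) (f := fun p : ℝ × ℝ => p.1 • er p.2) h1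
    cont_polar.continuousAt).continuousWithinAt

lemma contOn_G1 : ContinuousOn (fun p : ℝ × ℝ => G1 v p.1 p.2) (Ioo (-1:ℝ) 1 ×ˢ univ) :=
  (contOn_fderiv D).clm_apply (continuous_er.comp continuous_snd).continuousOn

lemma contOn_T1 : ContinuousOn (fun p : ℝ × ℝ => T1 v p.1 p.2) (Ioo (-1:ℝ) 1 ×ˢ univ) :=
  (contOn_fderiv D).clm_apply (continuous_et.comp continuous_snd).continuousOn

lemma contOn_G2 : ContinuousOn (fun p : ℝ × ℝ => G2 v p.1 p.2) (Ioo (-1:ℝ) 1 ×ˢ univ) :=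
  ((contOn_fderiv2 D).clm_apply (continuous_er.comp continuous_snd).continuousOn).clm_apply
    (continuous_er.comp continuous_snd).continuousOn

lemma contOn_T2 : ContinuousOn (fun p : ℝ × ℝ => T2 v p.1 p.2) (Ioo (-1:ℝ) 1 ×ˢ univ) :=
  ((contOn_fderiv2 D).clm_apply (continuous_et.comp continuous_snd).continuousOn).clm_apply
    (continuous_et.comp continuous_snd).continuousOn

omit D in
lemma cont_section {f : ℝ → ℝ → ℝ}
    (hf : ContinuousOn (fun p : ℝ × ℝ => f p.1 p.2) (Ioo (-1:ℝ) 1 ×ˢ univ)) {r : ℝ}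
    (hr : r ∈ Ioo (-1:ℝ) 1) : Continuous (fun θ => f r θ) := by
  have : Continuous ((fun p : ℝ × ℝ => f p.1 p.2) ∘ (fun θ : ℝ => (r, θ))) :=
    hf.comp_continuous (by fun_prop) (fun θ => ⟨hr, mem_univ _⟩)
  exact this

end

/-- circle integral of the solution and its derivatives -/
noncomputable def JJ (v : EuclideanSpace ℝ (Fin 2) → ℝ) (r : ℝ) : ℝ :=
  ∫ θ in (0:ℝ)..(2 * Real.pi), FF v r θ
noncomputable def J1 (v : EuclideanSpace ℝ (Fin 2) → ℝ) (r : ℝ) : ℝ :=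
  ∫ θ in (0:ℝ)..(2 * Real.pi), G1 v r θ
noncomputable def J2 (v : EuclideanSpace ℝ (Fin 2) → ℝ) (r : ℝ) : ℝ :=
  ∫ θ in (0:ℝ)..(2 * Real.pi), G2 v r θ

section

variable (D : DiscData v ν)
include D

lemma hasDerivAt_JJ {r : ℝ} (hr : r ∈ Ioo (-1:ℝ) 1) : HasDerivAt (JJ v) (J1 v r) r :=
  hasDerivAt_param (contOn_FF D) (contOn_G1 D) (fun _ hs θ => hasDerivAt_FF_r D hs θ) hr

lemma hasDerivAt_J1 {r : ℝ} (hr : r ∈ Ioo (-1:ℝ) 1) : HasDerivAt (J1 v) (J2 v r) r :=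
  hasDerivAt_param (contOn_G1 D) (contOn_G2 D) (fun _ hs θ => hasDerivAt_G1_r D hs θ) hr

lemma continuousAt_J2 {r : ℝ} (hr : r ∈ Ioo (-1:ℝ) 1) : ContinuousAt (J2 v) r :=
  continuousAt_param (contOn_G2 D) hr

lemma ode_JJ {r : ℝ} (hr : r ∈ Ioo (-1:ℝ) 1) : r * J2 v r + J1 v r + ν * r * JJ v r = 0 := by
  have hG1 := cont_section (contOn_G1 D) hr
  have hG2 := cont_section (contOn_G2 D) hr
  have hT2 := cont_section (contOn_T2 D) hr
  have hF := cont_section (contOn_FF D) hr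
  have h0 : ∫ θ in (0:ℝ)..(2 * Real.pi), (r * T2 v r θ - G1 v r θ) = 0 := by
    rw [intervalIntegral.integral_eq_sub_of_hasDerivAt
      (fun θ _ => hasDerivAt_T1_θ D hr θ)
      (((continuous_const.mul hT2).sub hG1).intervalIntegrable _ _)]
    unfold T1
    rw [er_two_pi, et_two_pi, sub_self]
  have h1 : ∀ θ, r * T2 v r θ - G1 v r θ = -(r * G2 v r θ) - G1 v r θ - ν * r * FF v r θ := by
    intro θ
    have := polar_lap D hr θ
    have h2 : T2 v r θ = - ν * FF v r θ - G2 v r θ := by linarith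
    rw [h2]; ring
  simp only [h1] at h0
  have i1 : IntervalIntegrable (fun θ => r * G2 v r θ) volume 0 (2 * Real.pi) :=
    (continuous_const.mul hG2).intervalIntegrable _ _
  have i1' : IntervalIntegrable (fun θ => -(r * G2 v r θ)) volume 0 (2 * Real.pi) :=
    (continuous_const.mul hG2).neg.intervalIntegrable _ _
  have i12 : IntervalIntegrable (fun θ => -(r * G2 v r θ) - G1 v r θ) volume 0 (2 * Real.pi) :=
    ((continuous_const.mul hG2).neg.sub hG1).intervalIntegrable _ _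
  have i2 : IntervalIntegrable (fun θ => G1 v r θ) volume 0 (2 * Real.pi) :=
    hG1.intervalIntegrable _ _
  have i3 : IntervalIntegrable (fun θ => ν * r * FF v r θ) volume 0 (2 * Real.pi) :=
    (continuous_const.mul hF).intervalIntegrable _ _
  rw [intervalIntegral.integral_sub i12 i3,
    intervalIntegral.integral_sub i1' i2, intervalIntegral.integral_neg,
    intervalIntegral.integral_const_mul, intervalIntegral.integral_const_mul] at h0
  unfold J2 J1 JJ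
  linarith

lemma FF_pos {r : ℝ} (hr : r ∈ Ioo (-1:ℝ) 1) (θ : ℝ) : 0 < FF v r θ :=
  D.pos _ (mem_ball_polar hr θ)

lemma JJ_pos {r : ℝ} (hr : r ∈ Ioo (-1:ℝ) 1) : 0 < JJ v r := by
  have hF := cont_section (contOn_FF D) hr
  exact intervalIntegral.intervalIntegral_pos_of_pos (hF.intervalIntegrable _ _)
    (fun θ => FF_pos D hr θ) (by positivity)

lemma J1_zero : J1 v 0 = 0 := by
  have := ode_JJ D (r := 0) (by constructor <;> norm_num)
  simpa using this

lemma nu_pos : 0 < ν :=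
  eigenvalue_pos (n := 2) (by norm_num) Metric.isOpen_ball Metric.isBounded_ball
    ⟨0, Metric.mem_ball_self one_pos⟩ D.cont D.c2 D.pos D.bd D.eq

end

end Pool.Lind
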