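import Mathlib
import Pool.Agent.Lib_helper51.Lind.Disc1

/-! A positive solution on the disc is radial. -/

open Filter Topology Set MeasureTheory

namespace Pool.Lind

variable {v : EuclideanSpace ℝ (Fin 2) → ℝ} {ν : ℝ}

/-- Wronskian in the radial variable -/
noncomputable def PP (v : EuclideanSpace ℝ (Fin 2) → ℝ) (r θ : ℝ) : ℝ :=
  G1 v r θ * JJ v r - FF v r θ * J1 v r

/-- radial derivative of the Wronskian -/
noncomputable def PQ (v : EuclideanSpace ℝ (Fin 2) → ℝ) (r θ : ℝ) : ℝ :=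
  G2 v r θ * JJ v r - FF v r θ * J2 v r

/-- the bounded functional -/
noncomputable def NN (v : EuclideanSpace ℝ (Fin 2) → ℝ) (r : ℝ) : ℝ :=
  ∫ θ in (0:ℝ)..(2 * Real.pi), JJ v r / (JJ v r + FF v r θ)

/-- the flux -/
noncomputable def SS (v : EuclideanSpace ℝ (Fin 2) → ℝ) (r : ℝ) : ℝ :=
  ∫ θ in (0:ℝ)..(2 * Real.pi), -(r * PP v r θ) * (JJ v r) ^ 2 / (JJ v r + FF v r θ) ^ 2

/-- the derivative of the flux -/
noncomputable def S1 (v : EuclideanSpace ℝ (Fin 2) → ℝ) (r : ℝ) : ℝ :=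
  ∫ θ in (0:ℝ)..(2 * Real.pi), (2 * r * (JJ v r) ^ 3 * (T1 v r θ) ^ 2
    + 2 * r * JJ v r * (PP v r θ) ^ 2) / (JJ v r + FF v r θ) ^ 3

section

variable (D : DiscData v ν)
include D

omit D in
lemma contOn_fst {g : ℝ → ℝ} (hg : ∀ r ∈ Ioo (-1:ℝ) 1, ContinuousAt g r) :
    ContinuousOn (fun p : ℝ × ℝ => g p.1) (Ioo (-1:ℝ) 1 ×ˢ (univ : Set ℝ)) := by
  intro p hp
  exact (ContinuousAt.comp (g := g) (f := Prod.fst) (hg p.1 hp.1)
    continuousAt_fst).continuousWithinAt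

lemma contOn_JJ : ContinuousOn (fun p : ℝ × ℝ => JJ v p.1) (Ioo (-1:ℝ) 1 ×ˢ (univ : Set ℝ)) :=
  contOn_fst fun _ hr => (hasDerivAt_JJ D hr).continuousAt

lemma contOn_J1 : ContinuousOn (fun p : ℝ × ℝ => J1 v p.1) (Ioo (-1:ℝ) 1 ×ˢ (univ : Set ℝ)) :=
  contOn_fst fun _ hr => (hasDerivAt_J1 D hr).continuousAt

lemma contOn_J2 : ContinuousOn (fun p : ℝ × ℝ => J2 v p.1) (Ioo (-1:ℝ) 1 ×ˢ (univ : Set ℝ)) :=
  contOn_fst fun _ hr => continuousAt_J2 D hr

lemma contOn_PP : ContinuousOn (fun p : ℝ × ℝ => PP v p.1 p.2) (Ioo (-1:ℝ) 1 ×ˢ univ) :=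
  ((contOn_G1 D).mul (contOn_JJ D)).sub ((contOn_FF D).mul (contOn_J1 D))

lemma sum_pos' {r : ℝ} (hr : r ∈ Ioo (-1:ℝ) 1) (θ : ℝ) : 0 < JJ v r + FF v r θ :=
  add_pos (JJ_pos D hr) (FF_pos D hr θ)

lemma hasDerivAt_NN {r : ℝ} (hr : r ∈ Ioo (-1:ℝ) 1) :
    HasDerivAt (NN v) (∫ θ in (0:ℝ)..(2 * Real.pi), - PP v r θ / (JJ v r + FF v r θ) ^ 2) r := by
  apply hasDerivAt_param (a := -1) (b := 1) (f := fun r θ => JJ v r / (JJ v r + FF v r θ))
    (f' := fun r θ => - PP v r θ / (JJ v r + FF v r θ) ^ 2)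
  · exact (contOn_JJ D).div ((contOn_JJ D).add (contOn_FF D))
      (fun p hp => ne_of_gt (sum_pos' D hp.1 p.2))
  · exact (contOn_PP D).neg.div (((contOn_JJ D).add (contOn_FF D)).pow 2)
      (fun p hp => ne_of_gt (pow_pos (sum_pos' D hp.1 p.2) 2))
  · intro s hs θ
    have h1 := hasDerivAt_JJ D hs
    have h2 := hasDerivAt_FF_r D hs θ
    have hp := sum_pos' D hs θ
    have h3 := h1.div (h1.add h2) (ne_of_gt hp)
    have e : - PP v s θ / (JJ v s + FF v s θ) ^ 2
      = (J1 v s * (JJ v s + FF v s θ) - JJ v s * (J1 v s + G1 v s θ))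
        / (JJ v s + FF v s θ) ^ 2 := by
      unfold PP
      congr 1
      ring
    rw [e]
    exact h3
  · exact hr

lemma hasDerivAt_PP_r {r : ℝ} (hr : r ∈ Ioo (-1:ℝ) 1) (θ : ℝ) :
    HasDerivAt (fun s => PP v s θ) (PQ v r θ) r := by
  have h1 := (hasDerivAt_G1_r D hr θ).mul (hasDerivAt_JJ D hr)
  have h2 := (hasDerivAt_FF_r D hr θ).mul (hasDerivAt_J1 D hr)
  have h3 := h1.sub h2
  have e : PQ v r θ = G2 v r θ * JJ v r + G1 v r θ * J1 v r
    - (G1 v r θ * J1 v r + FF v r θ * J2 v r) := by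
    unfold PQ; ring
  rw [e]
  exact h3

lemma PP_add_rPQ {r : ℝ} (hr : r ∈ Ioo (-1:ℝ) 1) (θ : ℝ) :
    PP v r θ + r * PQ v r θ = JJ v r * (G1 v r θ - r * T2 v r θ) := by
  have h1 := polar_lap D hr θ
  have h2 := ode_JJ D hr
  unfold PP PQ
  have h3 : T2 v r θ = - ν * FF v r θ - G2 v r θ := by linarith
  have h4 : r * J2 v r = - J1 v r - ν * r * JJ v r := by linarith
  rw [h3]
  calc G1 v r θ * JJ v r - FF v r θ * J1 v r + r * (G2 v r θ * JJ v r - FF v r θ * J2 v r)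
      = G1 v r θ * JJ v r - FF v r θ * J1 v r + r * G2 v r θ * JJ v r
        - FF v r θ * (r * J2 v r) := by ring
    _ = _ := by rw [h4]; ring

/-- integration by parts in the angle -/
lemma angle_parts {r : ℝ} (hr : r ∈ Ioo (-1:ℝ) 1) :
    ∫ θ in (0:ℝ)..(2 * Real.pi), ((r * T2 v r θ - G1 v r θ) / (JJ v r + FF v r θ) ^ 2
      - 2 * r * (T1 v r θ) ^ 2 / (JJ v r + FF v r θ) ^ 3) = 0 := by
  have hG1 := cont_section (contOn_G1 D) hr
  have hT2 := cont_section (contOn_T2 D) hr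
  have hT1 := cont_section (contOn_T1 D) hr
  have hF := cont_section (contOn_FF D) hr
  have hne : ∀ θ, JJ v r + FF v r θ ≠ 0 := fun θ => ne_of_gt (sum_pos' D hr θ)
  have hsum : Continuous (fun θ => JJ v r + FF v r θ) := continuous_const.add hF
  rw [intervalIntegral.integral_eq_sub_of_hasDerivAt
    (f := fun θ => T1 v r θ / (JJ v r + FF v r θ) ^ 2)]
  · unfold T1 FF
    rw [er_two_pi, et_two_pi, sub_self]
  · intro θ _
    have h1 := hasDerivAt_T1_θ D hr θ
    have h2 : HasDerivAt (fun θ => (JJ v r + FF v r θ) ^ 2)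
        (2 * (JJ v r + FF v r θ) * (r * T1 v r θ)) θ := by
      have := ((hasDerivAt_FF_θ D hr θ).const_add (JJ v r)).fun_pow 2
      simpa using this
    have h3 := h1.div h2 (pow_ne_zero 2 (hne θ))
    have e : (r * T2 v r θ - G1 v r θ) / (JJ v r + FF v r θ) ^ 2
      - 2 * r * (T1 v r θ) ^ 2 / (JJ v r + FF v r θ) ^ 3
      = ((r * T2 v r θ - G1 v r θ) * (JJ v r + FF v r θ) ^ 2
        - T1 v r θ * (2 * (JJ v r + FF v r θ) * (r * T1 v r θ)))
        / ((JJ v r + FF v r θ) ^ 2) ^ 2 := by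
      have := hne θ
      field_simp
    rw [e]
    exact h3
  · apply Continuous.intervalIntegrable
    refine Continuous.sub ?_ ?_
    · exact ((continuous_const.mul hT2).sub hG1).div (hsum.pow 2) (fun θ => pow_ne_zero 2 (hne θ))
    · exact (continuous_const.mul (hT1.pow 2)).div (hsum.pow 3) (fun θ => pow_ne_zero 3 (hne θ))

lemma hasDerivAt_SS {r : ℝ} (hr : r ∈ Ioo (-1:ℝ) 1) : HasDerivAt (SS v) (S1 v r) r := by
  have hder : HasDerivAt (SS v) (∫ θ in (0:ℝ)..(2 * Real.pi),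
      ((r * T2 v r θ - G1 v r θ) * (JJ v r) ^ 3 / (JJ v r + FF v r θ) ^ 2
        + 2 * r * JJ v r * (PP v r θ) ^ 2 / (JJ v r + FF v r θ) ^ 3)) r := by
    apply hasDerivAt_param (a := -1) (b := 1)
      (f := fun r θ => -(r * PP v r θ) * (JJ v r) ^ 2 / (JJ v r + FF v r θ) ^ 2)
      (f' := fun r θ => (r * T2 v r θ - G1 v r θ) * (JJ v r) ^ 3 / (JJ v r + FF v r θ) ^ 2
        + 2 * r * JJ v r * (PP v r θ) ^ 2 / (JJ v r + FF v r θ) ^ 3)
    · refine ContinuousOn.div ?_ (((contOn_JJ D).add (contOn_FF D)).pow 2)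
        (fun p hp => ne_of_gt (pow_pos (sum_pos' D hp.1 p.2) 2))
      exact ((continuousOn_fst.mul (contOn_PP D)).neg).mul ((contOn_JJ D).pow 2)
    · refine ContinuousOn.add ?_ ?_
      · refine ContinuousOn.div ?_ (((contOn_JJ D).add (contOn_FF D)).pow 2)
          (fun p hp => ne_of_gt (pow_pos (sum_pos' D hp.1 p.2) 2))
        exact ((continuousOn_fst.mul (contOn_T2 D)).sub (contOn_G1 D)).mul ((contOn_JJ D).pow 3)
      · refine ContinuousOn.div ?_ (((contOn_JJ D).add (contOn_FF D)).pow 3)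
          (fun p hp => ne_of_gt (pow_pos (sum_pos' D hp.1 p.2) 3))
        exact ((continuousOn_const.mul continuousOn_fst).mul (contOn_JJ D)).mul
          ((contOn_PP D).pow 2)
    · intro s hs θ
      have hp := sum_pos' D hs θ
      have h1 : HasDerivAt (fun s => -(s * PP v s θ)) (-(1 * PP v s θ + s * PQ v s θ)) s :=
        ((hasDerivAt_id s).mul (hasDerivAt_PP_r D hs θ)).neg
      have h2 : HasDerivAt (fun s => (JJ v s) ^ 2) (2 * JJ v s * J1 v s) s := by
        simpa using (hasDerivAt_JJ D hs).fun_pow 2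
      have h3 : HasDerivAt (fun s => (JJ v s + FF v s θ) ^ 2)
          (2 * (JJ v s + FF v s θ) * (J1 v s + G1 v s θ)) s := by
        simpa using ((hasDerivAt_JJ D hs).add (hasDerivAt_FF_r D hs θ)).fun_pow 2
      have h4 := (h1.mul h2).div h3 (ne_of_gt (pow_pos hp 2))
      have hPQ := PP_add_rPQ D hs θ
      have e : (s * T2 v s θ - G1 v s θ) * (JJ v s) ^ 3 / (JJ v s + FF v s θ) ^ 2
          + 2 * s * JJ v s * (PP v s θ) ^ 2 / (JJ v s + FF v s θ) ^ 3
          = ((-(1 * PP v s θ + s * PQ v s θ) * (JJ v s) ^ 2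
            + -(s * PP v s θ) * (2 * JJ v s * J1 v s)) * (JJ v s + FF v s θ) ^ 2
            - -(s * PP v s θ) * (JJ v s) ^ 2
              * (2 * (JJ v s + FF v s θ) * (J1 v s + G1 v s θ)))
            / ((JJ v s + FF v s θ) ^ 2) ^ 2 := by
        rw [one_mul, hPQ]
        have hne := ne_of_gt hp
        have hP : PP v s θ = G1 v s θ * JJ v s - FF v s θ * J1 v s := rfl
        have key : 2 * s * JJ v s * (PP v s θ) ^ 2 * (JJ v s + FF v s θ)
            = -(s * PP v s θ) * (2 * JJ v s * J1 v s) * (JJ v s + FF v s θ) ^ 2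
            - -(s * PP v s θ) * (JJ v s) ^ 2
              * (2 * (JJ v s + FF v s θ) * (J1 v s + G1 v s θ)) := by
          conv_lhs => rw [pow_two, hP]
          rw [hP]
          ring
        rw [div_add_div _ _ (pow_ne_zero 2 hne) (pow_ne_zero 3 hne), div_eq_div_iff
          (mul_ne_zero (pow_ne_zero 2 hne) (pow_ne_zero 3 hne))
          (pow_ne_zero 2 (pow_ne_zero 2 hne))]
        set X := JJ v s + FF v s θ with hX
        set A := -(s * PP v s θ) * (2 * JJ v s * J1 v s) * X ^ 2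
            - -(s * PP v s θ) * (JJ v s) ^ 2 * (2 * X * (J1 v s + G1 v s θ)) with hA
        have e2 : (-(JJ v s * (G1 v s θ - s * T2 v s θ)) * (JJ v s) ^ 2
            + -(s * PP v s θ) * (2 * JJ v s * J1 v s)) * X ^ 2
            - -(s * PP v s θ) * (JJ v s) ^ 2 * (2 * X * (J1 v s + G1 v s θ))
            = (s * T2 v s θ - G1 v s θ) * (JJ v s) ^ 3 * X ^ 2 + A := by
          rw [hA]; ring
        rw [e2, ← key]
        ring
      rw [e]
      exact h4
    · exact hr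
  have heq : ∫ θ in (0:ℝ)..(2 * Real.pi),
      ((r * T2 v r θ - G1 v r θ) * (JJ v r) ^ 3 / (JJ v r + FF v r θ) ^ 2
        + 2 * r * JJ v r * (PP v r θ) ^ 2 / (JJ v r + FF v r θ) ^ 3) = S1 v r := by
    have hG1 := cont_section (contOn_G1 D) hr
    have hT2 := cont_section (contOn_T2 D) hr
    have hT1 := cont_section (contOn_T1 D) hr
    have hF := cont_section (contOn_FF D) hr
    have hP := cont_section (contOn_PP D) hr
    have hne : ∀ θ, JJ v r + FF v r θ ≠ 0 := fun θ => ne_of_gt (sum_pos' D hr θ)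
    have hsum : Continuous (fun θ => JJ v r + FF v r θ) := continuous_const.add hF
    have hz := angle_parts D hr
    have hz2 : ∫ θ in (0:ℝ)..(2 * Real.pi), (JJ v r) ^ 3 *
        ((r * T2 v r θ - G1 v r θ) / (JJ v r + FF v r θ) ^ 2
      - 2 * r * (T1 v r θ) ^ 2 / (JJ v r + FF v r θ) ^ 3) = 0 := by
      rw [intervalIntegral.integral_const_mul, hz, mul_zero]
    have e : ∀ θ, (r * T2 v r θ - G1 v r θ) * (JJ v r) ^ 3 / (JJ v r + FF v r θ) ^ 2
        + 2 * r * JJ v r * (PP v r θ) ^ 2 / (JJ v r + FF v r θ) ^ 3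
        = (JJ v r) ^ 3 * ((r * T2 v r θ - G1 v r θ) / (JJ v r + FF v r θ) ^ 2
          - 2 * r * (T1 v r θ) ^ 2 / (JJ v r + FF v r θ) ^ 3)
        + (2 * r * (JJ v r) ^ 3 * (T1 v r θ) ^ 2
          + 2 * r * JJ v r * (PP v r θ) ^ 2) / (JJ v r + FF v r θ) ^ 3 := by
      intro θ
      ring
    simp only [e]
    rw [intervalIntegral.integral_add, hz2, zero_add]
    · rfl
    · apply Continuous.intervalIntegrable
      refine continuous_const.mul (Continuous.sub ?_ ?_)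
      · exact ((continuous_const.mul hT2).sub hG1).div (hsum.pow 2)
          (fun θ => pow_ne_zero 2 (hne θ))
      · exact (continuous_const.mul (hT1.pow 2)).div (hsum.pow 3)
          (fun θ => pow_ne_zero 3 (hne θ))
    · apply Continuous.intervalIntegrable
      exact ((continuous_const.mul (hT1.pow 2)).add (continuous_const.mul (hP.pow 2))).div
        (hsum.pow 3) (fun θ => pow_ne_zero 3 (hne θ))
  rw [← heq]
  exact hder

end

end Pool.Lind
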