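import Mathlib
import Pool.Agent.Lib_helper51.Lind.Disc2

/-! A positive solution on the disc is radial, conclusion. -/

open Filter Topology Set MeasureTheory

namespace Pool.Lind

variable {v : EuclideanSpace ℝ (Fin 2) → ℝ} {ν : ℝ}

lemma er_mem_frontier (θ : ℝ) :
    er θ ∈ frontier (Metric.ball (0 : EuclideanSpace ℝ (Fin 2)) 1) := by
  rw [frontier_ball (0 : EuclideanSpace ℝ (Fin 2)) one_ne_zero, mem_sphere_zero_iff_norm]
  exact norm_er θ

lemma Ico_sub : ∀ r : ℝ, r ∈ Ico (0:ℝ) 1 → r ∈ Ioo (-1:ℝ) 1 :=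
  fun _ hr => ⟨by linarith [hr.1], hr.2⟩

section

variable (D : DiscData v ν)
include D

lemma JJ_one : JJ v 1 = 0 := by
  unfold JJ FF
  have : ∀ θ, v ((1:ℝ) • er θ) = 0 := by
    intro θ
    rw [one_smul]
    exact D.bd _ (er_mem_frontier θ)
  simp only [this]
  simp

lemma exists_bound : ∃ M : ℝ, 0 < M ∧ ∀ r ∈ Icc (0:ℝ) 1, ∀ θ, ‖FF v r θ‖ ≤ M := by
  have hcl : closure (Metric.ball (0 : EuclideanSpace ℝ (Fin 2)) 1) = Metric.closedBall 0 1 :=
    closure_ball _ one_ne_zero
  have hc : IsCompact (closure (Metric.ball (0 : EuclideanSpace ℝ (Fin 2)) 1)) := by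
    rw [hcl]; exact isCompact_closedBall _ _
  obtain ⟨M, hM⟩ := hc.exists_bound_of_continuousOn D.cont
  refine ⟨max M 1, by positivity, fun r hr θ => le_trans (hM _ ?_) (le_max_left _ _)⟩
  rw [hcl, mem_closedBall_zero_iff, norm_smul, norm_er, mul_one, Real.norm_of_nonneg hr.1]
  exact hr.2

lemma contOn_JJ_Icc : ContinuousOn (JJ v) (Icc 0 1) := by
  obtain ⟨M, hM, hbd⟩ := exists_bound D
  have hcl : closure (Metric.ball (0 : EuclideanSpace ℝ (Fin 2)) 1) = Metric.closedBall 0 1 :=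
    closure_ball _ one_ne_zero
  have hmem : ∀ s ∈ Icc (0:ℝ) 1, ∀ θ, s • er θ ∈
      closure (Metric.ball (0 : EuclideanSpace ℝ (Fin 2)) 1) := by
    intro s hs θ
    rw [hcl, mem_closedBall_zero_iff, norm_smul, norm_er, mul_one, Real.norm_of_nonneg hs.1]
    exact hs.2
  intro r hr
  unfold JJ
  refine intervalIntegral.continuousWithinAt_of_dominated_interval (bound := fun _ => M)
    ?_ ?_ ?_ ?_
  · filter_upwards [self_mem_nhdsWithin] with s hs
    have : Continuous (fun θ => FF v s θ) := by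
      unfold FF
      exact D.cont.comp_continuous (f := fun θ => s • er θ) (continuous_er.const_smul s)
        (fun θ => hmem s hs θ)
    exact this.aestronglyMeasurable
  · filter_upwards [self_mem_nhdsWithin] with s hs
    exact Eventually.of_forall fun θ _ => hbd s hs θ
  · exact intervalIntegrable_const
  · refine Eventually.of_forall fun θ _ => ?_
    unfold FF
    have hc : Continuous (fun s : ℝ => s • er θ) := by fun_prop
    exact ContinuousWithinAt.comp (g := v) (f := fun s : ℝ => s • er θ)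
      (t := closure (Metric.ball (0 : EuclideanSpace ℝ (Fin 2)) 1))
      (D.cont _ (hmem r hr θ)) hc.continuousWithinAt (fun s hs => hmem s hs θ)

lemma exists_lin_bound : ∃ C : ℝ, 0 < C ∧ ∀ r ∈ Ico (0:ℝ) 1, JJ v r ≤ C * (1 - r) := by
  obtain ⟨M, hM, hbd⟩ := exists_bound D
  have hν := nu_pos D
  set M' := 2 * Real.pi * M with hM'
  have hM'pos : 0 < M' := by positivity
  have hJM : ∀ r ∈ Ico (0:ℝ) 1, JJ v r ≤ M' := by
    intro r hr
    have h1 : ‖JJ v r‖ ≤ M * |2 * Real.pi - 0| :=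
      intervalIntegral.norm_integral_le_of_norm_le_const
        (fun θ _ => hbd r ⟨hr.1, hr.2.le⟩ θ)
    rw [sub_zero, abs_of_pos (by positivity)] at h1
    have h2 := le_trans (le_abs_self _) (by simpa using h1)
    rw [hM']; linarith
  set C := ν * M' / 2 with hC
  have hCpos : 0 < C := by positivity
  -- lower bound of the derivative
  have hmono : MonotoneOn (fun r => r * J1 v r + ν * M' / 2 * r ^ 2) (Ico 0 1) := by
    have hd : ∀ r ∈ Ico (0:ℝ) 1, HasDerivAt (fun r => r * J1 v r + ν * M' / 2 * r ^ 2)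
        ((1 * J1 v r + r * J2 v r) + ν * M' / 2 * (2 * r)) r := by
      intro r hr
      have h1 := (hasDerivAt_id r).mul (hasDerivAt_J1 D (Ico_sub r hr))
      have h2 : HasDerivAt (fun r : ℝ => ν * M' / 2 * r ^ 2) (ν * M' / 2 * (2 * r)) r := by
        simpa using (hasDerivAt_pow 2 r).const_mul (ν * M' / 2)
      exact h1.add h2
    apply monotoneOn_of_deriv_nonneg (convex_Ico 0 1)
    · intro r hr
      exact (hd r hr).continuousAt.continuousWithinAt
    · intro r hr
      rw [interior_Ico] at hr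
      exact (hd r ⟨hr.1.le, hr.2⟩).differentiableAt.differentiableWithinAt
    · intro r hr
      rw [interior_Ico] at hr
      rw [(hd r ⟨hr.1.le, hr.2⟩).deriv]
      have h3 := ode_JJ D (Ico_sub r ⟨hr.1.le, hr.2⟩)
      have h4 := hJM r ⟨hr.1.le, hr.2⟩
      have h5 : ν * r * JJ v r ≤ ν * r * M' := by
        have : 0 ≤ ν * r := by have := hr.1; positivity
        exact mul_le_mul_of_nonneg_left h4 this
      nlinarith
  have hJ1 : ∀ r ∈ Ioo (0:ℝ) 1, - C ≤ J1 v r := by
    intro r hr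
    have h1 := hmono (left_mem_Ico.2 one_pos) ⟨hr.1.le, hr.2⟩ hr.1.le
    simp only [zero_mul, ne_eq, OfNat.ofNat_ne_zero, not_false_eq_true, zero_pow, mul_zero,
      add_zero] at h1
    have h2 : 0 ≤ r * (J1 v r + ν * M' / 2 * r) := by
      have : r * (J1 v r + ν * M' / 2 * r) = r * J1 v r + ν * M' / 2 * r ^ 2 := by ring
      rw [this]; exact h1
    have h3 : 0 ≤ J1 v r + ν * M' / 2 * r := nonneg_of_mul_nonneg_right h2 hr.1
    have h4 : ν * M' / 2 * r ≤ ν * M' / 2 * 1 := by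
      apply mul_le_mul_of_nonneg_left hr.2.le (by positivity)
    rw [hC]; linarith
  refine ⟨C, hCpos, ?_⟩
  have hd : ∀ r ∈ Ioo (0:ℝ) 1, HasDerivAt (fun r => JJ v r - C * (1 - r)) (J1 v r - C * (-1)) r := by
    intro r hr
    have h1 := hasDerivAt_JJ D (Ico_sub r ⟨hr.1.le, hr.2⟩)
    have h2 : HasDerivAt (fun r : ℝ => C * (1 - r)) (C * (-1)) r :=
      ((hasDerivAt_id r).const_sub 1).const_mul C
    exact h1.sub h2
  have hmono2 : MonotoneOn (fun r => JJ v r - C * (1 - r)) (Icc 0 1) := by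
    apply monotoneOn_of_deriv_nonneg (convex_Icc 0 1)
    · exact (contOn_JJ_Icc D).sub (by fun_prop)
    · intro r hr
      rw [interior_Icc] at hr
      exact (hd r hr).differentiableAt.differentiableWithinAt
    · intro r hr
      rw [interior_Icc] at hr
      rw [(hd r hr).deriv]
      linarith [hJ1 r hr]
  intro r hr
  have h1 := hmono2 ⟨hr.1, hr.2.le⟩ (right_mem_Icc.2 zero_le_one) hr.2.le
  simp only [sub_self, mul_zero, sub_zero] at h1
  rw [JJ_one D] at h1
  linarith

omit D in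
lemma SS_zero : SS v 0 = 0 := by
  unfold SS
  simp

lemma S1_nonneg {r : ℝ} (hr : r ∈ Ico (0:ℝ) 1) : 0 ≤ S1 v r := by
  apply intervalIntegral.integral_nonneg (by positivity)
  intro θ _
  have hJ := JJ_pos D (Ico_sub r hr)
  have hp := sum_pos' D (Ico_sub r hr) θ
  have hr0 := hr.1
  positivity

lemma SS_mono : MonotoneOn (SS v) (Ico 0 1) := by
  apply monotoneOn_of_deriv_nonneg (convex_Ico 0 1)
  · intro r hr
    exact (hasDerivAt_SS D (Ico_sub r hr)).continuousAt.continuousWithinAt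
  · intro r hr
    rw [interior_Ico] at hr
    exact (hasDerivAt_SS D (Ico_sub r ⟨hr.1.le, hr.2⟩)).differentiableAt.differentiableWithinAt
  · intro r hr
    rw [interior_Ico] at hr
    rw [(hasDerivAt_SS D (Ico_sub r ⟨hr.1.le, hr.2⟩)).deriv]
    exact S1_nonneg D ⟨hr.1.le, hr.2⟩

lemma SS_nonneg {r : ℝ} (hr : r ∈ Ico (0:ℝ) 1) : 0 ≤ SS v r := by
  rw [← SS_zero (v := v)]
  exact SS_mono D (left_mem_Ico.2 one_pos) hr hr.1

lemma NN_bounds {r : ℝ} (hr : r ∈ Ico (0:ℝ) 1) : 0 ≤ NN v r ∧ NN v r ≤ 2 * Real.pi := by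
  have hr' := Ico_sub r hr
  have hJ := JJ_pos D hr'
  constructor
  · apply intervalIntegral.integral_nonneg (by positivity)
    intro θ _
    have hp := sum_pos' D hr' θ
    positivity
  · have h1 : ‖NN v r‖ ≤ 1 * |2 * Real.pi - 0| := by
      apply intervalIntegral.norm_integral_le_of_norm_le_const
      intro θ _
      have hp := sum_pos' D hr' θ
      have hF := FF_pos D hr' θ
      rw [Real.norm_of_nonneg (by positivity), div_le_one hp]
      linarith
    rw [sub_zero, abs_of_pos (by positivity), one_mul] at h1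
    exact le_trans (le_abs_self _) (by simpa using h1)

omit D in
lemma SS_eq {r : ℝ} :
    SS v r = r * (JJ v r) ^ 2 * ∫ θ in (0:ℝ)..(2 * Real.pi), - PP v r θ / (JJ v r + FF v r θ) ^ 2
    := by
  unfold SS
  rw [← intervalIntegral.integral_const_mul]
  congr 1
  funext θ
  ring

lemma SS_eq_zero {r : ℝ} (hr : r ∈ Ico (0:ℝ) 1) : SS v r = 0 := by
  by_contra hne
  have hpos : 0 < SS v r := lt_of_le_of_ne (SS_nonneg D hr) (Ne.symm hne)
  have hr0 : 0 < r := by
    rcases eq_or_lt_of_le hr.1 with h | h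
    · exfalso
      rw [← h, SS_zero] at hpos
      exact lt_irrefl _ hpos
    · exact h
  obtain ⟨C, hC, hCb⟩ := exists_lin_bound D
  set s₁ := SS v r with hs₁
  set k := s₁ / C ^ 2 with hk
  have hkpos : 0 < k := by positivity
  -- the derivative of NN is large
  have hd : ∀ s ∈ Ico r 1, HasDerivAt (fun s => NN v s - k * (1 - s)⁻¹)
      ((∫ θ in (0:ℝ)..(2 * Real.pi), - PP v s θ / (JJ v s + FF v s θ) ^ 2)
        - k * (1 / (1 - s) ^ 2)) s := by
    intro s hs
    have hs' : s ∈ Ioo (-1:ℝ) 1 := Ico_sub s ⟨le_trans hr.1 hs.1, hs.2⟩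
    have h1 := hasDerivAt_NN D hs'
    have hne : (1 - s) ≠ 0 := by linarith [hs.2]
    have h2 : HasDerivAt (fun s : ℝ => (1 - s)⁻¹) (-(-1) / (1 - s) ^ 2) s :=
      ((hasDerivAt_id s).const_sub 1).fun_inv hne
    rw [neg_neg] at h2
    exact h1.sub (h2.const_mul k)
  have hlow : ∀ s ∈ Ico r 1, 0 ≤ (∫ θ in (0:ℝ)..(2 * Real.pi),
      - PP v s θ / (JJ v s + FF v s θ) ^ 2) - k * (1 / (1 - s) ^ 2) := by
    intro s hs
    have hs0 : 0 < s := lt_of_lt_of_le hr0 hs.1
    have hs' : s ∈ Ico (0:ℝ) 1 := ⟨hs0.le, hs.2⟩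
    have h1 : s₁ ≤ SS v s := SS_mono D hr hs' hs.1
    rw [SS_eq] at h1
    have hJ := JJ_pos D (Ico_sub s hs')
    have hJC := hCb s hs'
    have h1s : 0 < 1 - s := by linarith [hs.2]
    set I := ∫ θ in (0:ℝ)..(2 * Real.pi), - PP v s θ / (JJ v s + FF v s θ) ^ 2 with hI
    have hIpos : 0 < I := by
      by_contra hcon
      push Not at hcon
      have : s * JJ v s ^ 2 * I ≤ 0 := mul_nonpos_of_nonneg_of_nonpos (by positivity) hcon
      linarith
    have h2 : s * JJ v s ^ 2 * I ≤ (C * (1 - s)) ^ 2 * I := by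
      apply mul_le_mul_of_nonneg_right _ hIpos.le
      calc s * JJ v s ^ 2 ≤ 1 * JJ v s ^ 2 := by
            apply mul_le_mul_of_nonneg_right hs.2.le (by positivity)
        _ = JJ v s ^ 2 := one_mul _
        _ ≤ (C * (1 - s)) ^ 2 := by gcongr
    have h3 : s₁ ≤ (C * (1 - s)) ^ 2 * I := le_trans h1 h2
    have h4 : k * (1 / (1 - s) ^ 2) ≤ I := by
      rw [hk, div_mul_div_comm, mul_one, div_le_iff₀ (by positivity)]
      calc s₁ ≤ (C * (1 - s)) ^ 2 * I := h3
        _ = I * (C ^ 2 * (1 - s) ^ 2) := by ring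
    linarith
  have hmono : MonotoneOn (fun s => NN v s - k * (1 - s)⁻¹) (Ico r 1) := by
    apply monotoneOn_of_deriv_nonneg (convex_Ico r 1)
    · intro s hs
      exact (hd s hs).continuousAt.continuousWithinAt
    · intro s hs
      rw [interior_Ico] at hs
      exact (hd s ⟨hs.1.le, hs.2⟩).differentiableAt.differentiableWithinAt
    · intro s hs
      rw [interior_Ico] at hs
      rw [(hd s ⟨hs.1.le, hs.2⟩).deriv]
      exact hlow s ⟨hs.1.le, hs.2⟩
  have h1r : 0 < 1 - r := by linarith [hr.2]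
  set L := (1 - r)⁻¹ + 2 * Real.pi / k + 1 with hL
  have hinv : 0 < (1 - r)⁻¹ := by positivity
  have hLpos : 0 < L := by positivity
  set s := 1 - L⁻¹ with hs
  have hLi : L⁻¹ ≤ 1 - r := by
    rw [inv_le_comm₀ hLpos h1r]
    have : 0 < 2 * Real.pi / k := by positivity
    linarith
  have hsm : s ∈ Ico r 1 := by
    constructor
    · rw [hs]; linarith
    · rw [hs]; have : 0 < L⁻¹ := by positivity
      linarith
  have h1 := hmono (left_mem_Ico.2 hr.2) hsm hsm.1
  simp only at h1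
  have h2 : (1 - s)⁻¹ = L := by rw [hs]; simp
  rw [h2] at h1
  have h3 := (NN_bounds D hr).1
  have h4 := (NN_bounds D ⟨le_trans hr.1 hsm.1, hsm.2⟩).2
  have h5 : k * L = k * (1 - r)⁻¹ + 2 * Real.pi + k := by
    rw [hL]
    field_simp
  linarith

lemma PP_eq_zero {r θ : ℝ} (hr : r ∈ Ioo (0:ℝ) 1) (hθ : θ ∈ Icc (0:ℝ) (2 * Real.pi)) :
    PP v r θ = 0 := by
  have hr' := Ico_sub r ⟨hr.1.le, hr.2⟩
  have h1 : S1 v r = 0 := by
    have h2 := hasDerivAt_SS D hr'
    have h3 : HasDerivAt (SS v) 0 r := by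
      have h4 : HasDerivAt (fun _ : ℝ => (0:ℝ)) 0 r := hasDerivAt_const r 0
      refine h4.congr_of_eventuallyEq ?_
      filter_upwards [isOpen_Ioo.mem_nhds hr] with s hs
      exact SS_eq_zero D ⟨hs.1.le, hs.2⟩
    exact h2.unique h3
  by_contra hne
  have hT1 := cont_section (contOn_T1 D) hr'
  have hF := cont_section (contOn_FF D) hr'
  have hP := cont_section (contOn_PP D) hr'
  have hJ := JJ_pos D hr'
  have hr0 := hr.1
  have hne' : ∀ θ, JJ v r + FF v r θ ≠ 0 := fun θ => ne_of_gt (sum_pos' D hr' θ)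
  have hpos : 0 < S1 v r := by
    apply intervalIntegral.integral_pos (by positivity)
    · apply Continuous.continuousOn
      exact ((continuous_const.mul (hT1.pow 2)).add (continuous_const.mul (hP.pow 2))).div
        ((continuous_const.add hF).pow 3) (fun θ => pow_ne_zero 3 (hne' θ))
    · intro t _
      have hp := sum_pos' D hr' t
      positivity
    · refine ⟨θ, hθ, ?_⟩
      have hp := sum_pos' D hr' θ
      have h5 : 0 < (PP v r θ) ^ 2 := by positivity
      positivity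
  linarith

/-- the solution is radial -/
lemma FF_eq {r θ : ℝ} (hr : r ∈ Ico (0:ℝ) 1) (hθ : θ ∈ Icc (0:ℝ) (2 * Real.pi)) :
    FF v r θ = JJ v r / (2 * Real.pi) := by
  have hd : ∀ s ∈ Ico (0:ℝ) 1, HasDerivAt (fun s => FF v s θ / JJ v s)
      ((G1 v s θ * JJ v s - FF v s θ * J1 v s) / (JJ v s) ^ 2) s := by
    intro s hs
    exact (hasDerivAt_FF_r D (Ico_sub s hs) θ).div (hasDerivAt_JJ D (Ico_sub s hs))
      (ne_of_gt (JJ_pos D (Ico_sub s hs)))
  have hd0 : ∀ s ∈ Ioo (0:ℝ) 1, HasDerivAt (fun s => FF v s θ / JJ v s) 0 s := by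
    intro s hs
    have h1 := hd s ⟨hs.1.le, hs.2⟩
    have h2 : G1 v s θ * JJ v s - FF v s θ * J1 v s = 0 := PP_eq_zero D hs hθ
    rw [h2, zero_div] at h1
    exact h1
  have hmono : MonotoneOn (fun s => FF v s θ / JJ v s) (Ico 0 1) := by
    apply monotoneOn_of_deriv_nonneg (convex_Ico 0 1)
    · intro s hs
      exact (hd s hs).continuousAt.continuousWithinAt
    · intro s hs
      rw [interior_Ico] at hs
      exact (hd0 s hs).differentiableAt.differentiableWithinAt
    · intro s hs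
      rw [interior_Ico] at hs
      rw [(hd0 s hs).deriv]
  have hanti : AntitoneOn (fun s => FF v s θ / JJ v s) (Ico 0 1) := by
    apply antitoneOn_of_deriv_nonpos (convex_Ico 0 1)
    · intro s hs
      exact (hd s hs).continuousAt.continuousWithinAt
    · intro s hs
      rw [interior_Ico] at hs
      exact (hd0 s hs).differentiableAt.differentiableWithinAt
    · intro s hs
      rw [interior_Ico] at hs
      rw [(hd0 s hs).deriv]
  have h0 : (0:ℝ) ∈ Ico (0:ℝ) 1 := left_mem_Ico.2 one_pos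
  have heq : FF v r θ / JJ v r = FF v 0 θ / JJ v 0 :=
    le_antisymm (hanti h0 hr hr.1) (hmono h0 hr hr.1)
  have hJ0 : JJ v 0 = 2 * Real.pi * v 0 := by
    unfold JJ FF
    simp
  have hF0 : FF v 0 θ = v 0 := by simp [FF]
  have hv0 : 0 < v 0 := D.pos 0 (Metric.mem_ball_self one_pos)
  rw [hJ0, hF0] at heq
  have hJ := JJ_pos D (Ico_sub r hr)
  have hpi := Real.pi_pos
  rw [div_eq_div_iff (ne_of_gt hJ) (by positivity)] at heq
  rw [eq_div_iff (by positivity)]
  have h6 : v 0 * (FF v r θ * (2 * Real.pi)) = v 0 * JJ v r := by linarith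
  exact mul_left_cancel₀ (ne_of_gt hv0) h6

lemma radial {x : EuclideanSpace ℝ (Fin 2)}
    (hx : x ∈ Metric.ball (0 : EuclideanSpace ℝ (Fin 2)) 1) :
    v x = JJ v ‖x‖ / (2 * Real.pi) := by
  obtain ⟨θ, hθ, hxθ⟩ := exists_polar x
  rw [mem_ball_zero_iff] at hx
  have := FF_eq D (r := ‖x‖) ⟨norm_nonneg x, hx⟩ hθ
  unfold FF at this
  rw [← hxθ] at this
  exact this

end

end Pool.Lind
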