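import Mathlib
import Pool.Agent.Lib_helper51.Lind.Disc3

/-! The logarithmic derivative of the radial profile of the disc. -/

open Filter Topology Set MeasureTheory

namespace Pool.Lind

variable {v : EuclideanSpace ℝ (Fin 2) → ℝ} {ν : ℝ}

/-- minus the logarithmic derivative of the radial profile -/
noncomputable def ww (v : EuclideanSpace ℝ (Fin 2) → ℝ) (r : ℝ) : ℝ := - J1 v r / JJ v r

/-- its derivative -/
noncomputable def w1 (v : EuclideanSpace ℝ (Fin 2) → ℝ) (r : ℝ) : ℝ :=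
  (ww v r) ^ 2 - J2 v r / JJ v r

section

variable (D : DiscData v ν)
include D

lemma hasDerivAt_ww {r : ℝ} (hr : r ∈ Ioo (-1:ℝ) 1) : HasDerivAt (ww v) (w1 v r) r := by
  have h1 := (hasDerivAt_J1 D hr).fun_neg.fun_div (hasDerivAt_JJ D hr) (ne_of_gt (JJ_pos D hr))
  have e : w1 v r = (-J2 v r * JJ v r - -J1 v r * J1 v r) / (JJ v r) ^ 2 := by
    unfold w1 ww
    have := ne_of_gt (JJ_pos D hr)
    field_simp
    ring
  rw [e]
  exact h1

lemma w1_eq {r : ℝ} (hr : r ∈ Ioo (0:ℝ) 1) : w1 v r = ν + (ww v r) ^ 2 - ww v r / r := by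
  have hr' := Ico_sub r ⟨hr.1.le, hr.2⟩
  have h1 := ode_JJ D hr'
  have hJ := ne_of_gt (JJ_pos D hr')
  have hr0 : r ≠ 0 := ne_of_gt hr.1
  have h2 : J2 v r = - J1 v r / r - ν * JJ v r := by
    field_simp
    linarith
  unfold w1
  rw [h2]
  unfold ww
  field_simp
  ring

lemma ww_zero : ww v 0 = 0 := by
  unfold ww
  rw [J1_zero D]
  simp

lemma J2_zero : J2 v 0 = - ν / 2 * JJ v 0 := by
  have h0 : (0:ℝ) ∈ Ioo (-1:ℝ) 1 := by constructor <;> norm_num
  have h1 := hasDerivAt_iff_tendsto_slope.1 (hasDerivAt_J1 D h0)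
  have hsub : 𝓝[>] (0:ℝ) ≤ 𝓝[≠] 0 := nhdsWithin_mono _ (fun x hx => ne_of_gt hx)
  have h2 : Tendsto (fun r => J1 v r / r) (𝓝[>] 0) (𝓝 (J2 v 0)) := by
    refine (h1.mono_left hsub).congr' ?_
    filter_upwards [self_mem_nhdsWithin] with r hr
    rw [slope_def_field, J1_zero D, sub_zero, sub_zero]
  have h3 : Tendsto (fun r => - J2 v r - ν * JJ v r) (𝓝[>] 0) (𝓝 (- J2 v 0 - ν * JJ v 0)) := by
    have c1 : ContinuousAt (fun r => - J2 v r - ν * JJ v r) 0 :=
      ((continuousAt_J2 D h0).neg).sub (continuousAt_const.mul (hasDerivAt_JJ D h0).continuousAt)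
    exact c1.tendsto.mono_left nhdsWithin_le_nhds
  have h4 : (fun r => J1 v r / r) =ᶠ[𝓝[>] 0] fun r => - J2 v r - ν * JJ v r := by
    filter_upwards [Ioo_mem_nhdsGT (one_pos : (0:ℝ) < 1)] with r hr
    have h5 := ode_JJ D (Ico_sub r ⟨hr.1.le, hr.2⟩)
    have hr0 : r ≠ 0 := ne_of_gt hr.1
    field_simp
    linarith
  have h6 := tendsto_nhds_unique h2 (h3.congr' h4.symm)
  linarith

lemma w1_zero : w1 v 0 = ν / 2 := by
  have h0 : (0:ℝ) ∈ Ioo (-1:ℝ) 1 := by constructor <;> norm_num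
  unfold w1
  rw [ww_zero D, J2_zero D]
  have := ne_of_gt (JJ_pos D h0)
  field_simp
  ring

lemma rJ1_anti : StrictAntiOn (fun r => r * J1 v r) (Ico 0 1) := by
  have hd : ∀ r ∈ Ico (0:ℝ) 1, HasDerivAt (fun r => r * J1 v r) (1 * J1 v r + r * J2 v r) r :=
    fun r hr => (hasDerivAt_id r).mul (hasDerivAt_J1 D (Ico_sub r hr))
  apply strictAntiOn_of_deriv_neg (convex_Ico 0 1)
  · intro r hr
    exact (hd r hr).continuousAt.continuousWithinAt
  · intro r hr
    rw [interior_Ico] at hr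
    rw [(hd r ⟨hr.1.le, hr.2⟩).deriv]
    have h1 := ode_JJ D (Ico_sub r ⟨hr.1.le, hr.2⟩)
    have h2 := JJ_pos D (Ico_sub r ⟨hr.1.le, hr.2⟩)
    have h3 := nu_pos D
    have h4 : 0 < ν * r * JJ v r := by have := hr.1; positivity
    linarith

lemma J1_neg {r : ℝ} (hr : r ∈ Ioo (0:ℝ) 1) : J1 v r < 0 := by
  have h1 := rJ1_anti D (left_mem_Ico.2 one_pos) ⟨hr.1.le, hr.2⟩ hr.1
  simp only [zero_mul] at h1
  by_contra hcon
  push Not at hcon
  have : 0 ≤ r * J1 v r := mul_nonneg hr.1.le hcon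
  linarith

lemma ww_pos {r : ℝ} (hr : r ∈ Ioo (0:ℝ) 1) : 0 < ww v r := by
  unfold ww
  have h1 := J1_neg D hr
  have h2 := JJ_pos D (Ico_sub r ⟨hr.1.le, hr.2⟩)
  apply div_pos (by linarith) h2

lemma continuousAt_w1 {r : ℝ} (hr : r ∈ Ioo (-1:ℝ) 1) : ContinuousAt (w1 v) r :=
  ((hasDerivAt_ww D hr).continuousAt.pow 2).sub
    ((continuousAt_J2 D hr).div (hasDerivAt_JJ D hr).continuousAt (ne_of_gt (JJ_pos D hr)))

lemma w1_pos {r : ℝ} (hr : r ∈ Ico (0:ℝ) 1) : 0 < w1 v r := by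
  by_contra hcon
  push Not at hcon
  have hν := nu_pos D
  have h0pos : 0 < w1 v 0 := by rw [w1_zero D]; positivity
  have hcont : ContinuousOn (w1 v) (Icc 0 r) := fun s hs =>
    (continuousAt_w1 D (Ico_sub s ⟨hs.1, lt_of_le_of_lt hs.2 hr.2⟩)).continuousWithinAt
  -- the first point where `w1 ≤ 0`
  set Z := Icc 0 r ∩ w1 v ⁻¹' (Iic 0) with hZ
  have hZc : IsCompact Z :=
    isCompact_Icc.of_isClosed_subset (hcont.preimage_isClosed_of_isClosed isClosed_Icc
      isClosed_Iic) inter_subset_left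
  have hZne : Z.Nonempty := ⟨r, ⟨hr.1, le_rfl⟩, hcon⟩
  obtain ⟨s, hs, hsmin⟩ := hZc.exists_isLeast hZne
  have hsI : s ∈ Icc 0 r := hs.1
  have hsle : w1 v s ≤ 0 := hs.2
  have hs0 : 0 < s := by
    rcases eq_or_lt_of_le hsI.1 with h | h
    · exfalso
      rw [← h] at hsle
      linarith
    · exact h
  have hs1 : s < 1 := lt_of_le_of_lt hsI.2 hr.2
  have hbefore : ∀ t, 0 ≤ t → t < s → 0 < w1 v t := by
    intro t ht0 hts
    by_contra hc
    push Not at hc
    have : s ≤ t := hsmin ⟨⟨ht0, le_trans hts.le hsI.2⟩, hc⟩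
    linarith
  have hs' : s ∈ Ioo (0:ℝ) 1 := ⟨hs0, hs1⟩
  -- the value is zero by continuity
  have hval : w1 v s = 0 := by
    apply le_antisymm hsle
    have h1 : Tendsto (w1 v) (𝓝[<] s) (𝓝 (w1 v s)) :=
      (continuousAt_w1 D (Ico_sub s ⟨hs0.le, hs1⟩)).tendsto.mono_left nhdsWithin_le_nhds
    refine ge_of_tendsto h1 ?_
    filter_upwards [Ioo_mem_nhdsLT hs0] with t ht
    exact (hbefore t ht.1.le ht.2).le
  -- derivative at `s`
  have hw := hasDerivAt_ww D (Ico_sub s ⟨hs0.le, hs1⟩)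
  rw [hval] at hw
  have hder : HasDerivAt (w1 v) (ww v s / s ^ 2) s := by
    have h2 : HasDerivAt (fun t => ν + (ww v t) ^ 2 - ww v t / t)
        (2 * ww v s * 0 - (0 * s - ww v s * 1) / s ^ 2) s := by
      have a1 : HasDerivAt (fun t => (ww v t) ^ 2) (2 * ww v s * 0) s := by
        simpa using hw.fun_pow 2
      have a2 := hw.fun_div (hasDerivAt_id s) (ne_of_gt hs0)
      exact (a1.const_add ν).sub a2
    have h3 : w1 v =ᶠ[𝓝 s] fun t => ν + (ww v t) ^ 2 - ww v t / t := by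
      filter_upwards [isOpen_Ioo.mem_nhds hs'] with t ht
      exact w1_eq D ht
    have h4 := h2.congr_of_eventuallyEq h3
    have e : ww v s / s ^ 2 = 2 * ww v s * 0 - (0 * s - ww v s * 1) / s ^ 2 := by ring
    rw [e]
    exact h4
  have hpos : 0 < ww v s / s ^ 2 := by
    have := ww_pos D hs'
    positivity
  -- contradiction with positivity to the left
  have hslope := hasDerivAt_iff_tendsto_slope.1 hder
  have hsub : 𝓝[<] s ≤ 𝓝[≠] s := nhdsWithin_mono _ (fun x hx => ne_of_lt hx)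
  have h5 : ∀ᶠ t in 𝓝[<] s, 0 < slope (w1 v) s t := (hslope.mono_left hsub).eventually
    (lt_mem_nhds hpos)
  obtain ⟨t, ht1, ht2⟩ := (h5.and (Ioo_mem_nhdsLT hs0)).exists
  rw [slope_def_field, hval, sub_zero] at ht1
  have h6 := hbefore t ht2.1.le ht2.2
  have h7 : w1 v t / (t - s) < 0 := div_neg_of_pos_of_neg h6 (by linarith [ht2.2])
  linarith

/-- concavity of the power of the profile -/
lemma concave_of_w1 {α : ℝ} (hα : 0 < α)
    (h : ∀ r ∈ Ioo (0:ℝ) 1, α * (ww v r) ^ 2 ≤ w1 v r) :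
    ConcaveOn ℝ (Metric.ball (0 : EuclideanSpace ℝ (Fin 2)) 1) (fun x => v x ^ α) := by
  -- the one-variable function
  set g : ℝ → ℝ := fun r => (JJ v r) ^ α with hg
  have hgpos : ∀ r ∈ Ico (0:ℝ) 1, 0 < g r := fun r hr =>
    Real.rpow_pos_of_pos (JJ_pos D (Ico_sub r hr)) α
  have hgd : ∀ r ∈ Ico (0:ℝ) 1, HasDerivAt g (- α * ww v r * g r) r := by
    intro r hr
    have hJ := JJ_pos D (Ico_sub r hr)
    have h1 := (hasDerivAt_JJ D (Ico_sub r hr)).rpow_const (p := α) (Or.inl (ne_of_gt hJ))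
    have e : - α * ww v r * g r = J1 v r * α * JJ v r ^ (α - 1) := by
      simp only [hg]
      unfold ww
      rw [Real.rpow_sub_one (ne_of_gt hJ)]
      field_simp
    rw [e]
    exact h1
  have hgd2 : ∀ r ∈ Ioo (0:ℝ) 1, HasDerivAt (fun r => - α * ww v r * g r)
      ((- α * w1 v r) * g r + (- α * ww v r) * (- α * ww v r * g r)) r := by
    intro r hr
    exact ((hasDerivAt_ww D (Ico_sub r ⟨hr.1.le, hr.2⟩)).const_mul (- α)).mul
      (hgd r ⟨hr.1.le, hr.2⟩)
  have hanti' : AntitoneOn (fun r => - α * ww v r * g r) (Ioo 0 1) := by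
    apply antitoneOn_of_deriv_nonpos (convex_Ioo 0 1)
    · intro r hr
      exact (hgd2 r hr).continuousAt.continuousWithinAt
    · intro r hr
      rw [interior_Ioo] at hr
      exact (hgd2 r hr).differentiableAt.differentiableWithinAt
    · intro r hr
      rw [interior_Ioo] at hr
      rw [(hgd2 r hr).deriv]
      have h1 := h r hr
      have h2 := hgpos r ⟨hr.1.le, hr.2⟩
      have h3 : (- α * w1 v r) * g r + (- α * ww v r) * (- α * ww v r * g r)
        = - (α * g r * (w1 v r - α * (ww v r) ^ 2)) := by ring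
      rw [h3]
      have : 0 ≤ α * g r * (w1 v r - α * (ww v r) ^ 2) :=
        mul_nonneg (by positivity) (by linarith)
      linarith
  have hgconc : ConcaveOn ℝ (Ico 0 1) g := by
    apply AntitoneOn.concaveOn_of_deriv (convex_Ico 0 1)
    · intro r hr
      exact (hgd r hr).continuousAt.continuousWithinAt
    · intro r hr
      rw [interior_Ico] at hr
      exact (hgd r ⟨hr.1.le, hr.2⟩).differentiableAt.differentiableWithinAt
    · rw [interior_Ico]
      intro a ha b hb hab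
      rw [(hgd a ⟨ha.1.le, ha.2⟩).deriv, (hgd b ⟨hb.1.le, hb.2⟩).deriv]
      exact hanti' ha hb hab
  have hganti : AntitoneOn g (Ico 0 1) := by
    apply antitoneOn_of_deriv_nonpos (convex_Ico 0 1)
    · intro r hr
      exact (hgd r hr).continuousAt.continuousWithinAt
    · intro r hr
      rw [interior_Ico] at hr
      exact (hgd r ⟨hr.1.le, hr.2⟩).differentiableAt.differentiableWithinAt
    · intro r hr
      rw [interior_Ico] at hr
      rw [(hgd r ⟨hr.1.le, hr.2⟩).deriv]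
      have h1 := ww_pos D hr
      have h2 := hgpos r ⟨hr.1.le, hr.2⟩
      have : 0 < α * ww v r * g r := by positivity
      linarith
  -- composition with the norm
  have himg : (fun x : EuclideanSpace ℝ (Fin 2) => ‖x‖) '' (Metric.ball 0 1) ⊆ Ico (0:ℝ) 1 := by
    rintro _ ⟨x, hx, rfl⟩
    rw [mem_ball_zero_iff] at hx
    exact ⟨norm_nonneg x, hx⟩
  have hconv : Convex ℝ ((fun x : EuclideanSpace ℝ (Fin 2) => ‖x‖) '' (Metric.ball 0 1)) := by
    have : (fun x : EuclideanSpace ℝ (Fin 2) => ‖x‖) '' (Metric.ball 0 1) = Ico (0:ℝ) 1 := by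
      apply Subset.antisymm himg
      intro r hr
      refine ⟨r • er 0, mem_ball_polar (Ico_sub r hr) 0, ?_⟩
      simp only [norm_smul, norm_er, mul_one, Real.norm_of_nonneg hr.1]
    rw [this]
    exact convex_Ico 0 1
  have hcomp : ConcaveOn ℝ (Metric.ball (0 : EuclideanSpace ℝ (Fin 2)) 1)
      (g ∘ fun x : EuclideanSpace ℝ (Fin 2) => ‖x‖) :=
    (hgconc.subset himg hconv).comp_convexOn (convexOn_norm (convex_ball 0 1))
      (hganti.mono himg)
  have hscale : ConcaveOn ℝ (Metric.ball (0 : EuclideanSpace ℝ (Fin 2)) 1)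
      (fun x => ((2 * Real.pi)⁻¹ ^ α) • (g ∘ fun x : EuclideanSpace ℝ (Fin 2) => ‖x‖) x) :=
    hcomp.smul (by positivity)
  refine hscale.congr ?_
  intro x hx
  simp only [Function.comp, hg, smul_eq_mul]
  rw [radial D hx, div_eq_mul_inv, Real.mul_rpow, mul_comm]
  · rw [mem_ball_zero_iff] at hx
    exact (JJ_pos D (Ico_sub _ ⟨norm_nonneg x, hx⟩)).le
  · positivity

end

end Pool.Lind
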