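import Mathlib
import Pool.Agent.Lib_helper51.Lind.Reduce

/-! Dimensions zero and one. -/

open Filter Topology Set

namespace Pool.Lind

/-- a function with nonpositive second derivatives is concave -/
lemma concaveOn_of_snd {n : ℕ} {Ω : Set (EuclideanSpace ℝ (Fin n))}
    {u : EuclideanSpace ℝ (Fin n) → ℝ} (hΩ : IsOpen Ω) (hc : Convex ℝ Ω)
    (hu : ContDiffOn ℝ 2 u Ω)
    (h : ∀ x ∈ Ω, ∀ e, fderiv ℝ (fun y => fderiv ℝ u y e) x e ≤ 0) : ConcaveOn ℝ Ω u := by
  refine ⟨hc, ?_⟩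
  intro x hx y hy a b ha hb hab
  set φ : ℝ → ℝ := fun t => u (x + t • (y - x)) with hφ
  have hmem : ∀ t ∈ Icc (0:ℝ) 1, x + t • (y - x) ∈ Ω := by
    intro t ht
    have := hc hx hy (by linarith [ht.2] : 0 ≤ 1 - t) ht.1 (by ring)
    have e : x + t • (y - x) = (1 - t) • x + t • y := by
      rw [smul_sub, sub_smul, one_smul]; abel
    rw [e]; exact this
  have hd : ∀ t ∈ Icc (0:ℝ) 1, HasDerivAt φ (fderiv ℝ u (x + t • (y - x)) (y - x)) t :=
    fun t ht => hasDerivAt_line (hasFDerivAt_of hΩ hu (hmem t ht)).differentiableAt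
  have hd2 : ∀ t ∈ Icc (0:ℝ) 1, HasDerivAt (fun t => fderiv ℝ u (x + t • (y - x)) (y - x))
      (fderiv ℝ (fun z => fderiv ℝ u z (y - x)) (x + t • (y - x)) (y - x)) t :=
    fun t ht => hasDerivAt_line (g := fun z => fderiv ℝ u z (y - x))
      ((contDiffAt_fd hΩ hu (hmem t ht) (y - x)).differentiableAt (by norm_num))
  have hanti : AntitoneOn (fun t : ℝ => fderiv ℝ u (x + t • (y - x)) (y - x)) (Icc 0 1) := by
    apply antitoneOn_of_deriv_nonpos (convex_Icc 0 1)
    · intro t ht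
      exact (hd2 t ht).continuousAt.continuousWithinAt
    · intro t ht
      rw [interior_Icc] at ht
      exact (hd2 t ⟨ht.1.le, ht.2.le⟩).differentiableAt.differentiableWithinAt
    · intro t ht
      rw [interior_Icc] at ht
      rw [(hd2 t ⟨ht.1.le, ht.2.le⟩).deriv]
      exact h _ (hmem t ⟨ht.1.le, ht.2.le⟩) _
  have hcon : ConcaveOn ℝ (Icc 0 1) φ := by
    apply AntitoneOn.concaveOn_of_deriv (convex_Icc 0 1)
    · intro t ht
      exact (hd t ht).continuousAt.continuousWithinAt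
    · intro t ht
      rw [interior_Icc] at ht
      exact (hd t ⟨ht.1.le, ht.2.le⟩).differentiableAt.differentiableWithinAt
    · rw [interior_Icc]
      intro s hs t ht hst
      rw [(hd s ⟨hs.1.le, hs.2.le⟩).deriv, (hd t ⟨ht.1.le, ht.2.le⟩).deriv]
      exact hanti ⟨hs.1.le, hs.2.le⟩ ⟨ht.1.le, ht.2.le⟩ hst
  have h1 := hcon.2 (left_mem_Icc.2 zero_le_one) (right_mem_Icc.2 zero_le_one) ha hb hab
  simp only [hφ, smul_eq_mul, mul_zero, mul_one, zero_add, zero_smul, add_zero, one_smul] at h1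
  rw [show x + (y - x) = y by abel] at h1
  have e : a • x + b • y = x + b • (y - x) := by
    have : a = 1 - b := by linarith
    rw [this, smul_sub, sub_smul, one_smul]; abel
  rw [e]
  simpa using h1

/-- the potential is unbounded -/
lemma exists_large {n : ℕ} (hn : 1 ≤ n) {Ω : Set (EuclideanSpace ℝ (Fin n))}
    {V : EuclideanSpace ℝ (Fin n) → ℝ} (hΩ : IsOpen Ω) (hne : Ω.Nonempty)
    (hcpt : ∀ K, IsCompact {x | x ∈ Ω ∧ V x ≤ K}) (K : ℝ) : ∃ x ∈ Ω, K < V x := by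
  by_contra hcon
  push Not at hcon
  have hset : {x | x ∈ Ω ∧ V x ≤ K} = Ω := by
    ext x
    exact ⟨fun h => h.1, fun h => ⟨h, hcon x h⟩⟩
  have hc : IsCompact Ω := by rw [← hset]; exact hcpt K
  have huniv : Ω = univ := IsClopen.eq_univ ⟨hc.isClosed, hΩ⟩ hne
  rw [huniv] at hc
  have : Nonempty (Fin n) := ⟨⟨0, by omega⟩⟩
  exact noncompact_univ (EuclideanSpace ℝ (Fin n)) hc

/-- in dimension one the exponent is at most one -/
lemma exponent_le_one {Ω : Set (EuclideanSpace ℝ (Fin 1))}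
    {u : EuclideanSpace ℝ (Fin 1) → ℝ} {μ α : ℝ}
    (hΩ : IsOpen Ω) (hb : Bornology.IsBounded Ω) (hne : Ω.Nonempty)
    (huc : ContinuousOn u (closure Ω)) (hu : ContDiffOn ℝ 2 u Ω)
    (hpos : ∀ x ∈ Ω, 0 < u x) (hbd : ∀ x ∈ frontier Ω, u x = 0)
    (heq : ∀ x ∈ Ω, (∑ i, pd (pd u i) i x) + μ * u x = 0)
    (hα : 0 < α) (hcon : ConcaveOn ℝ Ω (fun x => u x ^ α)) : α ≤ 1 := by
  by_contra hα1
  push Not at hα1
  have hμ := eigenvalue_pos le_rfl hΩ hb hne huc hu hpos hbd heq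
  obtain ⟨κ, K₀, hκ, hgrow⟩ := growth hΩ hb hne hu hpos hα hcon
  have hcpt := compact_sublevel hΩ hb huc hpos hbd
  -- choose a point with a very large value
  set L := μ / (α - 1) + 1 with hL
  have hLpos : 0 < L := by
    have : 0 < μ / (α - 1) := div_pos hμ (by linarith)
    rw [hL]; linarith
  set K := max K₀ (Real.log (√L / κ) / α) with hK
  obtain ⟨x, hx, hVx⟩ := exists_large le_rfl hΩ hne hcpt K
  have h1 := hgrow x hx (le_trans (le_max_left _ _) hVx.le)
  have h2 : √L ≤ κ * Real.exp (α * Vf u x) := by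
    have h3 : Real.log (√L / κ) ≤ α * Vf u x := by
      have := lt_of_le_of_lt (le_max_right _ _) hVx
      rw [div_lt_iff₀ hα] at this
      linarith
    have h4 : √L / κ ≤ Real.exp (α * Vf u x) := by
      have hp : 0 < √L / κ := div_pos (Real.sqrt_pos.2 hLpos) hκ
      calc √L / κ = Real.exp (Real.log (√L / κ)) := (Real.exp_log hp).symm
        _ ≤ _ := Real.exp_le_exp.2 h3
    rw [div_le_iff₀ hκ] at h4
    linarith
  have h5 : L ≤ gsq (Vf u) x := by
    have h6 := le_trans h2 h1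
    exact (Real.sqrt_le_sqrt_iff (gsq_nonneg _ _)).1 h6
  have h7 := hess_ge' hΩ hu hpos hα hcon x hx (fun _ => 1)
  have h8 := lap_Vf hΩ hu hpos heq x hx
  simp only [gsq, Fin.sum_univ_one, one_mul] at h5 h7 h8
  have h9 : (α - 1) * (pd (Vf u) 0 x) ^ 2 ≤ μ := by nlinarith
  have h10 : (α - 1) * L ≤ (α - 1) * (pd (Vf u) 0 x) ^ 2 :=
    mul_le_mul_of_nonneg_left h5 (by linarith)
  have h11 : (α - 1) * L = μ + (α - 1) := by
    rw [hL]
    have : α - 1 ≠ 0 := by linarith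
    field_simp
  linarith

/-- the power of a positive function with a nonnegative eigenvalue in dimension one -/
lemma concave_dim_one {B : Set (EuclideanSpace ℝ (Fin 1))}
    {v : EuclideanSpace ℝ (Fin 1) → ℝ} {ν α : ℝ} (hB : IsOpen B) (hBc : Convex ℝ B)
    (hv : ContDiffOn ℝ 2 v B) (hpos : ∀ x ∈ B, 0 < v x) (hν : 0 < ν)
    (heq : ∀ x ∈ B, (∑ i, pd (pd v i) i x) + ν * v x = 0)
    (hα : 0 < α) (hα1 : α ≤ 1) : ConcaveOn ℝ B (fun x => v x ^ α) := by
  have hvc : ConcaveOn ℝ B v := by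
    apply concaveOn_of_snd hB hBc hv
    intro x hx e
    rw [fderiv_fd_apply hB hv hx, fderiv2_eq_sum hB hv hx]
    have h1 := heq x hx
    simp only [Fin.sum_univ_one] at h1 ⊢
    have h2 : pd (pd v 0) 0 x = - (ν * v x) := by linarith
    rw [h2]
    have h3 : 0 ≤ ν * v x := by have := hpos x hx; positivity
    have h4 : 0 ≤ e 0 * e 0 := mul_self_nonneg _
    nlinarith [mul_nonneg h4 h3]
  refine ⟨hBc, ?_⟩
  intro x hx y hy a b ha hb hab
  have h1 := hvc.2 hx hy ha hb hab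
  have h2 := (Real.concaveOn_rpow hα.le hα1).2 (mem_Ici.2 (hpos x hx).le)
    (mem_Ici.2 (hpos y hy).le) ha hb hab
  simp only [smul_eq_mul] at h1 h2 ⊢
  refine le_trans h2 ?_
  apply Real.rpow_le_rpow _ h1 hα.le
  have := hpos x hx
  have := hpos y hy
  positivity

end Pool.Lind
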