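import Mathlib

/-! The comparison function built from the radial profile. -/

open Filter Topology Set

namespace Pool.Lind

/-- the radial profile in logarithmic form -/
structure ModelW (w w' : ℝ → ℝ) (ν : ℝ) : Prop where
  hd : ∀ r ∈ Ico (0:ℝ) 1, HasDerivAt w (w' r) r
  w0 : w 0 = 0
  pos : ∀ r ∈ Ico (0:ℝ) 1, 0 < w' r
  cont : ∀ r ∈ Ioo (0:ℝ) 1, ContinuousAt w' r
  eq : ∀ r ∈ Ioo (0:ℝ) 1, w' r = ν + (w r) ^ 2 - w r / r
  w'0 : w' 0 = ν / 2

/-- the data needed for the comparison argument -/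
structure CData (c c' : ℝ → ℝ) (ρ α' ν : ℝ) : Prop where
  hα' : 0 < α'
  hρ : 0 < ρ
  hc0 : ν / 2 < c 0
  hcpos : ∀ q, 0 ≤ q → 0 < c q
  hccont : ContinuousOn c (Ici 0)
  hcρ : ∀ q, ρ ≤ q → c q = α' * q ^ 2
  hcd : ∀ q ∈ Ioo 0 ρ, HasDerivAt c (c' q) q
  hc'cont : ContinuousOn c' (Ioo 0 ρ)
  hstrict : ∀ q ∈ Ioo 0 ρ, 0 < ν - q ^ 2 - (c q ^ 2 + (ν + q ^ 2 - c q) ^ 2) / c q + q * c' q

theorem model_data {w w' : ℝ → ℝ} {ν : ℝ} (hν : 0 < ν) (M : ModelW w w' ν) {α R : ℝ}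
    (hR : R ∈ Ioo (0:ℝ) 1) (hlt : w' R < α * (w R) ^ 2) :
    ∃ c c' : ℝ → ℝ, ∃ ρ α' : ℝ, α' < α ∧ CData c c' ρ α' ν := by
  -- strict monotonicity of w
  have hwcont : ContinuousOn w (Ico 0 1) := fun r hr => (M.hd r hr).continuousAt.continuousWithinAt
  have hwmono : StrictMonoOn w (Ico 0 1) := by
    apply strictMonoOn_of_deriv_pos (convex_Ico 0 1) hwcont
    intro r hr
    rw [interior_Ico] at hr
    rw [(M.hd r ⟨hr.1.le, hr.2⟩).deriv]
    exact M.pos r ⟨hr.1.le, hr.2⟩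
  have hwpos : ∀ r ∈ Ioo (0:ℝ) 1, 0 < w r := by
    intro r hr
    rw [← M.w0]
    exact hwmono (left_mem_Ico.2 one_pos) ⟨hr.1.le, hr.2⟩ hr.1
  -- a slightly larger radius
  obtain ⟨R', hR'⟩ : ∃ R' : ℝ, R' ∈ Ioo R 1 := exists_between hR.2
  have hR'0 : 0 < R' := lt_trans hR.1 hR'.1
  have hsub : Icc 0 R' ⊆ Ico (0:ℝ) 1 := fun r hr => ⟨hr.1, lt_of_le_of_lt hr.2 hR'.2⟩
  set ρ := w R with hρdef
  set ρ' := w R' with hρ'def
  have hρ : 0 < ρ := hwpos R hR
  have hρρ' : ρ < ρ' := hwmono ⟨hR.1.le, hR.2⟩ ⟨hR'0.le, hR'.2⟩ hR'.1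
  have himg : w '' (Icc 0 R') = Icc 0 ρ' := by
    apply Subset.antisymm
    · rintro _ ⟨r, hr, rfl⟩
      refine ⟨?_, hwmono.monotoneOn (hsub hr) (hsub ⟨hR'0.le, le_rfl⟩) hr.2⟩
      rw [← M.w0]
      exact hwmono.monotoneOn (left_mem_Ico.2 one_pos) (hsub hr) hr.1
    · have := intermediate_value_Icc hR'0.le (hwcont.mono hsub)
      rw [M.w0] at this
      exact this
  -- the inverse function
  set g : ℝ → ℝ := Function.invFunOn w (Icc 0 R') with hg
  have hgmem : ∀ q ∈ Icc 0 ρ', g q ∈ Icc 0 R' := by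
    intro q hq
    rw [← himg] at hq
    exact Function.invFunOn_mem hq
  have hgeq : ∀ q ∈ Icc 0 ρ', w (g q) = q := by
    intro q hq
    rw [← himg] at hq
    exact Function.invFunOn_eq hq
  have hgw : ∀ r ∈ Icc 0 R', g (w r) = r := by
    intro r hr
    have h1 : w r ∈ Icc 0 ρ' := by rw [← himg]; exact mem_image_of_mem w hr
    exact hwmono.injOn (hsub (hgmem _ h1)) (hsub hr) (hgeq _ h1)
  have hgmono : StrictMonoOn g (Icc 0 ρ') := by
    intro a ha b hb hab
    by_contra hcon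
    push Not at hcon
    have := hwmono.monotoneOn (hsub (hgmem b hb)) (hsub (hgmem a ha)) hcon
    rw [hgeq a ha, hgeq b hb] at this
    linarith
  have hgimg : g '' (Icc 0 ρ') = Icc 0 R' := by
    apply Subset.antisymm
    · rintro _ ⟨q, hq, rfl⟩
      exact hgmem q hq
    · intro r hr
      exact ⟨w r, by rw [← himg]; exact mem_image_of_mem w hr, hgw r hr⟩
  have hρ'0 : 0 < ρ' := lt_trans hρ hρρ'
  have hg0 : g 0 = 0 := by
    have := hgw 0 ⟨le_rfl, hR'0.le⟩
    rwa [M.w0] at this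
  have hgR' : g ρ' = R' := hgw R' ⟨hR'0.le, le_rfl⟩
  have hgρ : g ρ = R := hgw R ⟨hR.1.le, hR'.1.le⟩
  have hgIoo : ∀ q ∈ Ioo 0 ρ', g q ∈ Ioo 0 R' := by
    intro q hq
    constructor
    · have := hgmono (left_mem_Icc.2 hρ'0.le) ⟨hq.1.le, hq.2.le⟩ hq.1
      rwa [hg0] at this
    · have := hgmono ⟨hq.1.le, hq.2.le⟩ (right_mem_Icc.2 hρ'0.le) hq.2
      rwa [hgR'] at this
  have hgcont : ∀ q ∈ Ioo 0 ρ', ContinuousAt g q := by
    intro q hq
    apply continuousAt_of_monotoneOn_of_image_mem_nhds hgmono.monotoneOn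
      (Icc_mem_nhds hq.1 hq.2)
    rw [hgimg]
    have := hgIoo q hq
    exact Icc_mem_nhds this.1 this.2
  have hgcont0 : ContinuousWithinAt g (Ici 0) 0 := by
    apply continuousWithinAt_right_of_monotoneOn_of_image_mem_nhdsWithin hgmono.monotoneOn
      (Icc_mem_nhdsGE hρ'0)
    rw [hgimg, hg0]
    exact Icc_mem_nhdsGE hR'0
  have hgder : ∀ q ∈ Ioo 0 ρ', HasDerivAt g (w' (g q))⁻¹ q := by
    intro q hq
    have h1 := hgIoo q hq
    have h2 : g q ∈ Ico (0:ℝ) 1 := hsub ⟨h1.1.le, h1.2.le⟩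
    apply HasDerivAt.of_local_left_inverse (hgcont q hq) (M.hd _ h2) (ne_of_gt (M.pos _ h2))
    filter_upwards [isOpen_Ioo.mem_nhds hq] with y hy
    exact hgeq y ⟨hy.1.le, hy.2.le⟩
  -- choice of κ
  set gap := α * ρ ^ 2 - w' R with hgap
  have hgap0 : 0 < gap := by rw [hgap]; linarith
  obtain ⟨κ, hκ1, hκ0, hκgap⟩ : ∃ κ : ℝ, κ < 1 ∧ 0 < κ ∧ (1 - κ) * (ρ / R) < gap := by
    have hρR : 0 < ρ / R := div_pos hρ hR.1
    refine ⟨1 - min (1 / 2) (gap / (2 * (ρ / R))), ?_, ?_, ?_⟩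
    · have : 0 < min (1 / 2) (gap / (2 * (ρ / R))) := lt_min (by norm_num) (by positivity)
      linarith
    · have : min (1 / 2) (gap / (2 * (ρ / R))) ≤ 1 / 2 := min_le_left _ _
      linarith
    · have h1 : min (1 / 2) (gap / (2 * (ρ / R))) ≤ gap / (2 * (ρ / R)) := min_le_right _ _
      have h2 : (1 - (1 - min (1 / 2) (gap / (2 * (ρ / R))))) * (ρ / R)
          ≤ gap / (2 * (ρ / R)) * (ρ / R) := by
        rw [sub_sub_cancel]
        exact mul_le_mul_of_nonneg_right h1 hρR.le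
      have h3 : gap / (2 * (ρ / R)) * (ρ / R) = gap / 2 := by
        have hne := ne_of_gt hρR
        field_simp
        exact div_self (ne_of_gt hR.1)
      linarith
  -- the function on `[0, ρ']`
  set f : ℝ → ℝ := fun q => ν + q ^ 2 - κ * dslope w 0 (g q) with hf
  have hfpos' : ∀ q ∈ Ioo 0 ρ', f q = ν + q ^ 2 - κ * (q / g q) := by
    intro q hq
    have h1 := hgIoo q hq
    simp only [hf]
    rw [dslope_of_ne _ (ne_of_gt h1.1), slope_def_field, M.w0, hgeq q ⟨hq.1.le, hq.2.le⟩,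
      sub_zero, sub_zero]
  have hfw : ∀ q ∈ Ioo 0 ρ', f q = w' (g q) + (1 - κ) * (q / g q) := by
    intro q hq
    have h1 := hgIoo q hq
    rw [hfpos' q hq, M.eq (g q) ⟨h1.1, lt_trans h1.2 hR'.2⟩, hgeq q ⟨hq.1.le, hq.2.le⟩]
    ring
  have hf0 : f 0 = ν - κ * (ν / 2) := by
    simp only [hf]
    rw [hg0, dslope_same, (M.hd 0 (left_mem_Ico.2 one_pos)).deriv, M.w'0]
    ring
  have hfpos : ∀ q ∈ Ico 0 ρ', 0 < f q := by
    intro q hq
    rcases eq_or_lt_of_le hq.1 with h | h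
    · rw [← h, hf0]
      nlinarith
    · have hq' : q ∈ Ioo 0 ρ' := ⟨h, hq.2⟩
      rw [hfw q hq']
      have h1 := hgIoo q hq'
      have h2 := M.pos (g q) ⟨h1.1.le, lt_trans h1.2 hR'.2⟩
      have h3 : 0 < (1 - κ) * (q / g q) := mul_pos (by linarith) (div_pos h h1.1)
      linarith
  have hfcont : ContinuousOn f (Ico 0 ρ') := by
    intro q hq
    rcases eq_or_lt_of_le hq.1 with h | h
    · have h1 : ContinuousAt (dslope w 0) (g 0) := by
        rw [hg0]
        exact continuousAt_dslope_same.2 (M.hd 0 (left_mem_Ico.2 one_pos)).differentiableAt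
      have h2 : ContinuousWithinAt (fun q => dslope w 0 (g q)) (Ici 0) 0 :=
        h1.comp_continuousWithinAt hgcont0
      have h3 : ContinuousWithinAt f (Ici 0) 0 := by
        simp only [hf]
        exact ((continuousWithinAt_const.add (continuousWithinAt_id.pow 2))).sub
          (continuousWithinAt_const.mul h2)
      rw [← h]
      exact h3.mono (fun x hx => hx.1)
    · have hq' : q ∈ Ioo 0 ρ' := ⟨h, hq.2⟩
      have h1 := hgIoo q hq'
      have h2 : ContinuousAt (fun q => ν + q ^ 2 - κ * (q / g q)) q := by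
        have h3 := hgcont q hq'
        exact (continuousAt_const.add (continuousAt_id.pow 2)).sub
          (continuousAt_const.mul (continuousAt_id.div h3 (ne_of_gt h1.1)))
      have h4 : f =ᶠ[𝓝 q] fun q => ν + q ^ 2 - κ * (q / g q) := by
        filter_upwards [isOpen_Ioo.mem_nhds hq'] with y hy
        exact hfpos' y hy
      exact (h2.congr h4.symm).continuousWithinAt
  set f' : ℝ → ℝ := fun q => 2 * q - κ * (1 / g q - q / (w' (g q) * (g q) ^ 2)) with hf'
  have hfder : ∀ q ∈ Ioo 0 ρ', HasDerivAt f (f' q) q := by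
    intro q hq
    have h1 := hgIoo q hq
    have h2 := M.pos (g q) ⟨h1.1.le, lt_trans h1.2 hR'.2⟩
    have h3 := hgder q hq
    have h4 : HasDerivAt (fun q => ν + q ^ 2 - κ * (q / g q))
        (2 * q - κ * ((1 * g q - q * (w' (g q))⁻¹) / (g q) ^ 2)) q := by
      have a1 : HasDerivAt (fun q : ℝ => ν + q ^ 2) (2 * q) q := by
        simpa using (hasDerivAt_pow 2 q).const_add ν
      have a2 := ((hasDerivAt_id q).fun_div h3 (ne_of_gt h1.1)).const_mul κ
      exact a1.sub a2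
    have h5 : f =ᶠ[𝓝 q] fun q => ν + q ^ 2 - κ * (q / g q) := by
      filter_upwards [isOpen_Ioo.mem_nhds hq] with y hy
      exact hfpos' y hy
    have h6 := h4.congr_of_eventuallyEq h5
    have e : f' q = 2 * q - κ * ((1 * g q - q * (w' (g q))⁻¹) / (g q) ^ 2) := by
      simp only [hf']
      have := ne_of_gt h1.1
      have := ne_of_gt h2
      field_simp
    rw [e]
    exact h6
  have hf'cont : ContinuousOn f' (Ioo 0 ρ') := by
    intro q hq
    have h1 := hgIoo q hq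
    have h1' : g q ∈ Ioo (0:ℝ) 1 := ⟨h1.1, lt_trans h1.2 hR'.2⟩
    have h2 := M.pos (g q) ⟨h1'.1.le, h1'.2⟩
    have h3 := hgcont q hq
    have h4 : ContinuousAt (fun q => w' (g q)) q :=
      ContinuousAt.comp (g := w') (f := g) (M.cont _ h1') h3
    have h5 : ContinuousAt f' q := by
      simp only [hf']
      refine (continuousAt_const.mul continuousAt_id).sub (continuousAt_const.mul ?_)
      refine (continuousAt_const.div h3 (ne_of_gt h1.1)).sub ?_
      refine continuousAt_id.div (h4.mul (h3.pow 2)) ?_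
      have := h1.1
      positivity
    exact h5.continuousWithinAt
  -- gluing
  have hρmem : ρ ∈ Ioo 0 ρ' := ⟨hρ, hρρ'⟩
  set α' := f ρ / ρ ^ 2 with hα'
  have hfρ : f ρ = w' R + (1 - κ) * (ρ / R) := by
    rw [hfw ρ hρmem, hgρ]
  have hfρpos : 0 < f ρ := hfpos ρ ⟨hρ.le, hρρ'⟩
  have hα'pos : 0 < α' := by rw [hα']; positivity
  have hα'lt : α' < α := by
    rw [hα', div_lt_iff₀ (by positivity), hfρ]
    linarith
  set c : ℝ → ℝ := fun q => f (min q ρ) + α' * (q ^ 2 - (min q ρ) ^ 2) with hc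
  have hcle : ∀ q, q ≤ ρ → c q = f q := by
    intro q hq
    simp only [hc]
    rw [min_eq_left hq]
    ring
  have hcge : ∀ q, ρ ≤ q → c q = α' * q ^ 2 := by
    intro q hq
    simp only [hc]
    rw [min_eq_right hq]
    have : f ρ = α' * ρ ^ 2 := by rw [hα']; field_simp
    rw [this]; ring
  refine ⟨c, f', ρ, α', hα'lt, ⟨hα'pos, hρ, ?_, ?_, ?_, hcge, ?_, ?_, ?_⟩⟩
  · rw [hcle 0 hρ.le, hf0]
    nlinarith
  · intro q hq
    rcases le_total q ρ with h | h
    · rw [hcle q h]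
      exact hfpos q ⟨hq, lt_of_le_of_lt h hρρ'⟩
    · rw [hcge q h]
      have : 0 < q := lt_of_lt_of_le hρ h
      positivity
  · simp only [hc]
    refine ContinuousOn.add ?_ (by fun_prop)
    refine hfcont.comp (by fun_prop) ?_
    intro q hq
    exact ⟨le_min hq hρ.le, lt_of_le_of_lt (min_le_right _ _) hρρ'⟩
  · intro q hq
    have h1 : HasDerivAt f (f' q) q := hfder q ⟨hq.1, lt_trans hq.2 hρρ'⟩
    refine h1.congr_of_eventuallyEq ?_
    filter_upwards [Iio_mem_nhds hq.2] with y hy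
    exact hcle y (le_of_lt hy)
  · exact hf'cont.mono (fun q hq => ⟨hq.1, lt_trans hq.2 hρρ'⟩)
  · intro q hq
    have hq' : q ∈ Ioo 0 ρ' := ⟨hq.1, lt_trans hq.2 hρρ'⟩
    rw [hcle q hq.2.le]
    have h1 := hgIoo q hq'
    have h2 := M.pos (g q) ⟨h1.1.le, lt_trans h1.2 hR'.2⟩
    have h3 := hfpos q ⟨hq.1.le, hq'.2⟩
    have h4 := hfpos' q hq'
    have h5 := hfw q hq'
    -- abbreviations
    set r := g q with hr
    set d := q / r with hd
    have hr0 : 0 < r := h1.1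
    have hd0 : 0 < d := div_pos hq.1 hr0
    have e1 : ν + q ^ 2 - f q = κ * d := by rw [h4]; ring
    have e2 : q * f' q = 2 * q ^ 2 - κ * d + κ * d ^ 2 / w' r := by
      simp only [hf']
      rw [← hr, hd]
      field_simp
      ring
    rw [e1, e2]
    have e3 : ν = f q - q ^ 2 + κ * d := by linarith
    have hne := ne_of_gt h3
    have e4 : ν - q ^ 2 - (f q ^ 2 + (κ * d) ^ 2) / f q + (2 * q ^ 2 - κ * d + κ * d ^ 2 / w' r)
        = κ * d ^ 2 * (1 / w' r - κ / f q) := by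
      rw [e3]
      field_simp
      ring
    rw [e4]
    have h6 : κ / f q < 1 / w' r := by
      rw [div_lt_div_iff₀ h3 h2, one_mul, h5]
      have : 0 < (1 - κ) * (w' r + q / r) := mul_pos (by linarith) (by rw [← hd]; positivity)
      nlinarith
    have h7 : 0 < 1 / w' r - κ / f q := by linarith
    positivity

/-- scaling of the data -/
theorem CData.scale {c c' : ℝ → ℝ} {ρ α' ν μ : ℝ} (hν : 0 < ν) (hμ : 0 < μ)
    (H : CData c c' ρ α' ν) :
    ∃ c₁ c₁' : ℝ → ℝ, ∃ ρ₁ : ℝ, CData c₁ c₁' ρ₁ α' μ := by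
  set k := √(μ / ν) with hk
  have hkpos : 0 < k := Real.sqrt_pos.2 (by positivity)
  have hk2 : k ^ 2 = μ / ν := Real.sq_sqrt (by positivity)
  have hμk : μ = k ^ 2 * ν := by rw [hk2]; field_simp
  have hmem : ∀ q ∈ Ioo 0 (k * ρ), q / k ∈ Ioo 0 ρ := by
    intro q hq
    refine ⟨div_pos hq.1 hkpos, ?_⟩
    rw [div_lt_iff₀ hkpos]
    linarith [hq.2]
  refine ⟨fun q => k ^ 2 * c (q / k), fun q => k * c' (q / k), k * ρ,
    ⟨H.hα', mul_pos hkpos H.hρ, ?_, ?_, ?_, ?_, ?_, ?_, ?_⟩⟩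
  · have h1 := H.hc0
    have h2 : 0 < k ^ 2 := by positivity
    simp only [zero_div]
    rw [hμk]
    nlinarith
  · intro q hq
    have := H.hcpos (q / k) (by positivity)
    positivity
  · refine continuousOn_const.mul (H.hccont.comp (by fun_prop) ?_)
    intro q hq
    have : (0:ℝ) ≤ q := hq
    exact div_nonneg this hkpos.le
  · intro q hq
    have h1 : ρ ≤ q / k := by
      rw [le_div_iff₀ hkpos]
      linarith
    rw [H.hcρ _ h1]
    field_simp
  · intro q hq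
    have h1 := H.hcd _ (hmem q hq)
    have h2 : HasDerivAt (fun q : ℝ => q / k) (1 / k) q := (hasDerivAt_id q).div_const k
    have h3 := (h1.comp q h2).const_mul (k ^ 2)
    have e : k * c' (q / k) = k ^ 2 * (c' (q / k) * (1 / k)) := by
      field_simp
    rw [e]
    exact h3
  · refine continuousOn_const.mul (H.hc'cont.comp (by fun_prop) ?_)
    intro q hq
    exact hmem q hq
  · intro q hq
    have h1 := H.hstrict _ (hmem q hq)
    have h2 := H.hcpos (q / k) (by have := hq.1; positivity)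
    set t := q / k with ht
    have hqt : q = k * t := by rw [ht]; field_simp
    have e : μ - q ^ 2 - ((k ^ 2 * c t) ^ 2 + (μ + q ^ 2 - k ^ 2 * c t) ^ 2) / (k ^ 2 * c t)
        + q * (k * c' t)
        = k ^ 2 * (ν - t ^ 2 - (c t ^ 2 + (ν + t ^ 2 - c t) ^ 2) / c t + t * c' t) := by
      rw [hμk, hqt]
      field_simp
    rw [e]
    have h3 : 0 < k ^ 2 := by positivity
    exact mul_pos h3 h1

end Pool.Lind
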