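import Mathlib
import Pool.Agent.Lib_helper51.Lind.Disc4
import Pool.Agent.Lib_helper51.Lind.Model

/-! The comparison with the disc. -/

open Filter Topology Set

namespace Pool.Lind

lemma modelW_of_disc {v : EuclideanSpace ℝ (Fin 2) → ℝ} {ν : ℝ} (D : DiscData v ν) :
    ModelW (ww v) (w1 v) ν where
  hd := fun r hr => hasDerivAt_ww D (Ico_sub r hr)
  w0 := ww_zero D
  pos := fun _ hr => w1_pos D hr
  cont := fun r hr => continuousAt_w1 D (Ico_sub r ⟨hr.1.le, hr.2⟩)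
  eq := fun _ hr => w1_eq D hr
  w'0 := w1_zero D

/-- comparison of the exponents with the disc, in every dimension at least two -/
theorem disc_bound {n : ℕ} (hn : 2 ≤ n) {Ω : Set (EuclideanSpace ℝ (Fin n))}
    {u : EuclideanSpace ℝ (Fin n) → ℝ} {v : EuclideanSpace ℝ (Fin 2) → ℝ} {μ ν α : ℝ}
    (hΩ : IsOpen Ω) (hb : Bornology.IsBounded Ω) (hne : Ω.Nonempty)
    (huc : ContinuousOn u (closure Ω)) (hu : ContDiffOn ℝ 2 u Ω)
    (hpos : ∀ x ∈ Ω, 0 < u x) (hbd : ∀ x ∈ frontier Ω, u x = 0)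
    (heq : ∀ x ∈ Ω, (∑ i, pd (pd u i) i x) + μ * u x = 0)
    (D : DiscData v ν) (hα : 0 < α) (hcon : ConcaveOn ℝ Ω (fun x => u x ^ α)) :
    ConcaveOn ℝ (Metric.ball (0 : EuclideanSpace ℝ (Fin 2)) 1) (fun x => v x ^ α) := by
  by_contra hnot
  obtain ⟨r, hr, hlt⟩ : ∃ r ∈ Ioo (0:ℝ) 1, w1 v r < α * (ww v r) ^ 2 := by
    by_contra hcon2
    push Not at hcon2
    exact hnot (concave_of_w1 D hα hcon2)
  have hν := nu_pos D
  have hμ := eigenvalue_pos (by omega) hΩ hb hne huc hu hpos hbd heq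
  obtain ⟨c, c', ρ, α', hα', H⟩ := model_data hν (modelW_of_disc D) hr hlt
  obtain ⟨c₁, c₁', ρ₁, H₁⟩ := H.scale hν hμ
  obtain ⟨κ, K₀, hκ, hgrow⟩ := growth hΩ hb hne hu hpos hα hcon
  exact dom_contra hn hΩ (contDiffOn_Vf hu hpos) (convexOn_Vf hpos hα hcon) hne hμ
    (lap_Vf hΩ hu hpos heq) (compact_sublevel hΩ hb huc hpos hbd)
    (hess_ge' hΩ hu hpos hα hcon) hκ hgrow H₁.hα' hα' H₁.hρ H₁.hc0 H₁.hcpos H₁.hccont
    H₁.hcρ H₁.hcd H₁.hc'cont H₁.hstrict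

end Pool.Lind
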